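import Mathlib

/-!
Algebraic lemmas: linear systems with polynomial entries, multiplicity of roots from growth
bounds, and positive definite quadratic forms.
-/

open Set Filter Topology Polynomial Module
open scoped InnerProductSpace

noncomputable section

namespace Pool.Agent.P.MP_376fb4_gt

theorem exists_poly_kernel {ι : Type} [Fintype ι] (ρ : ℕ → ι → ℂ[X]) {S : Set ℂ}
    (hS : S.Infinite)
    (h : ∀ ζ ∈ S, ∃ v : ι → ℂ, v ≠ 0 ∧ ∀ j, ∑ i, (ρ j i).eval ζ * v i = 0) :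
    ∃ y : ι → ℂ[X], y ≠ 0 ∧ ∀ j, ∑ i, ρ j i * y i = 0 := by
  classical
  set F := FractionRing ℂ[X]
  set φ := algebraMap ℂ[X] F with hφ
  have hinj : Function.Injective φ := IsFractionRing.injective _ _
  set V : Submodule F (ι → F) := Submodule.span F (range fun j i => φ (ρ j i)) with hV
  by_cases hlt : V < ⊤
  · obtain ⟨f, hf0, hf⟩ := Submodule.exists_le_ker_of_lt_top V hlt
    obtain ⟨b, hb⟩ := IsLocalization.exist_integer_multiples_of_finite (nonZeroDivisors ℂ[X])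
      (fun i => f fun j => if i = j then 1 else 0)
    choose y hy using hb
    have hb0 : φ b ≠ 0 := fun h0 =>
      nonZeroDivisors.ne_zero b.2 (hinj (h0.trans (map_zero φ).symm))
    have hy' : ∀ i, φ (y i) = φ b * f fun j => if i = j then 1 else 0 := fun i => by
      rw [hy i, Algebra.smul_def]
    refine ⟨y, fun h0 => hf0 ?_, fun j => hinj ?_⟩
    · refine LinearMap.ext fun x => ?_
      rw [LinearMap.pi_apply_eq_sum_univ]
      refine Finset.sum_eq_zero fun i _ => ?_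
      have := hy' i
      rw [h0, Pi.zero_apply, map_zero] at this
      rw [(mul_eq_zero.1 this.symm).resolve_left hb0, smul_zero]
    · have h1 : f (fun i => φ (ρ j i)) = 0 := hf (Submodule.subset_span ⟨j, rfl⟩)
      rw [LinearMap.pi_apply_eq_sum_univ] at h1
      rw [map_sum, map_zero]
      simp only [map_mul, hy', smul_eq_mul] at h1 ⊢
      have h2 : ∀ i, φ (ρ j i) * (φ b * f fun j => if i = j then 1 else 0) =
          φ b * (φ (ρ j i) * f fun j => if i = j then 1 else 0) := fun i => by ring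
      simp only [h2, ← Finset.mul_sum, h1, mul_zero]
  · exfalso
    have htop : V = ⊤ := by
      by_contra h'
      exact hlt (lt_top_iff_ne_top.2 h')
    have key : ∀ x ∈ V, ∃ b : ℂ[X], b ≠ 0 ∧ ∃ x' : ι → ℂ[X], (∀ i, φ (x' i) = φ b * x i) ∧
        ∀ (ζ : ℂ) (v : ι → ℂ), (∀ j, ∑ i, (ρ j i).eval ζ * v i = 0) →
          ∑ i, (x' i).eval ζ * v i = 0 := by
      intro x hx
      induction hx using Submodule.span_induction with
      | mem x hx =>
        obtain ⟨j, rfl⟩ := hx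
        exact ⟨1, one_ne_zero, ρ j, fun i => by simp, fun ζ v hv => hv j⟩
      | zero => exact ⟨1, one_ne_zero, 0, fun i => by simp, fun ζ v _ => by simp⟩
      | add x y _ _ hx hy =>
        obtain ⟨b, hb, x', hx1, hx2⟩ := hx
        obtain ⟨c, hc, y', hy1, hy2⟩ := hy
        refine ⟨b * c, mul_ne_zero hb hc, fun i => c * x' i + b * y' i, fun i => ?_,
          fun ζ v hv => ?_⟩
        · simp only [map_add, map_mul, hx1, hy1, Pi.add_apply]
          ring
        · have h1 := hx2 ζ v hv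
          have h2 := hy2 ζ v hv
          simp only [eval_add, eval_mul, add_mul, Finset.sum_add_distrib, mul_assoc,
            ← Finset.mul_sum, h1, h2, mul_zero, add_zero]
      | smul a x _ hx =>
        obtain ⟨b, hb, x', hx1, hx2⟩ := hx
        obtain ⟨r, s, hs, rfl⟩ := IsFractionRing.div_surjective (A := ℂ[X]) a
        have hs0 : φ s ≠ 0 := fun h0 =>
          nonZeroDivisors.ne_zero hs (hinj (h0.trans (map_zero φ).symm))
        refine ⟨b * s, mul_ne_zero hb (nonZeroDivisors.ne_zero hs), fun i => r * x' i,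
          fun i => ?_, fun ζ v hv => ?_⟩
        · simp only [map_mul, hx1, Pi.smul_apply, smul_eq_mul, ← hφ]
          have h3 : φ s * (φ r / φ s) = φ r := mul_div_cancel₀ _ hs0
          linear_combination (-(φ b) * x i) * h3
        · have h1 := hx2 ζ v hv
          simp only [eval_mul, mul_assoc, ← Finset.mul_sum, h1, mul_zero]
    have key2 : ∀ i : ι, ∃ b : ℂ[X], b ≠ 0 ∧ ∀ (ζ : ℂ) (v : ι → ℂ),
        (∀ j, ∑ i, (ρ j i).eval ζ * v i = 0) → b.eval ζ * v i = 0 := by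
      intro i
      obtain ⟨b, hb, x', hx1, hx2⟩ := key (Pi.single i 1) (htop ▸ Submodule.mem_top)
      refine ⟨b, hb, fun ζ v hv => ?_⟩
      have hx3 : ∀ k, x' k = if k = i then b else 0 := by
        intro k
        apply hinj
        rw [hx1]
        by_cases hk : k = i
        · simp [hk]
        · simp [hk]
      have := hx2 ζ v hv
      simp only [hx3] at this
      rw [Finset.sum_eq_single i] at this
      · simpa using this
      · intro k _ hk
        simp [hk]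
      · simp
    choose b hb hb' using key2
    have hprod : ∏ i, b i ≠ 0 := Finset.prod_ne_zero_iff.2 fun i _ => hb i
    obtain ⟨ζ, hζS, hζ⟩ := hS.exists_notMem_finset (∏ i, b i).roots.toFinset
    obtain ⟨v, hv0, hv⟩ := h ζ hζS
    apply hv0
    funext i
    have h1 : (b i).eval ζ ≠ 0 := by
      intro h0
      apply hζ
      rw [Multiset.mem_toFinset, mem_roots hprod, IsRoot.def, eval_prod]
      exact Finset.prod_eq_zero (Finset.mem_univ i) h0
    exact (mul_eq_zero.1 (hb' i ζ v hv)).resolve_left h1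

theorem pow_le_of_bound {c L : ℝ} (hc : 0 < c) {g : ℝ → ℝ} (hg : Tendsto g (𝓝[>] 0) (𝓝 L))
    {a b : ℕ} (h : ∀ᶠ s in 𝓝[>] (0 : ℝ), c * s ^ a ≤ g s * s ^ b) : b ≤ a := by
  by_contra hab
  obtain ⟨k, rfl⟩ : ∃ k, b = a + (k + 1) := ⟨b - a - 1, by omega⟩
  have h1 : Tendsto (fun s : ℝ => g s * s ^ (k + 1)) (𝓝[>] 0) (𝓝 (L * 0 ^ (k + 1))) :=
    hg.mul (((continuous_pow (k + 1)).tendsto 0).mono_left nhdsWithin_le_nhds)
  rw [pow_succ, mul_zero, mul_zero] at h1
  have h2 : c ≤ 0 := by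
    refine ge_of_tendsto h1 ?_
    filter_upwards [h, self_mem_nhdsWithin] with s hs hs0
    have hs1 : 0 < s ^ a := pow_pos hs0 a
    refine le_of_mul_le_mul_right ?_ hs1
    calc c * s ^ a ≤ g s * s ^ (a + (k + 1)) := hs
      _ = g s * s ^ (k + 1) * s ^ a := by ring
  linarith

theorem norm_eval_sq {q₁ : ℂ[X]} {e ε s : ℝ} (hε : ε * ε = 1) (k : ℕ) :
    ‖((X - C (e : ℂ)) ^ k * q₁).eval ((e - ε * s : ℝ) : ℂ)‖ ^ 2 =
      ‖q₁.eval ((e - ε * s : ℝ) : ℂ)‖ ^ 2 * s ^ (2 * k) := by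
  have h1 : ‖((e - ε * s : ℝ) : ℂ) - e‖ ^ 2 = s ^ 2 := by
    rw [← Complex.ofReal_sub, Complex.norm_real, Real.norm_eq_abs, sq_abs]
    linear_combination s ^ 2 * hε
  simp only [eval_mul, eval_pow, eval_sub, eval_X, eval_C, norm_mul, norm_pow]
  rw [mul_pow, ← pow_mul, mul_comm k 2, pow_mul, h1, ← pow_mul, mul_comm]

theorem tendsto_norm_eval (q₁ : ℂ[X]) (e ε : ℝ) :
    Tendsto (fun s : ℝ => ‖q₁.eval ((e - ε * s : ℝ) : ℂ)‖ ^ 2) (𝓝[>] 0)
      (𝓝 (‖q₁.eval (e : ℂ)‖ ^ 2)) := by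
  have h : Continuous fun s : ℝ => ‖q₁.eval ((e - ε * s : ℝ) : ℂ)‖ ^ 2 := by
    have := q₁.continuous
    fun_prop
  have := h.tendsto 0
  simp only [mul_zero, sub_zero] at this
  exact this.mono_left nhdsWithin_le_nhds

theorem mult_le {q : ℂ[X]} {e ε c₁ : ℝ} (hε : ε * ε = 1) (hc₁ : 0 < c₁) {c : ℂ} {m a k : ℕ}
    {d : ℝ → ℝ} (hk : (X - C (e : ℂ)) ^ k ∣ q)
    (h : ∀ᶠ s in 𝓝[>] (0 : ℝ), (d s : ℂ) ^ m = c * q.eval ((e - ε * s : ℝ) : ℂ) ∧
      c₁ * s ^ a ≤ d s ^ 2) : 2 * k ≤ m * a := by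
  obtain ⟨q₁, rfl⟩ := hk
  refine pow_le_of_bound (pow_pos hc₁ m) ((tendsto_norm_eval q₁ e ε).const_mul (‖c‖ ^ 2)) ?_
  filter_upwards [h, self_mem_nhdsWithin] with s hs hs0
  have hs1 : (0 : ℝ) < s := hs0
  have h1 := congrArg (fun z => ‖z‖ ^ 2) hs.1
  simp only [norm_mul, norm_pow, Complex.norm_real, Real.norm_eq_abs] at h1
  rw [mul_pow, norm_eval_sq hε, ← pow_mul, mul_comm m 2, pow_mul, sq_abs] at h1
  calc c₁ ^ m * s ^ (m * a) = (c₁ * s ^ a) ^ m := by rw [mul_pow, ← pow_mul, mul_comm a m]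
    _ ≤ (d s ^ 2) ^ m := pow_le_pow_left₀ (by positivity) hs.2 m
    _ = _ := by rw [h1]; ring

theorem mult_ge {q : ℂ[X]} (hq : q ≠ 0) {e ε c₂ : ℝ} (hε : ε * ε = 1) {c : ℂ} (hc : c ≠ 0)
    {m a : ℕ} {d : ℝ → ℝ}
    (h : ∀ᶠ s in 𝓝[>] (0 : ℝ), (d s : ℂ) ^ m = c * q.eval ((e - ε * s : ℝ) : ℂ) ∧
      d s ^ 2 ≤ c₂ * s ^ a) : m * a ≤ 2 * q.rootMultiplicity (e : ℂ) := by
  obtain ⟨q₁, hq₁, hnd⟩ := exists_eq_pow_rootMultiplicity_mul_and_not_dvd q hq (e : ℂ)
  set k := q.rootMultiplicity (e : ℂ)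
  have hq₁0 : q₁.eval (e : ℂ) ≠ 0 := fun h0 => hnd (dvd_iff_isRoot.2 h0)
  have hpos : 0 < ‖q₁.eval (e : ℂ)‖ ^ 2 / 2 := by positivity
  refine pow_le_of_bound (c := ‖c‖ ^ 2 * (‖q₁.eval (e : ℂ)‖ ^ 2 / 2)) (by positivity)
    (tendsto_const_nhds (x := c₂ ^ m)) ?_
  have h2 : ∀ᶠ s in 𝓝[>] (0 : ℝ), ‖q₁.eval (e : ℂ)‖ ^ 2 / 2 ≤ ‖q₁.eval ((e - ε * s : ℝ) : ℂ)‖ ^ 2 :=
    (tendsto_norm_eval q₁ e ε).eventually (eventually_ge_nhds (by linarith))
  filter_upwards [h, self_mem_nhdsWithin, h2] with s hs hs0 hs2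
  have hs1 : (0 : ℝ) < s := hs0
  have h1 := congrArg (fun z => ‖z‖ ^ 2) hs.1
  simp only [norm_mul, norm_pow, Complex.norm_real, Real.norm_eq_abs] at h1
  rw [hq₁, mul_pow, norm_eval_sq hε, ← pow_mul, mul_comm m 2, pow_mul, sq_abs] at h1
  calc ‖c‖ ^ 2 * (‖q₁.eval (e : ℂ)‖ ^ 2 / 2) * s ^ (2 * k)
      ≤ ‖c‖ ^ 2 * ‖q₁.eval ((e - ε * s : ℝ) : ℂ)‖ ^ 2 * s ^ (2 * k) := by gcongr
    _ = (d s ^ 2) ^ m := by rw [h1]; ring
    _ ≤ (c₂ * s ^ a) ^ m := pow_le_pow_left₀ (by positivity) hs.2 m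
    _ = c₂ ^ m * s ^ (m * a) := by rw [mul_pow, ← pow_mul, mul_comm a m]

variable {E : Type*} [NormedAddCommGroup E] [InnerProductSpace ℝ E]

theorem exists_bilin {q : E → ℝ} (hc : Continuous q)
    (hp : ∀ x y, q (x + y) + q (x - y) = 2 * q x + 2 * q y) :
    ∃ B : LinearMap.BilinForm ℝ E, LinearMap.IsSymm B ∧ ∀ x, B x x = q x := by
  have h0 : q 0 = 0 := by
    have := hp 0 0
    simp only [add_zero, sub_zero] at this
    linarith
  have hneg : ∀ x, q (-x) = q x := fun x => by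
    have := hp 0 x
    simp only [zero_add, zero_sub, h0] at this
    linarith
  set b : E → E → ℝ := fun x y => (q (x + y) - q (x - y)) / 4 with hb
  have hsymm : ∀ x y, b x y = b y x := fun x y => by
    simp only [hb]
    rw [add_comm y x, ← hneg (y - x), neg_sub]
  have hadd : ∀ x z y, b (x + z) y = b x y + b z y := fun x z y => by
    simp only [hb]
    have h1 := hp (x + y) z
    have h2 := hp (x - y) z
    have h3 := hp (z + y) x
    have h4 := hp (z - y) x
    have h5 := hneg (x + y - z)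
    have h6 := hneg (x - y - z)
    rw [show x + y + z = x + z + y by abel] at h1
    rw [show x - y + z = x + z - y by abel] at h2
    rw [show z + y + x = x + z + y by abel] at h3
    rw [show z - y + x = x + z - y by abel] at h4
    rw [show -(x + y - z) = z - y - x by abel] at h5
    rw [show -(x - y - z) = z + y - x by abel] at h6
    linarith
  have hsmul : ∀ (c : ℝ) x y, b (c • x) y = c • b x y := fun c x y => by
    have hcont : Continuous fun x => b x y := by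
      simp only [hb]
      fun_prop
    exact map_real_smul (AddMonoidHom.mk' (fun x => b x y) fun x z => hadd x z y) hcont c x
  refine ⟨LinearMap.mk₂ ℝ b hadd hsmul (fun x y z => by rw [hsymm, hadd, hsymm y, hsymm z])
    (fun c x y => by rw [hsymm, hsmul, hsymm y]), ⟨fun x y => hsymm x y⟩, fun x => ?_⟩
  have := hp x x
  simp only [LinearMap.mk₂_apply, hb]
  linarith [sub_self x ▸ h0]

theorem exists_equiv_of_posdef [FiniteDimensional ℝ E] (B : LinearMap.BilinForm ℝ E)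
    (hs : LinearMap.IsSymm B) (hp : ∀ x, x ≠ 0 → 0 < B x x) : ∃ T : E ≃ₗ[ℝ] E, ∀ x, ‖T x‖ ^ 2 = B x x := by
  obtain ⟨v, hv⟩ := LinearMap.BilinForm.exists_orthogonal_basis hs
  set e := stdOrthonormalBasis ℝ E
  set T : E →ₗ[ℝ] E := v.constr ℝ fun i => √(B (v i) (v i)) • e i with hT
  have hB : (innerₗ E).compl₁₂ T T = B := by
    refine LinearMap.ext_basis v v fun i j => ?_
    simp only [LinearMap.compl₁₂_apply, hT, Basis.constr_basis, innerₗ_apply_apply,
      inner_smul_left, inner_smul_right, RCLike.conj_to_real]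
    by_cases hij : i = j
    · subst hij
      rw [real_inner_self_eq_norm_sq, e.orthonormal.1 i, one_pow, mul_one,
        Real.mul_self_sqrt (hp _ (v.ne_zero i)).le]
    · rw [e.orthonormal.2 hij, mul_zero, mul_zero]
      exact (hv hij).symm
  have hn : ∀ x, ‖T x‖ ^ 2 = B x x := fun x => by
    rw [← hB, ← real_inner_self_eq_norm_sq]
    rfl
  have hinj : Function.Injective T := by
    rw [injective_iff_map_eq_zero]
    intro x hx
    by_contra h0
    have := hp x h0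
    rw [← hn, hx] at this
    simp at this
  exact ⟨LinearEquiv.ofInjectiveEndo T hinj, hn⟩

end Pool.Agent.P.MP_376fb4_gt
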