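import Mathlib

/-!
Convex cells cut out by half planes through finitely many points of the complex plane.
-/

open Set Filter Topology Metric Function

noncomputable section

namespace Pool.Agent.P.MP_376fb4_gt

/-- The four directions obtained from `θ` by quarter turns. -/
def dir (θ : ℂ) (k : Fin 4) : ℂ := θ * Complex.I ^ (k : ℕ)

variable {ι : Type}

/-- The set of half planes (through the points `r j`) that contain `z`. -/
def typ (θ : ℂ) (r : ι → ℂ) (z : ℂ) : Set (ι × Fin 4) :=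
  {x | 0 < ((z - r x.1) * dir θ x.2).re}

/-- The intersection of the half planes listed in `t`. -/
def cell (θ : ℂ) (r : ι → ℂ) (t : Set (ι × Fin 4)) : Set ℂ := {z | t ⊆ typ θ r z}

/-- Every point has a half plane listed in `t`. -/
def Full (t : Set (ι × Fin 4)) : Prop := ∀ j, ∃ k, (j, k) ∈ t

theorem cell_eq (θ : ℂ) (r : ι → ℂ) (t : Set (ι × Fin 4)) :
    cell θ r t = ⋂ x ∈ t, {z : ℂ | 0 < ((z - r x.1) * dir θ x.2).re} := by
  ext z
  simp only [cell, typ, mem_ofPred_eq, mem_iInter]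
  exact Iff.rfl

theorem isOpen_cell [Finite ι] (θ : ℂ) (r : ι → ℂ) (t : Set (ι × Fin 4)) :
    IsOpen (cell θ r t) := by
  rw [cell_eq]
  refine (toFinite t).isOpen_biInter fun x _ => isOpen_lt continuous_const ?_
  fun_prop

theorem convex_half (a d : ℂ) : Convex ℝ {z : ℂ | 0 < ((z - a) * d).re} := by
  intro x hx y hy s t hs ht hst
  simp only [mem_ofPred_eq] at hx hy ⊢
  have : ((s • x + t • y - a) * d).re = s * ((x - a) * d).re + t * ((y - a) * d).re := by
    have h1 : s • x + t • y - a = (s : ℂ) * (x - a) + (t : ℂ) * (y - a) := by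
      have h2 : (s : ℂ) + t = 1 := by exact_mod_cast hst
      simp only [Complex.real_smul]
      linear_combination a * h2
    rw [h1, add_mul, mul_assoc, mul_assoc, Complex.add_re, Complex.re_ofReal_mul,
      Complex.re_ofReal_mul]
  rw [this]
  rcases hs.eq_or_lt with rfl | hs'
  · have : t = 1 := by linarith
    subst this
    simpa using hy
  · have := mul_pos hs' hx
    have := mul_nonneg ht hy.le
    linarith

theorem convex_cell (θ : ℂ) (r : ι → ℂ) (t : Set (ι × Fin 4)) : Convex ℝ (cell θ r t) := by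
  rw [cell_eq]
  exact convex_iInter₂ fun x _ => convex_half _ _

theorem Full.ne {θ : ℂ} {r : ι → ℂ} {t : Set (ι × Fin 4)} (ht : Full t) {z : ℂ}
    (hz : z ∈ cell θ r t) (j : ι) : z ≠ r j := by
  obtain ⟨k, hk⟩ := ht j
  have := hz hk
  simp only [typ, mem_ofPred_eq] at this
  intro h
  simp [h] at this

theorem dir_re (θ w : ℂ) :
    (w * dir θ 0).re = (w * θ).re ∧ (w * dir θ 1).re = -(w * θ).im ∧
      (w * dir θ 2).re = -(w * θ).re ∧ (w * dir θ 3).re = (w * θ).im := by
  have h3 : Complex.I ^ 3 = -Complex.I := by rw [pow_succ, Complex.I_sq]; ring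
  refine ⟨?_, ?_, ?_, ?_⟩
  · simp [dir]
  · simp only [dir, Fin.val_one, pow_one, ← mul_assoc, Complex.mul_I_re]
  · simp only [dir, Fin.val_two, Complex.I_sq, mul_neg, mul_one, Complex.neg_re]
  · have : ((3 : Fin 4) : ℕ) = 3 := rfl
    simp only [dir, this, h3, ← mul_assoc, mul_neg, Complex.neg_re, Complex.mul_I_re, neg_neg]

theorem exists_dir {θ w : ℂ} (hθ : θ ≠ 0) (hw : w ≠ 0) : ∃ k, 0 < (w * dir θ k).re := by
  obtain ⟨h0, h1, h2, h3⟩ := dir_re θ w
  by_contra hcon
  push Not at hcon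
  have a0 := hcon 0
  have a1 := hcon 1
  have a2 := hcon 2
  have a3 := hcon 3
  apply mul_ne_zero hw hθ
  apply Complex.ext
  · simp only [Complex.zero_re]; linarith
  · simp only [Complex.zero_im]; linarith

theorem full_typ {θ : ℂ} (hθ : θ ≠ 0) {r : ι → ℂ} {z : ℂ} (hz : ∀ j, z ≠ r j) :
    Full (typ θ r z) := fun j => exists_dir hθ (sub_ne_zero.2 (hz j))

theorem exists_generic [Finite ι] {r : ι → ℂ} (hr : Injective r) :
    ∃ θ : ℂ, θ ≠ 0 ∧ ∀ i j, i ≠ j → ∀ k, ((r i - r j) * dir θ k).re ≠ 0 := by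
  have hfin : ∀ d : ℂ, d ≠ 0 → {τ : ℝ | (d * (1 + τ * Complex.I)).re = 0}.Finite := by
    intro d hd
    apply Set.Subsingleton.finite
    intro a ha b hb
    simp only [mem_ofPred_eq, Complex.mul_re, Complex.add_re, Complex.one_re, Complex.ofReal_re,
      Complex.I_re, mul_zero, Complex.ofReal_im, Complex.I_im, mul_one, sub_self, add_zero,
      Complex.add_im, Complex.one_im, Complex.mul_im, zero_add] at ha hb
    by_cases him : d.im = 0
    · exfalso
      apply hd
      apply Complex.ext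
      · simpa [him] using ha
      · simpa using him
    · apply mul_left_cancel₀ him
      linarith
  have hfin2 : (⋃ x : {x : ι × ι // x.1 ≠ x.2} × Fin 4,
      {τ : ℝ | ((r x.1.1.1 - r x.1.1.2) * Complex.I ^ (x.2 : ℕ) *
        (1 + τ * Complex.I)).re = 0}).Finite := by
    refine finite_iUnion fun x => hfin _ (mul_ne_zero ?_ (pow_ne_zero _ Complex.I_ne_zero))
    exact sub_ne_zero.2 fun h => x.1.2 (hr h)
  obtain ⟨τ, hτ⟩ := hfin2.exists_notMem
  refine ⟨1 + τ * Complex.I, fun h => ?_, fun i j hij k h => hτ ?_⟩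
  · have := congrArg Complex.re h
    simp at this
  · refine mem_iUnion.2 ⟨(⟨(i, j), hij⟩, k), ?_⟩
    simp only [mem_ofPred_eq]
    rw [← h, dir]
    ring_nf

theorem exists_transfer [Finite ι] {θ : ℂ} (hθ : θ ≠ 0) {r r₀ : ι → ℂ}
    (h : ∀ i j k, 0 < ((r i - r j) * dir θ k).re → 0 < ((r₀ i - r₀ j) * dir θ k).re) (z : ℂ) :
    (cell θ r₀ (typ θ r z)).Nonempty := by
  classical
  have := Fintype.ofFinite ι
  obtain ⟨X, hX1, hX2⟩ := Order.exists_between_finsets
    ((Finset.univ.filter fun j => (j, (0 : Fin 4)) ∈ typ θ r z).image fun j => (r₀ j * θ).re)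
    ((Finset.univ.filter fun j => (j, (2 : Fin 4)) ∈ typ θ r z).image fun j => (r₀ j * θ).re) (by
      intro x hx y hy
      obtain ⟨i, hi, rfl⟩ := Finset.mem_image.1 hx
      obtain ⟨j, hj, rfl⟩ := Finset.mem_image.1 hy
      simp only [Finset.mem_filter, Finset.mem_univ, true_and, typ, mem_ofPred_eq] at hi hj
      rw [(dir_re θ _).1] at hi
      rw [(dir_re θ _).2.2.1] at hj
      have h1 := h j i 0 (by
        rw [(dir_re θ _).1]
        simp only [sub_mul, Complex.sub_re] at hi hj ⊢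
        linarith)
      rw [(dir_re θ _).1] at h1
      simp only [sub_mul, Complex.sub_re] at h1
      linarith)
  obtain ⟨Y, hY1, hY2⟩ := Order.exists_between_finsets
    ((Finset.univ.filter fun j => (j, (3 : Fin 4)) ∈ typ θ r z).image fun j => (r₀ j * θ).im)
    ((Finset.univ.filter fun j => (j, (1 : Fin 4)) ∈ typ θ r z).image fun j => (r₀ j * θ).im) (by
      intro x hx y hy
      obtain ⟨i, hi, rfl⟩ := Finset.mem_image.1 hx
      obtain ⟨j, hj, rfl⟩ := Finset.mem_image.1 hy
      simp only [Finset.mem_filter, Finset.mem_univ, true_and, typ, mem_ofPred_eq] at hi hj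
      rw [(dir_re θ _).2.2.2] at hi
      rw [(dir_re θ _).2.1] at hj
      have h1 := h j i 3 (by
        rw [(dir_re θ _).2.2.2]
        simp only [sub_mul, Complex.sub_im] at hi hj ⊢
        linarith)
      rw [(dir_re θ _).2.2.2] at h1
      simp only [sub_mul, Complex.sub_im] at h1
      linarith)
  have hz : ((X : ℂ) + Y * Complex.I) / θ * θ = X + Y * Complex.I := div_mul_cancel₀ _ hθ
  refine ⟨(X + Y * Complex.I) / θ, ?_⟩
  rintro ⟨j, k⟩ hjk
  simp only [typ, mem_ofPred_eq]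
  obtain ⟨h0, h1, h2, h3⟩ := dir_re θ ((X + Y * Complex.I) / θ - r₀ j)
  have hre : (((X + Y * Complex.I) / θ - r₀ j) * θ).re = X - (r₀ j * θ).re := by
    rw [sub_mul, hz]; simp
  have him : (((X + Y * Complex.I) / θ - r₀ j) * θ).im = Y - (r₀ j * θ).im := by
    rw [sub_mul, hz]; simp
  fin_cases k
  · have := hX1 _ (Finset.mem_image.2 ⟨j, Finset.mem_filter.2 ⟨Finset.mem_univ _, hjk⟩, rfl⟩)
    exact lt_of_lt_of_eq (by linarith) (h0.trans hre).symm
  · have := hY2 _ (Finset.mem_image.2 ⟨j, Finset.mem_filter.2 ⟨Finset.mem_univ _, hjk⟩, rfl⟩)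
    rw [him] at h1
    exact lt_of_lt_of_eq (by linarith) h1.symm
  · have := hX2 _ (Finset.mem_image.2 ⟨j, Finset.mem_filter.2 ⟨Finset.mem_univ _, hjk⟩, rfl⟩)
    rw [hre] at h2
    exact lt_of_lt_of_eq (by linarith) h2.symm
  · have := hY1 _ (Finset.mem_image.2 ⟨j, Finset.mem_filter.2 ⟨Finset.mem_univ _, hjk⟩, rfl⟩)
    exact lt_of_lt_of_eq (by linarith) (h3.trans him).symm

theorem eventually_mem_cell [Finite ι] {θ ζ₀ : ℂ} {r : ι → ℂ → ℂ}
    (hr : ∀ j, ContinuousAt (r j) ζ₀) {t : Set (ι × Fin 4)} {z : ℂ}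
    (hz : z ∈ cell θ (fun j => r j ζ₀) t) : ∀ᶠ ζ in 𝓝 ζ₀, z ∈ cell θ (fun j => r j ζ) t := by
  have : ∀ᶠ ζ in 𝓝 ζ₀, ∀ x : ι × Fin 4, x ∈ t → 0 < ((z - r x.1 ζ) * dir θ x.2).re := by
    simp only [eventually_all]
    intro x hx
    have hc : ContinuousAt (fun ζ => ((z - r x.1 ζ) * dir θ x.2).re) ζ₀ :=
      Complex.continuous_re.continuousAt.comp
        ((continuousAt_const.sub (hr x.1)).mul continuousAt_const)
    exact continuousAt_const.eventually_lt hc (hz hx)
  filter_upwards [this] with ζ hζ x hx using hζ x hx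

theorem eventually_order [Finite ι] {θ ζ₀ : ℂ} {r : ι → ℂ → ℂ}
    (hr : ∀ j, ContinuousAt (r j) ζ₀)
    (hg : ∀ i j, i ≠ j → ∀ k, ((r i ζ₀ - r j ζ₀) * dir θ k).re ≠ 0) :
    ∀ᶠ ζ in 𝓝 ζ₀, ∀ i j k,
      (0 < ((r i ζ - r j ζ) * dir θ k).re ↔ 0 < ((r i ζ₀ - r j ζ₀) * dir θ k).re) := by
  simp only [eventually_all]
  intro i j k
  by_cases hij : i = j
  · subst hij
    simp
  have hc : ContinuousAt (fun ζ => ((r i ζ - r j ζ) * dir θ k).re) ζ₀ :=
    Complex.continuous_re.continuousAt.comp (((hr i).sub (hr j)).mul continuousAt_const)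
  rcases (hg i j hij k).lt_or_gt with h | h
  · filter_upwards [hc.eventually_lt continuousAt_const h] with ζ hζ
    exact ⟨fun h' => absurd h' (not_lt.2 hζ.le), fun h' => absurd h' (not_lt.2 h.le)⟩
  · filter_upwards [continuousAt_const.eventually_lt hc h] with ζ hζ
    exact ⟨fun _ => h, fun _ => hζ⟩

/-- Points of a cell around `r j` can be pulled towards `r j`. -/
theorem exists_near_root {θ : ℂ} {r : ι → ℂ} {j : ι} {t : Set (ι × Fin 4)}
    (ht : ∀ x ∈ t, x ∈ typ θ r (r j) ∨ x.1 = j) {b : ℂ} (hb : b ∈ cell θ r t) {ρ : ℝ}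
    (hρ : 0 < ρ) : ∃ z ∈ cell θ r t, z ∈ ball (r j) ρ := by
  set s : ℝ := min 1 (ρ / (‖b - r j‖ + 1)) with hs
  have hpos : 0 < ‖b - r j‖ + 1 := by positivity
  have hs0 : 0 < s := lt_min one_pos (div_pos hρ hpos)
  have hs1 : s ≤ 1 := min_le_left _ _
  refine ⟨r j + s * (b - r j), fun x hx => ?_, ?_⟩
  · have h1 : 0 < ((b - r x.1) * dir θ x.2).re := hb hx
    have h2 : 0 ≤ ((r j - r x.1) * dir θ x.2).re := by
      rcases ht x hx with h | h
      · exact le_of_lt h
      · simp [h]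
    have h3 : ((r j + s * (b - r j) - r x.1) * dir θ x.2).re =
        s * ((b - r x.1) * dir θ x.2).re + (1 - s) * ((r j - r x.1) * dir θ x.2).re := by
      have : (r j + s * (b - r j) - r x.1) * dir θ x.2 =
          (s : ℂ) * ((b - r x.1) * dir θ x.2) +
            ((1 - s : ℝ) : ℂ) * ((r j - r x.1) * dir θ x.2) := by
        push_cast
        ring
      rw [this, Complex.add_re, Complex.re_ofReal_mul, Complex.re_ofReal_mul]
    show 0 < ((r j + s * (b - r j) - r x.1) * dir θ x.2).re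
    rw [h3]
    have := mul_pos hs0 h1
    have := mul_nonneg (sub_nonneg.2 hs1) h2
    linarith
  · rw [mem_ball, dist_eq_norm, add_sub_cancel_left, norm_mul, Complex.norm_real,
      Real.norm_eq_abs, abs_of_pos hs0]
    have h1 : s ≤ ρ / (‖b - r j‖ + 1) := min_le_right _ _
    rw [le_div_iff₀ hpos] at h1
    nlinarith

/-- Points reachable from `x₀` by guarded steps. -/
inductive Reach {A X : Type} (x₀ : X) (step : A → X → X) (ok : A → X → Prop) : X → Prop
  | base : Reach x₀ step ok x₀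
  | next (a : A) (x : X) : Reach x₀ step ok x → ok a x → Reach x₀ step ok (step a x)

theorem countable_reach {A X : Type} [Countable A] (x₀ : X) (step : A → X → X)
    (ok : A → X → Prop) : {x | Reach x₀ step ok x}.Countable := by
  refine (countable_range fun l : List A => l.foldr step x₀).mono ?_
  intro x hx
  induction hx with
  | base => exact ⟨[], rfl⟩
  | next a x _ _ ih =>
    obtain ⟨l, rfl⟩ := ih
    exact ⟨a :: l, rfl⟩

end Pool.Agent.P.MP_376fb4_gt
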