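import Pool.Agent.P.MP_376fb4_gt.HolInt
import Pool.Agent.P.MP_376fb4_gt.CellGeom

/-!
For a family of equations, regularity along a branch of roots holds on a whole disc of parameters
or only for countably many of them.
-/

open Set Filter Topology Polynomial Metric Function

noncomputable section

namespace Pool.Agent.P.MP_376fb4_gt

/-- The graph of `F` far away from the origin. -/
def farSeed (p : ℂ[X]) (R : ℝ) (F : ℂ → ℂ) : Set (ℂ × ℂ) :=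
  {x | R < ‖x.1‖ ∧ p.eval x.1 ≠ 0 ∧ x.2 = F x.1}

theorem countable_zero_of_ne {f : ℂ → ℂ} {c : ℂ} {ρ : ℝ} (hf : DifferentiableOn ℂ f (ball c ρ))
    (h : ¬ {ζ ∈ ball c ρ | f ζ = 0}.Countable) : ∀ ζ ∈ ball c ρ, f ζ = 0 := by
  have ha : AnalyticOnNhd ℂ f (ball c ρ) := hf.analyticOnNhd isOpen_ball
  by_contra hcon
  push Not at hcon
  obtain ⟨ζ₁, hζ₁, hne⟩ := hcon
  apply h
  have hdisc : ∀ ζ ∈ {ζ ∈ ball c ρ | f ζ = 0}, ∀ᶠ w in 𝓝[≠] ζ, f w ≠ 0 := by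
    intro ζ hζ
    by_contra hc
    rw [not_eventually] at hc
    simp only [not_not] at hc
    exact hne (ha.eqOn_zero_of_preconnected_of_frequently_eq_zero
      (convex_ball c ρ).isPreconnected hζ.1 hc hζ₁)
  have : IsDiscrete {ζ ∈ ball c ρ | f ζ = 0} := by
    rw [isDiscrete_iff_nhdsNE]
    intro ζ hζ
    rw [inf_principal_eq_bot]
    filter_upwards [hdisc ζ hζ] with w hw h using hw h.2
  exact (HereditarilyLindelofSpace.isLindelof _).countable_of_isDiscrete this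

section

variable {m : ℕ} {p : ℂ → ℂ[X]} {E : ℂ → ℂ → ℂ} {ι : Type} {r : ι → ℂ → ℂ}
  {θ ζ₀ : ℂ} {ρ : ℝ}

/-- `b` lies in the cell of type `t` for all parameters in the closed disc. -/
def Stable (θ : ℂ) (r : ι → ℂ → ℂ) (ζ₀ : ℂ) (ρ : ℝ) (b : ℂ) (t : Set (ι × Fin 4)) : Prop :=
  ∀ ζ ∈ closedBall ζ₀ ρ, b ∈ cell θ (fun j => r j ζ) t

/-- A family of solutions on the cells of type `t`, holomorphic in the parameter. -/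
def FamSol (m : ℕ) (p : ℂ → ℂ[X]) (E : ℂ → ℂ → ℂ) (θ : ℂ) (r : ι → ℂ → ℂ) (ζ₀ : ℂ) (ρ : ℝ)
    (t : Set (ι × Fin 4)) (Φ : ℂ → ℂ → ℂ) : Prop :=
  (∀ ζ ∈ closedBall ζ₀ ρ, IsSol m (p ζ) (E ζ) (cell θ (fun j => r j ζ) t) (Φ ζ)) ∧
    ∀ b, Stable θ r ζ₀ ρ b t → DifferentiableOn ℂ (fun ζ => Φ ζ b) (ball ζ₀ ρ)

theorem exists_famSol [Finite ι] (hm : m ≠ 0) (hN : NiceFam p E)
    (hroots : ∀ ζ ∈ closedBall ζ₀ ρ, ∀ z, (p ζ).eval z = 0 ↔ ∃ j, z = r j ζ)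
    {t : Set (ι × Fin 4)} (ht : Full t) {b₀ : ℂ} (hb₀ : Stable θ r ζ₀ ρ b₀ t) {κ : ℂ → ℂ}
    (hκ : DifferentiableOn ℂ κ (ball ζ₀ ρ)) :
    ∃ Φ, FamSol m p E θ r ζ₀ ρ t Φ ∧ ∀ ζ ∈ closedBall ζ₀ ρ, Φ ζ b₀ = κ ζ := by
  have hfree : ∀ ζ ∈ closedBall ζ₀ ρ, ∀ z ∈ cell θ (fun j => r j ζ) t, (p ζ).eval z ≠ 0 := by
    intro ζ hζ z hz h0
    obtain ⟨j, hj⟩ := (hroots ζ hζ z).1 h0
    exact ht.ne hz j hj
  have : ∀ ζ, ∃ Y : ℂ → ℂ, ζ ∈ closedBall ζ₀ ρ →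
      IsSol m (p ζ) (E ζ) (cell θ (fun j => r j ζ) t) Y ∧ Y b₀ = κ ζ := by
    intro ζ
    by_cases hζ : ζ ∈ closedBall ζ₀ ρ
    · obtain ⟨Y, hY⟩ := exists_sol hm (p ζ) (hN.Ez ζ) (convex_cell θ _ t) (isOpen_cell θ _ t)
        (hfree ζ hζ) (hb₀ ζ hζ) (κ ζ)
      exact ⟨Y, fun _ => hY⟩
    · exact ⟨0, fun h => absurd h hζ⟩
  choose Φ hΦ using this
  refine ⟨Φ, ⟨fun ζ hζ => (hΦ ζ hζ).1, fun b hb => ?_⟩, fun ζ hζ => (hΦ ζ hζ).2⟩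
  obtain ⟨α, γ, hα, hγ, htr⟩ := exists_transport hm hN (ζ₀ := ζ₀) (ρ := ρ) b₀ b (by
    intro ζ hζ s hs
    apply hfree ζ hζ
    have := (convex_cell θ (fun j => r j ζ) t).add_smul_sub_mem (hb₀ ζ hζ) (hb ζ hζ) hs
    simpa using this)
  refine ((hα.mul hκ).add hγ).congr fun ζ hζ => ?_
  have hζ' := ball_subset_closedBall hζ
  rw [htr ζ _ _ (isOpen_cell θ _ t) (convex_cell θ _ t) (hb₀ ζ hζ') (hb ζ hζ') (hΦ ζ hζ').1,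
    (hΦ ζ hζ').2]
  rfl

theorem dichotomy_aux [Finite ι] (hm : m ≠ 0) (hN : NiceFam p E) (hθ : θ ≠ 0)
    (hinj : ∀ ζ ∈ closedBall ζ₀ ρ, Injective fun j => r j ζ)
    (hroots : ∀ ζ ∈ closedBall ζ₀ ρ, ∀ z, (p ζ).eval z = 0 ↔ ∃ j, z = r j ζ)
    (hord : ∀ ζ ∈ closedBall ζ₀ ρ, ∀ i j k,
      (0 < ((r i ζ - r j ζ) * dir θ k).re ↔ 0 < ((r i ζ₀ - r j ζ₀) * dir θ k).re))
    (base : Set (ι × Fin 4) → ℂ)
    (hbase : ∀ t, (cell θ (fun j => r j ζ₀) t).Nonempty → Stable θ r ζ₀ ρ (base t) t)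
    (seed : ℂ → Set (ℂ × ℂ)) {t₀ : Set (ι × Fin 4)} (ht₀ : Full t₀) {b₀ : ℂ}
    (hb₀ : Stable θ r ζ₀ ρ b₀ t₀) {κ₀ : ℂ → ℂ} (hκ₀ : DifferentiableOn ℂ κ₀ (ball ζ₀ ρ))
    (hseed1 : ∀ ζ ∈ closedBall ζ₀ ρ, (b₀, κ₀ ζ) ∈ seed ζ)
    (hseed2 : ∀ ζ ∈ closedBall ζ₀ ρ, ∀ Q, StepClosed m (p ζ) (E ζ) Q → (b₀, κ₀ ζ) ∈ Q →
      seed ζ ⊆ Q) (j : ι) :
    (∀ ζ ∈ ball ζ₀ ρ, Reg m (p ζ) (E ζ) (seed ζ) (r j ζ)) ∨
      {ζ ∈ ball ζ₀ ρ | Reg m (p ζ) (E ζ) (seed ζ) (r j ζ)}.Countable := by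
  classical
  -- the extension operator
  have hext : ∀ (t : Set (ι × Fin 4)) (b : ℂ) (κ : ℂ → ℂ), ∃ Φ : ℂ → ℂ → ℂ,
      Full t → Stable θ r ζ₀ ρ b t → DifferentiableOn ℂ κ (ball ζ₀ ρ) →
        FamSol m p E θ r ζ₀ ρ t Φ ∧ ∀ ζ ∈ closedBall ζ₀ ρ, Φ ζ b = κ ζ := by
    intro t b κ
    by_cases h : Full t ∧ Stable θ r ζ₀ ρ b t ∧ DifferentiableOn ℂ κ (ball ζ₀ ρ)
    · obtain ⟨Φ, hΦ⟩ := exists_famSol hm hN hroots h.1 h.2.1 h.2.2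
      exact ⟨Φ, fun _ _ _ => hΦ⟩
    · exact ⟨0, fun h1 h2 h3 => absurd ⟨h1, h2, h3⟩ h⟩
  choose ext hext using hext
  let step : Set (ι × Fin 4) × Set (ι × Fin 4) → Set (ι × Fin 4) × (ℂ → ℂ → ℂ) →
      Set (ι × Fin 4) × (ℂ → ℂ → ℂ) :=
    fun a x => (a.1, ext a.1 (base a.2) fun ζ => x.2 ζ (base a.2))
  let ok : Set (ι × Fin 4) × Set (ι × Fin 4) → Set (ι × Fin 4) × (ℂ → ℂ → ℂ) → Prop :=
    fun a x => Full a.1 ∧ Stable θ r ζ₀ ρ (base a.2) a.1 ∧ Stable θ r ζ₀ ρ (base a.2) x.1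
  let G : Set (Set (ι × Fin 4) × (ℂ → ℂ → ℂ)) := {x | Reach (t₀, ext t₀ b₀ κ₀) step ok x}
  have hGc : G.Countable := countable_reach _ _ _
  have hG : ∀ x ∈ G, FamSol m p E θ r ζ₀ ρ x.1 x.2 ∧ ∀ ζ ∈ closedBall ζ₀ ρ,
      ∀ z ∈ cell θ (fun j => r j ζ) x.1, (z, x.2 ζ z) ∈ Leaf m (p ζ) (E ζ) (seed ζ) := by
    intro x hx
    induction hx with
    | base =>
      obtain ⟨h1, h2⟩ := hext t₀ b₀ κ₀ ht₀ hb₀ hκ₀
      refine ⟨h1, fun ζ hζ z hz => ?_⟩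
      refine leaf_stepClosed _ _ (isOpen_cell θ _ t₀) (convex_cell θ _ t₀).isPreconnected
        (h1.1 ζ hζ) b₀ (hb₀ ζ hζ) z hz ?_
      rw [h2 ζ hζ]
      exact seed_subset_leaf (hseed1 ζ hζ)
    | next a x _ hok ih =>
      obtain ⟨h1, h2⟩ := hext a.1 (base a.2) (fun ζ => x.2 ζ (base a.2)) hok.1 hok.2.1
        (ih.1.2 _ hok.2.2)
      refine ⟨h1, fun ζ hζ z hz => ?_⟩
      refine leaf_stepClosed _ _ (isOpen_cell θ _ a.1) (convex_cell θ _ a.1).isPreconnected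
        (h1.1 ζ hζ) _ (hok.2.1 ζ hζ) z hz ?_
      rw [h2 ζ hζ]
      exact ih.2 ζ hζ _ (hok.2.2 ζ hζ)
  -- stable base point attached to any point
  have hbp : ∀ ζ ∈ closedBall ζ₀ ρ, ∀ z, ∀ t, z ∈ cell θ (fun j => r j ζ) t →
      Stable θ r ζ₀ ρ (base (typ θ (fun j => r j ζ) z)) t := by
    intro ζ hζ z t hz ζ' hζ'
    have := hbase _ (exists_transfer hθ (r := fun j => r j ζ) (r₀ := fun j => r j ζ₀)
      (fun i j k h => (hord ζ hζ i j k).1 h) z) ζ' hζ'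
    exact Subset.trans hz this
  -- change of cell
  have hchange : ∀ ζ ∈ closedBall ζ₀ ρ, ∀ x ∈ G, ∀ z ∈ cell θ (fun j => r j ζ) x.1,
      ∀ t, Full t → z ∈ cell θ (fun j => r j ζ) t → ∃ Φ, (t, Φ) ∈ G ∧ Φ ζ z = x.2 ζ z := by
    intro ζ hζ x hx z hz t ht hzt
    have s1 := hbp ζ hζ z t hzt
    have s2 := hbp ζ hζ z x.1 hz
    have hmem : step (t, typ θ (fun j => r j ζ) z) x ∈ G := Reach.next _ _ hx ⟨ht, s1, s2⟩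
    refine ⟨_, hmem, ?_⟩
    obtain ⟨h1, h2⟩ := hext t _ (fun ζ' => x.2 ζ' (base (typ θ (fun j => r j ζ) z))) ht s1
      ((hG x hx).1.2 _ s2)
    exact IsSol.unique hm ((isOpen_cell θ _ t).inter (isOpen_cell θ _ x.1))
      ((convex_cell θ _ t).inter (convex_cell θ _ x.1)) ((h1.1 ζ hζ).mono inter_subset_left)
      (((hG x hx).1.1 ζ hζ).mono inter_subset_right) ⟨s1 ζ hζ, s2 ζ hζ⟩ (h2 ζ hζ) ⟨hzt, hz⟩
  -- the leaf is contained in the model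
  have hleaf : ∀ ζ ∈ closedBall ζ₀ ρ, Leaf m (p ζ) (E ζ) (seed ζ) ⊆
      {x | ∃ g ∈ G, x.1 ∈ cell θ (fun j => r j ζ) g.1 ∧ x.2 = g.2 ζ x.1} := by
    intro ζ hζ
    have hcl : StepClosed m (p ζ) (E ζ)
        {x | ∃ g ∈ G, x.1 ∈ cell θ (fun j => r j ζ) g.1 ∧ x.2 = g.2 ζ x.1} := by
      apply stepClosed_of_local
      intro z₀ δ Y hδ hY
      have hfull : Full (typ θ (fun j => r j ζ) z₀) := full_typ hθ fun j hj =>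
        (hY z₀ (mem_ball_self hδ)).1 ((hroots ζ hζ z₀).2 ⟨j, hj⟩)
      set V := cell θ (fun j => r j ζ) (typ θ (fun j => r j ζ) z₀) ∩ ball z₀ δ with hV
      have hVo : IsOpen V := (isOpen_cell θ _ _).inter isOpen_ball
      have hVc : Convex ℝ V := (convex_cell θ _ _).inter (convex_ball _ _)
      have hz₀V : z₀ ∈ V := ⟨Subset.rfl, mem_ball_self hδ⟩
      have key : ∀ z ∈ V, ∀ z' ∈ V,
          (z, Y z) ∈ {x : ℂ × ℂ | ∃ g ∈ G, x.1 ∈ cell θ (fun j => r j ζ) g.1 ∧ x.2 = g.2 ζ x.1} →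
          (z', Y z') ∈
            {x : ℂ × ℂ | ∃ g ∈ G, x.1 ∈ cell θ (fun j => r j ζ) g.1 ∧ x.2 = g.2 ζ x.1} := by
        rintro z hz z' hz' ⟨g, hg, h1, h2⟩
        obtain ⟨Φ, hΦ, hΦz⟩ := hchange ζ hζ g hg z h1 _ hfull hz.1
        refine ⟨_, hΦ, hz'.1, ?_⟩
        exact IsSol.unique hm hVo hVc (hY.mono inter_subset_right)
          (((hG _ hΦ).1.1 ζ hζ).mono inter_subset_left) hz (h2.trans hΦz.symm) hz'
      filter_upwards [hVo.mem_nhds hz₀V] with z hz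
      exact ⟨key z hz z₀ hz₀V, key z₀ hz₀V z hz⟩
    refine leaf_subset (hseed2 ζ hζ _ hcl ?_) hcl
    exact ⟨_, Reach.base, hb₀ ζ hζ, ((hext t₀ b₀ κ₀ ht₀ hb₀ hκ₀).2 ζ hζ).symm⟩
  -- the four cells around the root
  let ts : Set (ι × Fin 4) := typ θ (fun i => r i ζ₀) (r j ζ₀)
  have hts : ∀ ζ ∈ closedBall ζ₀ ρ, typ θ (fun i => r i ζ) (r j ζ) = ts := by
    intro ζ hζ
    ext x
    exact hord ζ hζ j x.1 x.2
  let tk : Fin 4 → Set (ι × Fin 4) := fun k => insert (j, k) ts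
  have htk_full : ∀ ζ ∈ closedBall ζ₀ ρ, ∀ k, Full (tk k) := by
    intro ζ hζ k i
    by_cases hij : i = j
    · exact ⟨k, by simp [tk, hij]⟩
    · obtain ⟨l, hl⟩ := exists_dir hθ (w := r j ζ - r i ζ)
        (sub_ne_zero.2 fun h => hij (hinj ζ hζ h).symm)
      refine ⟨l, mem_insert_of_mem _ ?_⟩
      rw [← hts ζ hζ]
      exact hl
  have hnear : ∀ ζ ∈ closedBall ζ₀ ρ, ∀ k l, ∀ x ∈ tk k ∪ tk l,
      x ∈ typ θ (fun i => r i ζ) (r j ζ) ∨ x.1 = j := by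
    intro ζ hζ k l x hx
    rw [hts ζ hζ]
    rcases hx with (rfl | h) | (rfl | h)
    · exact Or.inr rfl
    · exact Or.inl h
    · exact Or.inr rfl
    · exact Or.inl h
  have hcell_union : ∀ (s : ι → ℂ) (t t' : Set (ι × Fin 4)) (z : ℂ),
      z ∈ cell θ s (t ∪ t') ↔ z ∈ cell θ s t ∧ z ∈ cell θ s t' := fun s t t' z =>
    union_subset_iff
  -- compatibility condition
  let Compat : (Fin 4 → ℂ → ℂ → ℂ) → ℂ → Prop := fun Φ ζ =>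
    ∀ k l t, Stable θ r ζ₀ ρ (base t) (tk k) → Stable θ r ζ₀ ρ (base t) (tk l) →
      Φ k ζ (base t) - Φ l ζ (base t) = 0
  have hcover : ∀ ζ ∈ closedBall ζ₀ ρ, ∃ δ > 0, ∀ z ∈ ball (r j ζ) δ \ {r j ζ},
      ∃ k, z ∈ cell θ (fun i => r i ζ) (tk k) := by
    intro ζ hζ
    have h1 : r j ζ ∈ cell θ (fun i => r i ζ) ts := (hts ζ hζ).ge
    obtain ⟨δ, hδ, hball⟩ := Metric.isOpen_iff.1 (isOpen_cell θ _ ts) _ h1
    refine ⟨δ, hδ, fun z hz => ?_⟩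
    obtain ⟨k, hk⟩ := exists_dir hθ (w := z - r j ζ) (sub_ne_zero.2 hz.2)
    exact ⟨k, insert_subset hk (hball hz.1)⟩
  have hA : ∀ ζ ∈ closedBall ζ₀ ρ, ∀ Φ : Fin 4 → ℂ → ℂ → ℂ, (∀ k, (tk k, Φ k) ∈ G) →
      Compat Φ ζ → Reg m (p ζ) (E ζ) (seed ζ) (r j ζ) := by
    intro ζ hζ Φ hΦ hc
    obtain ⟨δ, hδ, hcov⟩ := hcover ζ hζ
    have hagree : ∀ k l z, z ∈ cell θ (fun i => r i ζ) (tk k) →
        z ∈ cell θ (fun i => r i ζ) (tk l) → Φ k ζ z = Φ l ζ z := by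
      intro k l z h1 h2
      have s1 := hbp ζ hζ z _ h1
      have s2 := hbp ζ hζ z _ h2
      exact IsSol.unique hm ((isOpen_cell θ _ (tk k)).inter (isOpen_cell θ _ (tk l)))
        ((convex_cell θ _ _).inter (convex_cell θ _ _))
        (((hG _ (hΦ k)).1.1 ζ hζ).mono inter_subset_left)
        (((hG _ (hΦ l)).1.1 ζ hζ).mono inter_subset_right) ⟨s1 ζ hζ, s2 ζ hζ⟩
        (sub_eq_zero.1 (hc k l _ s1 s2)) ⟨h1, h2⟩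
    let Y : ℂ → ℂ := fun z =>
      if h : ∃ k, z ∈ cell θ (fun i => r i ζ) (tk k) then Φ h.choose ζ z else 0
    have hY : ∀ k z, z ∈ cell θ (fun i => r i ζ) (tk k) → Y z = Φ k ζ z := by
      intro k z hz
      have h : ∃ k, z ∈ cell θ (fun i => r i ζ) (tk k) := ⟨k, hz⟩
      simp only [Y, dif_pos h]
      exact hagree _ _ z h.choose_spec hz
    refine ⟨δ, hδ, Y, fun z hz => ?_, fun z hz => ?_⟩
    · obtain ⟨k, hk⟩ := hcov z hz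
      obtain ⟨h1, h2⟩ := (hG _ (hΦ k)).1.1 ζ hζ z hk
      refine ⟨h1, ?_⟩
      rw [hY k z hk]
      refine h2.congr_of_eventuallyEq ?_
      filter_upwards [(isOpen_cell θ _ (tk k)).mem_nhds hk] with w hw using hY k w hw
    · obtain ⟨k, hk⟩ := hcov z hz
      rw [hY k z hk]
      exact (hG _ (hΦ k)).2 ζ hζ z hk
  have hB : ∀ ζ ∈ closedBall ζ₀ ρ, Reg m (p ζ) (E ζ) (seed ζ) (r j ζ) →
      ∃ Φ : Fin 4 → ℂ → ℂ → ℂ, (∀ k, (tk k, Φ k) ∈ G) ∧ Compat Φ ζ := by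
    rintro ζ hζ ⟨δ, hδ, Y, hY, hYl⟩
    have hsub : ∀ k, cell θ (fun i => r i ζ) (tk k) ∩ ball (r j ζ) δ ⊆
        ball (r j ζ) δ \ {r j ζ} := fun k z hz => ⟨hz.2, (htk_full ζ hζ k).ne hz.1 j⟩
    have : ∀ k, ∃ Φ : ℂ → ℂ → ℂ, (tk k, Φ) ∈ G ∧
        ∀ z ∈ cell θ (fun i => r i ζ) (tk k) ∩ ball (r j ζ) δ, Φ ζ z = Y z := by
      intro k
      have hne : (cell θ (fun i => r i ζ) (tk k) ∩ ball (r j ζ) δ).Nonempty := by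
        have h1 : r j ζ ∈ cell θ (fun i => r i ζ) ts ∩ ball (r j ζ) δ :=
          ⟨(hts ζ hζ).ge, mem_ball_self hδ⟩
        have hd : dir θ k ≠ 0 := mul_ne_zero hθ (pow_ne_zero _ Complex.I_ne_zero)
        have hc : ContinuousAt (fun s : ℝ => r j ζ + s * (dir θ k)⁻¹) 0 := by fun_prop
        have h2 : ∀ᶠ s : ℝ in 𝓝[>] 0,
            r j ζ + s * (dir θ k)⁻¹ ∈ cell θ (fun i => r i ζ) ts ∩ ball (r j ζ) δ := by
          apply mem_nhdsWithin_of_mem_nhds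
          apply hc.eventually_mem
          simpa using ((isOpen_cell θ _ ts).inter isOpen_ball).mem_nhds h1
        obtain ⟨s, hs1, hs2⟩ := (h2.and self_mem_nhdsWithin).exists
        refine ⟨_, insert_subset ?_ hs1.1, hs1.2⟩
        show 0 < ((r j ζ + s * (dir θ k)⁻¹ - r j ζ) * dir θ k).re
        rw [add_sub_cancel_left, mul_assoc, inv_mul_cancel₀ hd, mul_one, Complex.ofReal_re]
        exact hs2
      obtain ⟨z, hz⟩ := hne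
      obtain ⟨g, hg, h1, h2⟩ := hleaf ζ hζ (hYl z (hsub k hz))
      obtain ⟨Φ, hΦ, hΦz⟩ := hchange ζ hζ g hg z h1 _ (htk_full ζ hζ k) hz.1
      refine ⟨Φ, hΦ, fun z' hz' => ?_⟩
      exact IsSol.unique hm ((isOpen_cell θ _ _).inter isOpen_ball)
        ((convex_cell θ _ _).inter (convex_ball _ _))
        (((hG _ hΦ).1.1 ζ hζ).mono inter_subset_left) (hY.mono (hsub k)) hz
        (hΦz.trans h2.symm) hz'
    choose Φ hΦ hΦY using this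
    refine ⟨Φ, hΦ, fun k l t s1 s2 => ?_⟩
    obtain ⟨z, hz1, hz2⟩ := exists_near_root (θ := θ) (r := fun i => r i ζ) (j := j)
      (hnear ζ hζ k l) ((hcell_union _ _ _ _).2 ⟨s1 ζ hζ, s2 ζ hζ⟩) hδ
    rw [hcell_union] at hz1
    rw [sub_eq_zero]
    exact IsSol.unique hm ((isOpen_cell θ _ (tk k)).inter (isOpen_cell θ _ (tk l)))
      ((convex_cell θ _ _).inter (convex_cell θ _ _))
      (((hG _ (hΦ k)).1.1 ζ hζ).mono inter_subset_left)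
      (((hG _ (hΦ l)).1.1 ζ hζ).mono inter_subset_right) hz1
      ((hΦY k z ⟨hz1.1, hz2⟩).trans (hΦY l z ⟨hz1.2, hz2⟩).symm) ⟨s1 ζ hζ, s2 ζ hζ⟩
  -- conclusion
  by_cases hcount : {ζ ∈ ball ζ₀ ρ | Reg m (p ζ) (E ζ) (seed ζ) (r j ζ)}.Countable
  · exact Or.inr hcount
  left
  have hSc : {Φ : Fin 4 → ℂ → ℂ → ℂ | ∀ k, (tk k, Φ k) ∈ G}.Countable := by
    have : ∀ k, {Φ : ℂ → ℂ → ℂ | (tk k, Φ) ∈ G}.Countable := fun k =>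
      (hGc.image Prod.snd).mono fun Φ hΦ => mem_image_of_mem Prod.snd hΦ
    exact countable_pi this
  have : ∃ Φ ∈ {Φ : Fin 4 → ℂ → ℂ → ℂ | ∀ k, (tk k, Φ k) ∈ G},
      ¬ {ζ ∈ ball ζ₀ ρ | Compat Φ ζ}.Countable := by
    by_contra hcon
    push Not at hcon
    refine hcount ((hSc.biUnion hcon).mono fun ζ hζ => ?_)
    obtain ⟨Φ, h1, h2⟩ := hB ζ (ball_subset_closedBall hζ.1) hζ.2
    exact mem_biUnion h1 ⟨hζ.1, h2⟩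
  obtain ⟨Φ, hΦ, hunc⟩ := this
  intro ζ hζ
  refine hA ζ (ball_subset_closedBall hζ) Φ hΦ fun k l t s1 s2 => ?_
  refine countable_zero_of_ne (((hG _ (hΦ k)).1.2 _ s1).sub ((hG _ (hΦ l)).1.2 _ s2)) ?_ ζ hζ
  refine fun h => hunc (h.mono ?_)
  exact fun ζ' hζ' => ⟨hζ'.1, hζ'.2 k l t s1 s2⟩

end

theorem dichotomy {m : ℕ} (hm : m ≠ 0) {p : ℂ → ℂ[X]} {E : ℂ → ℂ → ℂ} (hN : NiceFam p E)
    {ι : Type} [Finite ι] {r : ι → ℂ → ℂ} {ζ₀ : ℂ} {ρ : ℝ} (hρ : 0 < ρ)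
    (hrc : ∀ j, ContinuousAt (r j) ζ₀)
    (hinj : ∀ ζ ∈ ball ζ₀ ρ, Injective fun j => r j ζ)
    (hroots : ∀ ζ ∈ ball ζ₀ ρ, ∀ z, (p ζ).eval z = 0 ↔ ∃ j, z = r j ζ)
    {R : ℂ → ℝ} (hR : Continuous R) (hR0 : ∀ ζ, 0 ≤ R ζ) {F : ℂ → ℂ → ℂ}
    (hF : ∀ ζ, IsSol m (p ζ) (E ζ) {z | R ζ < ‖z‖ ∧ (p ζ).eval z ≠ 0} (F ζ))
    (hFd : ∀ b ζ, R ζ < ‖b‖ → DifferentiableAt ℂ (fun ζ => F ζ b) ζ) :
    ∃ ρ' > 0, ρ' ≤ ρ ∧ ∀ j,
      (∀ ζ ∈ ball ζ₀ ρ', Reg m (p ζ) (E ζ) (farSeed (p ζ) (R ζ) (F ζ)) (r j ζ)) ∨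
        {ζ ∈ ball ζ₀ ρ' | Reg m (p ζ) (E ζ) (farSeed (p ζ) (R ζ) (F ζ)) (r j ζ)}.Countable := by
  classical
  obtain ⟨θ, hθ, hgen⟩ := exists_generic (hinj ζ₀ (mem_ball_self hρ))
  have hb : ∀ t : Set (ι × Fin 4), ∃ b : ℂ,
      (cell θ (fun j => r j ζ₀) t).Nonempty → b ∈ cell θ (fun j => r j ζ₀) t := by
    intro t
    by_cases h : (cell θ (fun j => r j ζ₀) t).Nonempty
    · exact ⟨h.some, fun _ => h.some_mem⟩
    · exact ⟨0, fun h' => absurd h' h⟩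
  choose base hbase using hb
  obtain ⟨b₀, hb1, hb2⟩ : ∃ b₀ : ℂ, R ζ₀ < ‖b₀‖ ∧ ∀ j, b₀ ≠ r j ζ₀ := by
    have h1 : {z : ℂ | R ζ₀ < ‖z‖}.Infinite := by
      refine infinite_of_injective_forall_mem (f := fun n : ℕ => ((R ζ₀ + 1 + n : ℝ) : ℂ)) ?_ ?_
      · intro a b hab
        have := Complex.ofReal_injective hab
        exact_mod_cast (add_left_cancel this : (a : ℝ) = b)
      · intro n
        have := hR0 ζ₀
        have h2 : (0 : ℝ) ≤ n := n.cast_nonneg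
        simp only [mem_ofPred_eq, Complex.norm_real, Real.norm_eq_abs]
        rw [abs_of_nonneg (by linarith)]
        linarith
    obtain ⟨b, hb1, hb2⟩ := h1.exists_notMem_finite (finite_range fun j => r j ζ₀)
    exact ⟨b, hb1, fun j h => hb2 ⟨j, h.symm⟩⟩
  have e1 := eventually_order hrc hgen
  have e2 : ∀ᶠ ζ in 𝓝 ζ₀, ∀ t, (cell θ (fun j => r j ζ₀) t).Nonempty →
      base t ∈ cell θ (fun j => r j ζ) t := by
    simp only [eventually_all]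
    exact fun t ht => eventually_mem_cell hrc (hbase t ht)
  have e3 : ∀ᶠ ζ in 𝓝 ζ₀, b₀ ∈ cell θ (fun j => r j ζ) (typ θ (fun j => r j ζ₀) b₀) :=
    eventually_mem_cell hrc Subset.rfl
  have e4 : ∀ᶠ ζ in 𝓝 ζ₀, R ζ < ‖b₀‖ := hR.continuousAt.eventually_lt continuousAt_const hb1
  have e5 : ∀ᶠ ζ in 𝓝 ζ₀, ζ ∈ ball ζ₀ ρ := ball_mem_nhds _ hρ
  obtain ⟨ρ₁, hρ₁, hall⟩ := Metric.eventually_nhds_iff_ball.1
    (e1.and (e2.and (e3.and (e4.and e5))))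
  have hsub : closedBall ζ₀ (min (ρ₁ / 2) ρ) ⊆ ball ζ₀ ρ₁ :=
    closedBall_subset_ball ((min_le_left _ _).trans_lt (by linarith))
  have hfull : Full (typ θ (fun j => r j ζ₀) b₀) := full_typ hθ hb2
  have hb₀ne : ∀ ζ ∈ ball ζ₀ ρ₁, (p ζ).eval b₀ ≠ 0 := by
    intro ζ hζ h0
    obtain ⟨j, hj⟩ := (hroots ζ (hall ζ hζ).2.2.2.2 b₀).1 h0
    exact hfull.ne (hall ζ hζ).2.2.1 j hj
  refine ⟨min (ρ₁ / 2) ρ, lt_min (by linarith) hρ, min_le_right _ _, fun j => ?_⟩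
  refine dichotomy_aux hm hN hθ (fun ζ hζ => hinj ζ (hall ζ (hsub hζ)).2.2.2.2)
    (fun ζ hζ => hroots ζ (hall ζ (hsub hζ)).2.2.2.2) (fun ζ hζ => (hall ζ (hsub hζ)).1) base
    (fun t ht ζ hζ => (hall ζ (hsub hζ)).2.1 t ht)
    (fun ζ => farSeed (p ζ) (R ζ) (F ζ)) hfull
    (fun ζ hζ => (hall ζ (hsub hζ)).2.2.1) (κ₀ := fun ζ => F ζ b₀)
    (fun ζ hζ => (hFd b₀ ζ
      (hall ζ (hsub (ball_subset_closedBall hζ))).2.2.2.1).differentiableWithinAt)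
    (fun ζ hζ => ⟨(hall ζ (hsub hζ)).2.2.2.1, hb₀ne ζ (hsub hζ), rfl⟩) ?_ j
  rintro ζ hζ Q hQ hbQ ⟨z, y⟩ ⟨h1, h2, h3⟩
  simp only at h1 h2 h3
  subst h3
  have hfin : {z | (p ζ).eval z = 0}.Finite :=
    (finite_range fun j => r j ζ).subset fun z hz => by
      obtain ⟨j, hj⟩ := (hroots ζ (hall ζ (hsub hζ)).2.2.2.2 z).1 hz
      exact mem_range.2 ⟨j, hj.symm⟩
  have ho : IsOpen {z : ℂ | R ζ < ‖z‖} := isOpen_lt continuous_const continuous_norm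
  have h4 : IsSol m (p ζ) (E ζ) ({z : ℂ | R ζ < ‖z‖} \ {z | (p ζ).eval z = 0}) (F ζ) := hF ζ
  exact hQ _ _ (ho.sdiff hfin.isClosed)
    (isPreconnected_diff_finite ho (isPreconnected_far (hR0 ζ)) hfin) h4 b₀
    ⟨(hall ζ (hsub hζ)).2.2.2.1, hb₀ne ζ (hsub hζ)⟩ z ⟨h1, h2⟩ hbQ

end Pool.Agent.P.MP_376fb4_gt
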