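import Pool.Agent.P.MP_376fb4_gt.HolInt
import Pool.Agent.P.MP_376fb4_gt.Cells

/-!
The Cauchy transform of the image of a finite measure under a bounded complex function, and the
differential equation that follows from the moment recurrence.
-/

open Set Filter Topology Polynomial Metric MeasureTheory Function

noncomputable section

namespace Pool.Agent.P.MP_376fb4_gt

variable {X : Type*} [MeasurableSpace X] {μ : Measure X}

/-- Moments. -/
def mom (μ : Measure X) (w : X → ℂ) (k : ℕ) : ℂ := ∫ x, w x ^ k ∂μ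

/-- Cauchy transform. -/
def cauchy (μ : Measure X) (w : X → ℂ) (z : ℂ) : ℂ := ∫ x, (z - w x)⁻¹ ∂μ

/-- The moment recurrence. -/
def Sol (m : ℕ) (μ : Measure X) (w : X → ℂ) (q : ℂ[X]) : Prop :=
  ∀ j : ℕ, ∫ x, ((m + 1) * q.derivative.eval (w x) * w x ^ j +
    m * q.eval (w x) * (j * w x ^ (j - 1))) ∂μ = 0

/-- The right hand side of the differential equation. -/
def Efun (m N : ℕ) (c M : ℕ → ℂ) (z : ℂ) : ℂ :=
  -∑ i ∈ Finset.range (N + 1), c i *
    ∑ b ∈ Finset.range (i - 1), ((m * (b + 1) + i) * z ^ (i - 1 - 1 - b)) * M b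

/-- `z` is at positive distance from the essential range of `w`. -/
def Away (μ : Measure X) (w : X → ℂ) (z : ℂ) : Prop := ∃ δ > 0, ∀ᵐ x ∂μ, δ ≤ ‖z - w x‖

theorem integrable_comp [IsFiniteMeasure μ] {w : X → ℂ} (hw : AEStronglyMeasurable w μ) {R : ℝ}
    (hR : ∀ᵐ x ∂μ, ‖w x‖ ≤ R) {f : ℂ → ℂ} (hf : Continuous f) :
    Integrable (fun x => f (w x)) μ := by
  obtain ⟨C, hC⟩ := (isCompact_closedBall (0 : ℂ) R).exists_bound_of_continuousOn hf.continuousOn
  refine (integrable_const C).mono' (hf.comp_aestronglyMeasurable hw) ?_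
  filter_upwards [hR] with x hx using hC _ (by simpa using hx)

theorem sol_integral_eq [IsFiniteMeasure μ] {w : X → ℂ} (hw : AEStronglyMeasurable w μ) {R : ℝ}
    (hR : ∀ᵐ x ∂μ, ‖w x‖ ≤ R) (m : ℕ) {N : ℕ} {q : ℂ[X]} (hq : q.natDegree ≤ N) (j : ℕ) :
    ∫ x, ((m + 1) * q.derivative.eval (w x) * w x ^ j +
      m * q.eval (w x) * (j * w x ^ (j - 1))) ∂μ =
      ∑ i ∈ Finset.range (N + 1), q.coeff i * (((m + 1) * i + m * j) * mom μ w (i + j - 1)) := by
  have hpt : ∀ u : ℂ, (m + 1) * q.derivative.eval u * u ^ j + m * q.eval u * (j * u ^ (j - 1)) =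
      ∑ i ∈ Finset.range (N + 1), q.coeff i * (((m + 1) * i + m * j) * u ^ (i + j - 1)) := by
    intro u
    conv_lhs => rw [q.as_sum_range_C_mul_X_pow' (Nat.lt_succ_of_le hq)]
    simp only [derivative_sum, derivative_C_mul_X_pow, eval_finset_sum, eval_mul, eval_C,
      eval_pow, eval_X, Finset.mul_sum, Finset.sum_mul, ← Finset.sum_add_distrib]
    refine Finset.sum_congr rfl fun i _ => ?_
    have h1 : (i : ℂ) * (u ^ (i - 1) * u ^ j) = i * u ^ (i + j - 1) := by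
      rcases i with _ | i
      · simp
      · rw [← pow_add]
        congr 2
        omega
    have h2 : (j : ℂ) * (u ^ i * u ^ (j - 1)) = j * u ^ (i + j - 1) := by
      rcases j with _ | j
      · simp
      · rw [← pow_add]
        congr 2
    linear_combination (m + 1) * q.coeff i * h1 + m * q.coeff i * h2
  simp only [hpt]
  rw [integral_finset_sum]
  · refine Finset.sum_congr rfl fun i _ => ?_
    rw [integral_const_mul, integral_const_mul]
    rfl
  · intro i _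
    exact integrable_comp hw hR
      (f := fun u => q.coeff i * (((m + 1) * i + m * j) * u ^ (i + j - 1))) (by fun_prop)

theorem sum_two (z w : ℂ) (j : ℕ) :
    (z - w) ^ 2 * ∑ b ∈ Finset.range j, ((b : ℂ) + 1) * (w ^ b * z ^ (j - 1 - b)) =
      z ^ (j + 1) - w ^ (j + 1) - (j + 1) * (z - w) * w ^ j := by
  induction j with
  | zero => simp
  | succ j ih =>
    have : ∑ b ∈ Finset.range (j + 1), ((b : ℂ) + 1) * (w ^ b * z ^ (j + 1 - 1 - b)) =
        z * ∑ b ∈ Finset.range j, ((b : ℂ) + 1) * (w ^ b * z ^ (j - 1 - b)) + (j + 1) * w ^ j := by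
      rw [Finset.sum_range_succ, Finset.mul_sum]
      congr 1
      · refine Finset.sum_congr rfl fun b hb => ?_
        have hb' := Finset.mem_range.1 hb
        rw [show j + 1 - 1 - b = (j - 1 - b) + 1 by omega, pow_succ]
        ring
      · simp
    rw [this]
    push_cast
    linear_combination z * ih

theorem pointwise_E (m : ℕ) {N : ℕ} {q : ℂ[X]} (hq : q.natDegree ≤ N) {z w : ℂ} (h : z - w ≠ 0) :
    -(m * q.eval z * (z - w)⁻¹ ^ 2) - q.derivative.eval z * (z - w)⁻¹ +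
      ((m + 1) * q.derivative.eval w * (z - w)⁻¹ + m * q.eval w * (z - w)⁻¹ ^ 2) =
      Efun m N q.coeff (fun b => w ^ b) z := by
  conv_lhs => rw [q.as_sum_range_C_mul_X_pow' (Nat.lt_succ_of_le hq)]
  simp only [Efun, derivative_sum, derivative_C_mul_X_pow, eval_finset_sum, eval_mul, eval_C,
    eval_pow, eval_X]
  simp only [Finset.mul_sum (Finset.range (N + 1)), Finset.sum_mul (Finset.range (N + 1)),
    ← Finset.sum_neg_distrib (s := Finset.range (N + 1)), ← Finset.sum_sub_distrib,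
    ← Finset.sum_add_distrib]
  refine Finset.sum_congr rfl fun i _ => ?_
  rcases i with _ | j
  · simp
  have h1 := sum_two z w j
  have h2 := (Commute.all w z).mul_neg_geom_sum₂ j
  have h3 : ∑ b ∈ Finset.range (j + 1 - 1),
      (((m : ℂ) * (b + 1) + ((j + 1 : ℕ) : ℂ)) * z ^ (j + 1 - 1 - 1 - b)) * w ^ b =
      m * ∑ b ∈ Finset.range j, ((b : ℂ) + 1) * (w ^ b * z ^ (j - 1 - b)) +
        (j + 1) * ∑ b ∈ Finset.range j, w ^ b * z ^ (j - 1 - b) := by
    rw [Finset.mul_sum, Finset.mul_sum, ← Finset.sum_add_distrib]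
    refine Finset.sum_congr rfl fun b _ => ?_
    simp only [Nat.add_sub_cancel]
    push_cast
    ring
  rw [h3]
  generalize ∑ b ∈ Finset.range j, ((b : ℂ) + 1) * (w ^ b * z ^ (j - 1 - b)) = S2 at h1 ⊢
  generalize ∑ b ∈ Finset.range j, w ^ b * z ^ (j - 1 - b) = S1 at h2 ⊢
  simp only [Nat.add_sub_cancel]
  push_cast
  field_simp
  linear_combination (q.coeff (j + 1) * m) * h1 + (q.coeff (j + 1) * (j + 1) * (z - w)) * h2

theorem integral_Efun [IsFiniteMeasure μ] {w : X → ℂ} (hw : AEStronglyMeasurable w μ) {R : ℝ}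
    (hR : ∀ᵐ x ∂μ, ‖w x‖ ≤ R) (m N : ℕ) (c : ℕ → ℂ) (z : ℂ) :
    ∫ x, Efun m N c (fun b => w x ^ b) z ∂μ = Efun m N c (mom μ w) z := by
  simp only [Efun]
  rw [integral_neg, integral_finset_sum]
  · congr 1
    refine Finset.sum_congr rfl fun i _ => ?_
    rw [integral_const_mul, integral_finset_sum]
    · simp only [integral_const_mul]
      rfl
    · intro b _
      exact integrable_comp hw hR
        (f := fun u => ((m * (b + 1) + i) * z ^ (i - 1 - 1 - b)) * u ^ b) (by fun_prop)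
  · intro i _
    exact integrable_comp hw hR (f := fun u => c i *
      ∑ b ∈ Finset.range (i - 1), ((m * (b + 1) + i) * z ^ (i - 1 - 1 - b)) * u ^ b)
      (by fun_prop)

theorem Away.exists_ball {w : X → ℂ} {z : ℂ} (h : Away μ w z) :
    ∃ δ > 0, ∀ᵐ x ∂μ, ∀ z' ∈ ball z δ, δ ≤ ‖z' - w x‖ := by
  obtain ⟨δ, hδ, h⟩ := h
  refine ⟨δ / 2, by linarith, ?_⟩
  filter_upwards [h] with x hx z' hz'
  rw [mem_ball, dist_eq_norm] at hz'
  have : ‖z - w x‖ ≤ ‖z' - w x‖ + ‖z' - z‖ := by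
    have := norm_sub_le (z' - w x) (z' - z)
    rwa [show z' - w x - (z' - z) = z - w x by ring] at this
  linarith

theorem isOpen_away (w : X → ℂ) : IsOpen {z | Away μ w z} := by
  rw [Metric.isOpen_iff]
  intro z hz
  obtain ⟨δ, hδ, h⟩ := Away.exists_ball hz
  exact ⟨δ, hδ, fun z' hz' => ⟨δ, hδ, h.mono fun x hx => hx z' hz'⟩⟩

theorem Away.integrable [IsFiniteMeasure μ] {w : X → ℂ} (hw : AEStronglyMeasurable w μ) {R : ℝ}
    (hR : ∀ᵐ x ∂μ, ‖w x‖ ≤ R) {z : ℂ} (h : Away μ w z) {f : ℂ → ℂ} (hf : Continuous f) (k : ℕ) :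
    Integrable (fun x => f (w x) * (z - w x)⁻¹ ^ k) μ := by
  obtain ⟨δ, hδ, h⟩ := h
  refine (integrable_comp hw hR hf).mul_bdd (c := δ⁻¹ ^ k) ?_ ?_
  · exact ((aestronglyMeasurable_const.sub hw).aemeasurable.inv.pow_const k).aestronglyMeasurable
  · filter_upwards [h] with x hx
    rw [norm_pow, norm_inv]
    exact pow_le_pow_left₀ (by positivity) (inv_anti₀ hδ hx) k

theorem Away.hasDerivAt_cauchy [IsFiniteMeasure μ] {w : X → ℂ} (hw : AEStronglyMeasurable w μ)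
    {R : ℝ} (hR : ∀ᵐ x ∂μ, ‖w x‖ ≤ R) {z : ℂ} (h : Away μ w z) :
    HasDerivAt (cauchy μ w) (-∫ x, (z - w x)⁻¹ ^ 2 ∂μ) z := by
  obtain ⟨δ, hδ, hb⟩ := h.exists_ball
  rw [← integral_neg]
  refine (hasDerivAt_integral_of_dominated_loc_of_deriv_le (s := ball z δ)
    (F := fun z x => (z - w x)⁻¹) (F' := fun z x => -(z - w x)⁻¹ ^ 2)
    (bound := fun _ => δ⁻¹ ^ 2) (ball_mem_nhds z hδ) ?_ ?_ ?_ ?_ (integrable_const _) ?_).2
  · exact Eventually.of_forall fun z' =>
      ((aestronglyMeasurable_const.sub hw).aemeasurable.inv).aestronglyMeasurable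
  · simpa using h.integrable hw hR (f := fun _ => 1) continuous_const 1
  · exact ((aestronglyMeasurable_const.sub hw).aemeasurable.inv.pow_const 2).aestronglyMeasurable.neg
  · filter_upwards [hb] with x hx z' hz'
    rw [norm_neg, norm_pow, norm_inv]
    exact pow_le_pow_left₀ (by positivity) (inv_anti₀ hδ (hx z' hz')) 2
  · filter_upwards [hb] with x hx z' hz'
    have hne : z' - w x ≠ 0 := norm_pos_iff.1 (hδ.trans_le (hx z' hz'))
    refine (((hasDerivAt_id z').sub_const (w x)).fun_inv hne).congr_deriv ?_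
    simp only [id]
    field_simp

/-- The functional of the recurrence applied to the Cauchy kernel. -/
def Phi (m : ℕ) (μ : Measure X) (w : X → ℂ) (q : ℂ[X]) (z : ℂ) : ℂ :=
  ∫ x, ((m + 1) * q.derivative.eval (w x) * (z - w x)⁻¹ + m * q.eval (w x) * (z - w x)⁻¹ ^ 2) ∂μ

theorem differentiableOn_Phi [IsFiniteMeasure μ] {w : X → ℂ} (hw : AEStronglyMeasurable w μ)
    {R : ℝ} (hR : ∀ᵐ x ∂μ, ‖w x‖ ≤ R) (m : ℕ) (q : ℂ[X]) :
    DifferentiableOn ℂ (Phi m μ w q) {z | Away μ w z} := by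
  intro z hz
  obtain ⟨δ, hδ, hb⟩ := Away.exists_ball hz
  obtain ⟨B1, hB1⟩ := (isCompact_closedBall (0 : ℂ) R).exists_bound_of_continuousOn
    (f := fun u => (m + 1) * q.derivative.eval u) (by fun_prop)
  obtain ⟨B2, hB2⟩ := (isCompact_closedBall (0 : ℂ) R).exists_bound_of_continuousOn
    (f := fun u => m * q.eval u) (by fun_prop)
  refine ((differentiableOn_integral_of_bound (U := ball z δ) (C := B1 * δ⁻¹ + B2 * δ⁻¹ ^ 2)
    (f := fun z x => (m + 1) * q.derivative.eval (w x) * (z - w x)⁻¹ +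
      m * q.eval (w x) * (z - w x)⁻¹ ^ 2) isOpen_ball ?_ ?_ ?_).differentiableAt
      (ball_mem_nhds z hδ)).differentiableWithinAt
  · intro z' hz'
    have h' : Away μ w z' := ⟨δ, hδ, hb.mono fun x hx => hx z' hz'⟩
    have h1 := h'.integrable hw hR (f := fun u => (m + 1) * q.derivative.eval u) (by fun_prop) 1
    have h2 := h'.integrable hw hR (f := fun u => m * q.eval u) (by fun_prop) 2
    simp only [pow_one] at h1
    exact (h1.add h2).1
  · filter_upwards [hb] with x hx z' hz'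
    have hne : z' - w x ≠ 0 := norm_pos_iff.1 (hδ.trans_le (hx z' hz'))
    have h1 : DifferentiableAt ℂ (fun z' => (z' - w x)⁻¹) z' :=
      (differentiableAt_id.sub_const _).inv hne
    exact ((h1.const_mul _).add ((h1.pow 2).const_mul _)).differentiableWithinAt
  · filter_upwards [hb, hR] with x hx hx' z' hz'
    have h1 : ‖(z' - w x)⁻¹‖ ≤ δ⁻¹ := by
      rw [norm_inv]
      exact inv_anti₀ hδ (hx z' hz')
    have h2 := hB1 (w x) (by simpa using hx')
    have h3 := hB2 (w x) (by simpa using hx')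
    refine (norm_add_le _ _).trans (add_le_add ?_ ?_)
    · rw [norm_mul]
      exact mul_le_mul h2 h1 (norm_nonneg _) ((norm_nonneg _).trans h2)
    · rw [norm_mul, norm_pow]
      exact mul_le_mul h3 (pow_le_pow_left₀ (norm_nonneg _) h1 2) (by positivity)
        ((norm_nonneg _).trans h3)

theorem Sol.Phi_far [IsFiniteMeasure μ] {w : X → ℂ} (hw : AEStronglyMeasurable w μ)
    {R : ℝ} (hR0 : 0 ≤ R) (hR : ∀ᵐ x ∂μ, ‖w x‖ ≤ R) {m : ℕ} {q : ℂ[X]} (h : Sol m μ w q) {z : ℂ}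
    (hz : R < ‖z‖) : Phi m μ w q z = 0 := by
  obtain ⟨R', hR1, hR2⟩ := exists_between hz
  have hR'0 : 0 < R' := hR0.trans_lt hR1
  have hz0 : 0 < ‖z‖ := hR'0.trans hR2
  have hzne : z ≠ 0 := norm_pos_iff.1 hz0
  obtain ⟨B1, hB1⟩ := (isCompact_closedBall (0 : ℂ) R).exists_bound_of_continuousOn
    (f := fun u => (m + 1) * q.derivative.eval u) (by fun_prop)
  obtain ⟨B2, hB2⟩ := (isCompact_closedBall (0 : ℂ) R).exists_bound_of_continuousOn
    (f := fun u => m * q.eval u) (by fun_prop)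
  let G : ℕ → ℂ → ℂ := fun j u => z⁻¹ ^ (j + 1) *
    ((m + 1) * q.derivative.eval u * u ^ j + m * q.eval u * (j * u ^ (j - 1)))
  have hGi : ∀ j, Integrable (fun x => G j (w x)) μ := fun j =>
    integrable_comp hw hR (f := G j) (by fun_prop)
  set ρ : ℝ := R' / ‖z‖ with hρ
  have hρ0 : 0 ≤ ρ := by positivity
  have hρ1 : ρ < 1 := (div_lt_one hz0).2 hR2
  have hGb : ∀ j u, ‖u‖ ≤ R → ‖G j u‖ ≤ B1 / ‖z‖ * ρ ^ j + B2 / (‖z‖ * R') * (j * ρ ^ j) := by
    intro j u hu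
    have h2 := hB1 u (by simpa using hu)
    have h3 := hB2 u (by simpa using hu)
    have h4 : ‖u ^ j‖ ≤ R' ^ j := by
      rw [norm_pow]
      exact pow_le_pow_left₀ (norm_nonneg _) (hu.trans hR1.le) j
    have h5 : ‖(j : ℂ) * u ^ (j - 1)‖ ≤ j * R' ^ j / R' := by
      rcases j with _ | j
      · simp
      · rw [norm_mul, norm_pow, Nat.add_sub_cancel, Complex.norm_natCast, pow_succ, mul_div_assoc,
          mul_div_cancel_right₀ _ hR'0.ne']
        exact mul_le_mul_of_nonneg_left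
          (pow_le_pow_left₀ (norm_nonneg _) (hu.trans hR1.le) j) (by positivity)
    have h6 : ‖(m + 1) * q.derivative.eval u * u ^ j + m * q.eval u * (j * u ^ (j - 1))‖ ≤
        B1 * R' ^ j + B2 * (j * R' ^ j / R') := by
      refine (norm_add_le _ _).trans (add_le_add ?_ ?_)
      · rw [norm_mul]
        exact mul_le_mul h2 h4 (norm_nonneg _) ((norm_nonneg _).trans h2)
      · rw [norm_mul]
        exact mul_le_mul h3 h5 (norm_nonneg _) ((norm_nonneg _).trans h3)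
    simp only [G]
    rw [norm_mul, norm_pow, norm_inv]
    refine (mul_le_mul_of_nonneg_left h6 (by positivity)).trans (le_of_eq ?_)
    rw [hρ, div_pow, pow_succ, inv_pow]
    field_simp
  have hsum : Summable fun j : ℕ => B1 / ‖z‖ * ρ ^ j + B2 / (‖z‖ * R') * (j * ρ ^ j) := by
    refine ((summable_geometric_of_lt_one hρ0 hρ1).mul_left _).add (Summable.mul_left _ ?_)
    simpa using summable_pow_mul_geometric_of_norm_lt_one 1
      (r := ρ) (by rwa [Real.norm_eq_abs, abs_of_nonneg hρ0])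
  have hs := hasSum_integral_of_summable_integral_norm (F := fun j x => G j (w x)) hGi (by
    refine Summable.of_nonneg_of_le (fun j => integral_nonneg fun x => norm_nonneg _)
      (fun j => ?_) (hsum.mul_left (μ.real univ))
    rw [← smul_eq_mul, ← integral_const]
    refine integral_mono_ae (hGi j).norm (integrable_const _) ?_
    filter_upwards [hR] with x hx using hGb j _ hx)
  have h0 : ∀ j, ∫ x, G j (w x) ∂μ = 0 := fun j => by
    simp only [G]
    rw [integral_const_mul, h j, mul_zero]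
  simp only [h0] at hs
  rw [hs.unique hasSum_zero |>.symm]
  refine integral_congr_ae ?_
  filter_upwards [hR] with x hx
  set u := w x with hu
  have hlt : ‖u / z‖ < 1 := by
    rw [norm_div, div_lt_one hz0]
    exact hx.trans_lt hz
  have hne : z - u ≠ 0 := by
    intro h0
    rw [sub_eq_zero.1 h0] at hz
    exact absurd hx (not_le.2 hz)
  have hne' : 1 - u / z ≠ 0 := by
    rw [one_sub_div hzne]
    exact div_ne_zero hne hzne
  have s1 : HasSum (fun j : ℕ => z⁻¹ ^ (j + 1) * u ^ j) (z - u)⁻¹ := by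
    have := (hasSum_geometric_of_norm_lt_one hlt).mul_left z⁻¹
    have e1 : (fun j : ℕ => z⁻¹ ^ (j + 1) * u ^ j) = fun j => z⁻¹ * (u / z) ^ j := by
      ext j
      rw [div_pow, pow_succ, inv_pow]
      field_simp
    have e2 : (z - u)⁻¹ = z⁻¹ * (1 - u / z)⁻¹ := by field_simp
    rw [e1, e2]
    exact this
  have s2 : HasSum (fun j : ℕ => z⁻¹ ^ (j + 1) * (j * u ^ (j - 1))) ((z - u)⁻¹ ^ 2) := by
    rw [← hasSum_nat_add_iff' 1]
    have := (hasSum_choose_mul_geometric_of_norm_lt_one 1 hlt).mul_left (z⁻¹ ^ 2)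
    have e1 : (fun j : ℕ => z⁻¹ ^ (j + 1 + 1) * (((j + 1 : ℕ) : ℂ) * u ^ (j + 1 - 1))) =
        fun j => z⁻¹ ^ 2 * (((j + 1).choose 1 : ℕ) * (u / z) ^ j) := by
      ext j
      simp only [Nat.add_sub_cancel, Nat.choose_one_right, div_pow, inv_pow, pow_succ]
      field_simp
    have e2 : (z - u)⁻¹ ^ 2 - ∑ i ∈ Finset.range 1, z⁻¹ ^ (i + 1) * ((i : ℂ) * u ^ (i - 1)) =
        z⁻¹ ^ 2 * (1 / (1 - u / z) ^ (1 + 1)) := by
      simp only [Finset.range_one, Finset.sum_singleton, Nat.cast_zero, zero_mul, mul_zero,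
        sub_zero, one_add_one_eq_two]
      field_simp
    rw [e1, e2]
    exact this
  have s3 := (s1.mul_left ((m + 1) * q.derivative.eval u)).add (s2.mul_left (m * q.eval u))
  rw [← s3.tsum_eq]
  congr 1
  ext j
  simp only [G]
  ring

theorem ode_of_Phi [IsFiniteMeasure μ] {w : X → ℂ} (hw : AEStronglyMeasurable w μ)
    {R : ℝ} (hR : ∀ᵐ x ∂μ, ‖w x‖ ≤ R) {m : ℕ} (hm : m ≠ 0) {N : ℕ} {q : ℂ[X]}
    (hq : q.natDegree ≤ N) :
    IsSol m q (Efun m N q.coeff (mom μ w))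
      {z | (Away μ w z ∧ Phi m μ w q z = 0) ∧ q.eval z ≠ 0} (cauchy μ w) := by
  rintro z ⟨⟨h1, h2⟩, h3⟩
  refine ⟨h3, (h1.hasDerivAt_cauchy hw hR).congr_deriv ?_⟩
  have hm' : (m : ℂ) ≠ 0 := Nat.cast_ne_zero.2 hm
  have i1 : Integrable (fun x => (z - w x)⁻¹) μ := by
    simpa using h1.integrable hw hR (f := fun _ => 1) continuous_const 1
  have i2 : Integrable (fun x => (z - w x)⁻¹ ^ 2) μ := by
    simpa using h1.integrable hw hR (f := fun _ => 1) continuous_const 2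
  have i3 := h1.integrable hw hR (f := fun u => (m + 1) * q.derivative.eval u) (by fun_prop) 1
  have i4 := h1.integrable hw hR (f := fun u => m * q.eval u) (by fun_prop) 2
  simp only [pow_one] at i3
  have key : Efun m N q.coeff (mom μ w) z =
      -(m * q.eval z * ∫ x, (z - w x)⁻¹ ^ 2 ∂μ) - q.derivative.eval z * cauchy μ w z +
        Phi m μ w q z := by
    have j1 : Integrable (fun x => -(m * q.eval z * (z - w x)⁻¹ ^ 2)) μ := (i2.const_mul _).neg
    have j2 : Integrable (fun x => q.derivative.eval z * (z - w x)⁻¹) μ := i1.const_mul _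
    have j3 : Integrable (fun x => -(m * q.eval z * (z - w x)⁻¹ ^ 2) -
      q.derivative.eval z * (z - w x)⁻¹) μ := j1.sub j2
    have j4 : Integrable (fun x => (m + 1) * q.derivative.eval (w x) * (z - w x)⁻¹ +
      m * q.eval (w x) * (z - w x)⁻¹ ^ 2) μ := i3.add i4
    rw [← integral_Efun hw hR, cauchy, Phi, ← integral_const_mul, ← integral_const_mul,
      ← integral_neg, ← integral_sub j1 j2, ← integral_add j3 j4]
    refine integral_congr_ae ?_
    obtain ⟨δ, hδ, h⟩ := h1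
    filter_upwards [h] with x hx
    exact (pointwise_E m hq (norm_pos_iff.1 (hδ.trans_le hx))).symm
  rw [key, h2]
  field_simp
  ring

/-- Points separated from the essential range of `w` by a line with normal `θ`. -/
def Sep (μ : Measure X) (w : X → ℂ) (θ : ℂ) : Set ℂ :=
  {z | ∃ δ > 0, ∀ᵐ x ∂μ, δ ≤ ((z - w x) * θ).re}

theorem Sep.away {w : X → ℂ} {θ : ℂ} (hθ : θ ≠ 0) {z : ℂ} (h : z ∈ Sep μ w θ) : Away μ w z := by
  obtain ⟨δ, hδ, h⟩ := h
  have h0 : 0 < ‖θ‖ := norm_pos_iff.2 hθ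
  refine ⟨δ / ‖θ‖, by positivity, ?_⟩
  filter_upwards [h] with x hx
  rw [div_le_iff₀ h0, ← norm_mul]
  exact hx.trans (Complex.re_le_norm _)

theorem convex_sep (w : X → ℂ) (θ : ℂ) : Convex ℝ (Sep μ w θ) := by
  rintro z₁ ⟨δ₁, hδ₁, h₁⟩ z₂ ⟨δ₂, hδ₂, h₂⟩ s t hs ht hst
  refine ⟨min δ₁ δ₂, lt_min hδ₁ hδ₂, ?_⟩
  filter_upwards [h₁, h₂] with x hx₁ hx₂
  have h1 : (s • z₁ + t • z₂ - w x) * θ = (s : ℂ) * ((z₁ - w x) * θ) + t * ((z₂ - w x) * θ) := by
    have h2 : (s : ℂ) + t = 1 := by exact_mod_cast hst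
    simp only [Complex.real_smul]
    linear_combination (w x * θ) * h2
  rw [h1, Complex.add_re, Complex.re_ofReal_mul, Complex.re_ofReal_mul]
  have a1 := mul_le_mul_of_nonneg_left ((min_le_left δ₁ δ₂).trans hx₁) hs
  have a2 := mul_le_mul_of_nonneg_left ((min_le_right δ₁ δ₂).trans hx₂) ht
  calc min δ₁ δ₂ = s * min δ₁ δ₂ + t * min δ₁ δ₂ := by rw [← add_mul, hst, one_mul]
    _ ≤ _ := add_le_add a1 a2

theorem isOpen_sep (w : X → ℂ) (θ : ℂ) : IsOpen (Sep μ w θ) := by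
  rw [isOpen_iff_mem_nhds]
  rintro z ⟨δ, hδ, h⟩
  have hc : ContinuousAt (fun z' => ((z' - z) * θ).re) z := by fun_prop
  have : ∀ᶠ z' in 𝓝 z, -(δ / 2) < ((z' - z) * θ).re :=
    continuousAt_const.eventually_lt hc (by simp; linarith)
  filter_upwards [this] with z' hz'
  refine ⟨δ / 2, by linarith, ?_⟩
  filter_upwards [h] with x hx
  have : (z' - w x) * θ = (z - w x) * θ + (z' - z) * θ := by ring
  rw [this, Complex.add_re]
  linarith

theorem away_of_far {w : X → ℂ} {R : ℝ} (hR : ∀ᵐ x ∂μ, ‖w x‖ ≤ R) {z : ℂ} (hz : R < ‖z‖) :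
    Away μ w z := by
  refine ⟨‖z‖ - R, by linarith, ?_⟩
  filter_upwards [hR] with x hx
  linarith [norm_sub_norm_le z (w x)]

theorem isPreconnected_sep_union {w : X → ℂ} {θ : ℂ} (hθ : θ ≠ 0) {R : ℝ} (hR0 : 0 ≤ R) :
    IsPreconnected (Sep μ w θ ∪ {z | R < ‖z‖}) := by
  rcases (Sep μ w θ).eq_empty_or_nonempty with h | ⟨z, δ, hδ, h⟩
  · rw [h, empty_union]
    exact isPreconnected_far hR0
  have h0 : 0 < ‖θ‖ := norm_pos_iff.2 hθ
  refine IsPreconnected.union (z + ((R + ‖z‖ + 1) * ‖θ‖ : ℝ) * θ⁻¹) ⟨δ, hδ, ?_⟩ ?_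
    (convex_sep w θ).isPreconnected (isPreconnected_far hR0)
  · filter_upwards [h] with x hx
    have : (z + ((R + ‖z‖ + 1) * ‖θ‖ : ℝ) * θ⁻¹ - w x) * θ =
        (z - w x) * θ + ((R + ‖z‖ + 1) * ‖θ‖ : ℝ) := by
      field_simp
      ring
    rw [this, Complex.add_re, Complex.ofReal_re]
    have : 0 ≤ (R + ‖z‖ + 1) * ‖θ‖ := by positivity
    linarith
  · have h1 : ‖(((R + ‖z‖ + 1) * ‖θ‖ : ℝ) : ℂ) * θ⁻¹‖ = R + ‖z‖ + 1 := by
      rw [norm_mul, norm_inv, Complex.norm_real, Real.norm_eq_abs, abs_of_nonneg (by positivity)]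
      field_simp
    have h2 := norm_sub_norm_le ((((R + ‖z‖ + 1) * ‖θ‖ : ℝ) : ℂ) * θ⁻¹) (-z)
    rw [h1, norm_neg, sub_neg_eq_add, add_comm _ z] at h2
    simp only [mem_ofPred_eq]
    linarith

theorem Sol.Phi_sep [IsFiniteMeasure μ] {w : X → ℂ} (hw : AEStronglyMeasurable w μ)
    {R : ℝ} (hR0 : 0 ≤ R) (hR : ∀ᵐ x ∂μ, ‖w x‖ ≤ R) {m : ℕ} {q : ℂ[X]} (h : Sol m μ w q) {θ : ℂ}
    (hθ : θ ≠ 0) {z : ℂ} (hz : z ∈ Sep μ w θ ∪ {z | R < ‖z‖}) :
    Away μ w z ∧ Phi m μ w q z = 0 := by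
  have hsub : Sep μ w θ ∪ {z | R < ‖z‖} ⊆ {z | Away μ w z} := by
    rintro z (hz | hz)
    · exact Sep.away hθ hz
    · exact away_of_far hR hz
  refine ⟨hsub hz, ?_⟩
  have ha : AnalyticOnNhd ℂ (Phi m μ w q) (Sep μ w θ ∪ {z | R < ‖z‖}) :=
    ((differentiableOn_Phi hw hR m q).analyticOnNhd (isOpen_away w)).mono hsub
  have h1 : R < ‖((R + 1 : ℝ) : ℂ)‖ := by
    rw [Complex.norm_real, Real.norm_eq_abs, abs_of_nonneg (by linarith)]
    linarith
  refine ha.eqOn_zero_of_preconnected_of_eventuallyEq_zero (isPreconnected_sep_union hθ hR0)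
    (z₀ := ((R + 1 : ℝ) : ℂ)) (Or.inr h1) ?_ hz
  filter_upwards [(isOpen_lt continuous_const continuous_norm).mem_nhds h1] with z' hz'
  exact h.Phi_far hw hR0 hR hz'

theorem Sol.reg_of_sep [IsFiniteMeasure μ] {w : X → ℂ} (hw : AEStronglyMeasurable w μ)
    {R : ℝ} (hR0 : 0 ≤ R) (hR : ∀ᵐ x ∂μ, ‖w x‖ ≤ R) {m : ℕ} (hm : m ≠ 0) {N : ℕ} {q : ℂ[X]}
    (hq0 : q ≠ 0) (hq : q.natDegree ≤ N) (h : Sol m μ w q) {θ : ℂ} (hθ : θ ≠ 0) {r : ℂ}
    (hr : r ∈ Sep μ w θ) :
    Reg m q (Efun m N q.coeff (mom μ w)) (farSeed q R (cauchy μ w)) r := by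
  have hfin : {z | q.eval z = 0}.Finite := q.finite_setOf_isRoot hq0
  have ho : IsOpen (Sep μ w θ ∪ {z | R < ‖z‖}) :=
    (isOpen_sep w θ).union (isOpen_lt continuous_const continuous_norm)
  have hsol : IsSol m q (Efun m N q.coeff (mom μ w))
      ((Sep μ w θ ∪ {z | R < ‖z‖}) \ {z | q.eval z = 0}) (cauchy μ w) :=
    (ode_of_Phi hw hR hm hq).mono fun z hz => ⟨h.Phi_sep hw hR0 hR hθ hz.1, hz.2⟩
  obtain ⟨b, hb1, hb2⟩ : ∃ b : ℂ, R < ‖b‖ ∧ q.eval b ≠ 0 := by
    have h1 : R < ‖((R + 1 : ℝ) : ℂ)‖ := by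
      rw [Complex.norm_real, Real.norm_eq_abs, abs_of_nonneg (by linarith)]
      linarith
    exact (infinite_of_mem_nhds _
      ((isOpen_lt continuous_const continuous_norm).mem_nhds h1)).exists_notMem_finite hfin
  have ho' : IsOpen ((Sep μ w θ ∪ {z | R < ‖z‖}) \ ({z | q.eval z = 0} \ {r})) :=
    ho.sdiff (hfin.subset sdiff_subset).isClosed
  obtain ⟨ρ, hρ, hball⟩ := Metric.isOpen_iff.1 ho' r ⟨Or.inl hr, fun h => h.2 rfl⟩
  have hsub : ball r ρ \ {r} ⊆ (Sep μ w θ ∪ {z | R < ‖z‖}) \ {z | q.eval z = 0} :=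
    fun z hz => ⟨(hball hz.1).1, fun h => (hball hz.1).2 ⟨h, hz.2⟩⟩
  refine ⟨ρ, hρ, cauchy μ w, hsol.mono hsub, fun z hz => ?_⟩
  exact leaf_stepClosed _ _ (ho.sdiff hfin.isClosed)
    (isPreconnected_diff_finite ho (isPreconnected_sep_union hθ hR0) hfin) hsol b
    ⟨Or.inr hb1, hb2⟩ z (hsub hz) (seed_subset_leaf ⟨hb1, hb2, rfl⟩)

end Pool.Agent.P.MP_376fb4_gt
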