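import Pool.Agent.P.MP_376fb4_gt.ODE

/-!
The equation attached to a real direction: jump across the support, uniqueness, and failure of
regularity at the end points of the support.
-/

open Set Filter Topology Polynomial Metric Function Complex

noncomputable section

namespace Pool.Agent.P.MP_376fb4_gt

/-- Data of a Cauchy transform `F` of a density `a` supported in the closure of `T`. -/
structure RealData (m : ℕ) (p : ℂ[X]) (E F : ℂ → ℂ) (T : Set ℝ) (a : ℝ → ℂ) : Prop where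
  hm : m ≠ 0
  hE : Differentiable ℂ E
  sol : IsSol m p E {z | (z.im ≠ 0 ∨ z.re ∉ closure T) ∧ p.eval z ≠ 0} F
  jump : ∀ x ∈ T, Tendsto (fun η : ℝ => F (x + η * I) - F (x - η * I)) (𝓝[>] 0)
    (𝓝 (-(2 * Real.pi * I) * a x))

theorem tendsto_up (x : ℂ) : Tendsto (fun η : ℝ => x + η * I) (𝓝[>] 0) (𝓝 x) := by
  have : Continuous fun η : ℝ => x + η * I := by fun_prop
  have h := this.tendsto 0
  simp only [ofReal_zero, zero_mul, add_zero] at h
  exact h.mono_left nhdsWithin_le_nhds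

theorem tendsto_down (x : ℂ) : Tendsto (fun η : ℝ => x - η * I) (𝓝[>] 0) (𝓝 x) := by
  have : Continuous fun η : ℝ => x - η * I := by fun_prop
  have h := this.tendsto 0
  simp only [ofReal_zero, zero_mul, sub_zero] at h
  exact h.mono_left nhdsWithin_le_nhds

theorem RealData.exists_sides {m : ℕ} {p : ℂ[X]} {E F : ℂ → ℂ} {T : Set ℝ} {a : ℝ → ℂ}
    (h : RealData m p E F T a) {x₀ : ℂ} (hx₀ : x₀.im = 0) {δ : ℝ} (hδ : 0 < δ)
    (hfree : ∀ z ∈ ball x₀ δ, p.eval z ≠ 0) :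
    ∃ Fp Fm, IsSol m p E (ball x₀ δ) Fp ∧ IsSol m p E (ball x₀ δ) Fm ∧
      (∀ z ∈ ball x₀ δ, 0 < z.im → Fp z = F z) ∧ (∀ z ∈ ball x₀ δ, z.im < 0 → Fm z = F z) ∧
      (∀ z ∈ ball x₀ δ, z.im = 0 →
        Tendsto (fun η : ℝ => F (z + η * I)) (𝓝[>] 0) (𝓝 (Fp z)) ∧
        Tendsto (fun η : ℝ => F (z - η * I)) (𝓝[>] 0) (𝓝 (Fm z))) ∧
      ∀ x ∈ T, (x : ℂ) ∈ ball x₀ δ → Fp x - Fm x = -(2 * Real.pi * I) * a x := by
  have hup : x₀ + (δ / 2 : ℝ) * I ∈ ball x₀ δ ∩ {z : ℂ | 0 < z.im} := by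
    constructor
    · rw [mem_ball, dist_eq_norm, add_sub_cancel_left, norm_mul, norm_real, norm_I, mul_one,
        Real.norm_eq_abs, abs_of_pos (by linarith)]
      linarith
    · simp [hx₀, hδ]
  have hdown : x₀ - (δ / 2 : ℝ) * I ∈ ball x₀ δ ∩ {z : ℂ | z.im < 0} := by
    constructor
    · rw [mem_ball, dist_eq_norm, sub_sub_cancel_left, norm_neg, norm_mul, norm_real, norm_I,
        mul_one, Real.norm_eq_abs, abs_of_pos (by linarith)]
      linarith
    · simp [hx₀, hδ]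
  obtain ⟨Fp, hFp, hp0⟩ := exists_sol h.hm p h.hE (convex_ball x₀ δ) isOpen_ball hfree hup.1
    (F (x₀ + (δ / 2 : ℝ) * I))
  obtain ⟨Fm, hFm, hm0⟩ := exists_sol h.hm p h.hE (convex_ball x₀ δ) isOpen_ball hfree hdown.1
    (F (x₀ - (δ / 2 : ℝ) * I))
  have e1 : ∀ z ∈ ball x₀ δ, 0 < z.im → Fp z = F z := fun z hz hz' =>
    IsSol.unique h.hm (isOpen_ball.inter (isOpen_lt continuous_const continuous_im))
      ((convex_ball x₀ δ).inter (convex_halfSpace_im_gt 0)) (hFp.mono inter_subset_left)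
      (h.sol.mono fun w hw => ⟨Or.inl (ne_of_gt hw.2), hfree w hw.1⟩) hup hp0 ⟨hz, hz'⟩
  have e2 : ∀ z ∈ ball x₀ δ, z.im < 0 → Fm z = F z := fun z hz hz' =>
    IsSol.unique h.hm (isOpen_ball.inter (isOpen_lt continuous_im continuous_const))
      ((convex_ball x₀ δ).inter (convex_halfSpace_im_lt 0)) (hFm.mono inter_subset_left)
      (h.sol.mono fun w hw => ⟨Or.inl (ne_of_lt hw.2), hfree w hw.1⟩) hdown hm0 ⟨hz, hz'⟩
  have e3 : ∀ z ∈ ball x₀ δ, z.im = 0 →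
      Tendsto (fun η : ℝ => F (z + η * I)) (𝓝[>] 0) (𝓝 (Fp z)) ∧
      Tendsto (fun η : ℝ => F (z - η * I)) (𝓝[>] 0) (𝓝 (Fm z)) := by
    intro z hz hz0
    constructor
    · refine ((hFp.continuousAt hz).tendsto.comp (tendsto_up z)).congr' ?_
      filter_upwards [(tendsto_up z).eventually (isOpen_ball.mem_nhds hz), self_mem_nhdsWithin]
        with η h1 h2
      exact e1 _ h1 (by simpa [hz0] using h2)
    · refine ((hFm.continuousAt hz).tendsto.comp (tendsto_down z)).congr' ?_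
      filter_upwards [(tendsto_down z).eventually (isOpen_ball.mem_nhds hz), self_mem_nhdsWithin]
        with η h1 h2
      exact e2 _ h1 (by simpa [hz0] using h2)
  refine ⟨Fp, Fm, hFp, hFm, e1, e2, e3, fun x hx hxb => ?_⟩
  obtain ⟨h1, h2⟩ := e3 x hxb (ofReal_im x)
  exact tendsto_nhds_unique (h1.sub h2) (h.jump x hx)

theorem two_pi_I_ne : (2 * Real.pi * I : ℂ) ≠ 0 := Complex.two_pi_I_ne_zero

theorem RealData.eq_C_mul {m : ℕ} {p : ℂ[X]} {E F : ℂ → ℂ} {T : Set ℝ} {a : ℝ → ℂ}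
    (h : RealData m p E F T a) (hp : p ≠ 0) (hT : IsOpen T) (hne : T.Nonempty) {P : ℂ[X]}
    (hP : ∀ x ∈ T, a x ^ m = P.eval (x : ℂ)) : ∃ c : ℂ, P = C c * p := by
  have hfin : {z : ℂ | p.eval z = 0}.Finite := p.finite_setOf_isRoot hp
  have hfin' : {x : ℝ | p.eval (x : ℂ) = 0}.Finite :=
    hfin.preimage ofReal_injective.injOn
  obtain ⟨x₀, hx₀, hx₀'⟩ :=
    (infinite_of_mem_nhds hne.some (hT.mem_nhds hne.some_mem)).exists_notMem_finite hfin'
  have ho : IsOpen ({z : ℂ | z.re ∈ T} \ {z : ℂ | p.eval z = 0}) :=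
    (hT.preimage continuous_re).sdiff hfin.isClosed
  obtain ⟨δ, hδ, hball⟩ := Metric.isOpen_iff.1 ho x₀ ⟨by simpa using hx₀, hx₀'⟩
  obtain ⟨Fp, Fm, hFp, hFm, -, -, -, hj⟩ := h.exists_sides (ofReal_im x₀) hδ
    (fun z hz => (hball hz).2)
  obtain ⟨b, hb⟩ := exists_branch h.hm p one_ne_zero (convex_ball (x₀ : ℂ) δ) isOpen_ball
    (fun z hz => (hball hz).2)
  obtain ⟨k, hk⟩ := hFp.sub_eq_mul h.hm one_ne_zero isOpen_ball
    (convex_ball _ _).isPreconnected hFm hb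
  refine ⟨(k / -(2 * Real.pi * I)) ^ m, ?_⟩
  apply Polynomial.eq_of_infinite_eval_eq
  refine ((infinite_of_mem_nhds x₀ (ball_mem_nhds x₀ hδ)).image ofReal_injective.injOn).mono ?_
  rintro _ ⟨x, hx, rfl⟩
  have hx' : (x : ℂ) ∈ ball (x₀ : ℂ) δ := by
    rw [mem_ball, dist_eq_norm, ← ofReal_sub, norm_real, ← dist_eq_norm]
    exact hx
  have hxT : x ∈ T := by simpa using (hball hx').1
  have h1 := (hj x hxT hx').symm.trans (hk _ hx')
  have h2 := (hb _ hx').1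
  have h3 := two_pi_I_ne
  simp only [mem_ofPred_eq, eval_mul, eval_C]
  rw [← hP x hxT, ← one_mul (p.eval _), ← h2, ← mul_pow]
  congr 1
  field_simp
  linear_combination -h1

theorem isIntegral_of_pow_eq_one {m : ℕ} (hm : m ≠ 0) {u : ℂ} (h : u ^ m = 1) :
    IsIntegral ℤ u := IsIntegral.of_pow (Nat.pos_of_ne_zero hm) (h ▸ isIntegral_one)

theorem not_isIntegral_half : ¬ IsIntegral ℤ (2⁻¹ : ℂ) := by
  intro h
  have h1 : (2⁻¹ : ℂ) = algebraMap ℚ ℂ (2⁻¹ : ℚ) := by simp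
  rw [h1, isIntegral_algebraMap_iff (algebraMap ℚ ℂ).injective,
    IsIntegrallyClosed.isIntegral_iff] at h
  obtain ⟨y, hy⟩ := h
  have h2 : (2 * y : ℚ) = 1 := by
    simp only [algebraMap_int_eq, eq_intCast] at hy
    rw [hy]; norm_num
  have h3 : 2 * y = 1 := by exact_mod_cast h2
  omega

/-- Upper boundary values of `F`. -/
def upperVal (F : ℂ → ℂ) (z : ℂ) : ℂ :=
  if z.im = 0 then limUnder (𝓝[>] (0 : ℝ)) (fun η : ℝ => F (z + η * I)) else F z

/-- The lattice of periods above `z`. -/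
def InLat (m : ℕ) (c : ℂ) (p : ℂ[X]) (z w : ℂ) : Prop :=
  ∃ κ a' : ℂ, IsIntegral ℤ κ ∧ a' ^ m = c * p.eval z ∧ w = 2 * Real.pi * I * κ * a'

theorem inLat_iff {m : ℕ} (hm : m ≠ 0) {c : ℂ} {p : ℂ[X]} {z b k : ℂ} (hb : b ^ m = c * p.eval z)
    (hb0 : b ≠ 0) : InLat m c p z (k * b) ↔ IsIntegral ℤ (k / (2 * Real.pi * I)) := by
  have h3 := two_pi_I_ne
  constructor
  · rintro ⟨κ, a', h1, h2, h4⟩
    have : k / (2 * Real.pi * I) = κ * (a' / b) := by
      field_simp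
      linear_combination h4
    rw [this]
    refine h1.mul (isIntegral_of_pow_eq_one hm ?_)
    rw [div_pow, h2, ← hb, div_self (pow_ne_zero _ hb0)]
  · intro h
    refine ⟨_, b, h, hb, ?_⟩
    field_simp

theorem RealData.leaf_subset_lat {m : ℕ} {p : ℂ[X]} {E F : ℂ → ℂ} {T : Set ℝ} {a : ℝ → ℂ}
    (h : RealData m p E F T a) {c : ℂ} (hc : c ≠ 0) (ha : ∀ x ∈ T, a x ^ m = c * p.eval (x : ℂ))
    {seed : Set (ℂ × ℂ)}
    (hseed : ∀ x ∈ seed, (x.1.im ≠ 0 ∨ x.1.re ∉ closure T) ∧ p.eval x.1 ≠ 0 ∧ x.2 = F x.1) :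
    Leaf m p E seed ⊆ {x | InLat m c p x.1 (x.2 - upperVal F x.1)} := by
  have h3 := two_pi_I_ne
  apply leaf_subset
  · rintro ⟨z, y⟩ hx
    obtain ⟨h1, h2, h4⟩ := hseed _ hx
    simp only at h1 h2 h4
    have hv : upperVal F z = F z := by
      unfold upperVal
      split_ifs with hz
      · exact ((h.sol.continuousAt ⟨h1, h2⟩).tendsto.comp (tendsto_up z)).limUnder_eq
      · rfl
    obtain ⟨a', ha'⟩ := IsAlgClosed.exists_pow_nat_eq (c * p.eval z) (Nat.pos_of_ne_zero h.hm)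
    exact ⟨0, a', isIntegral_zero, ha', by simp [hv, h4]⟩
  apply stepClosed_of_local
  intro z₀ ρ Y hρ hY
  suffices H : ∃ δ > 0, ∃ P : Prop, ∀ z ∈ ball z₀ δ,
      (InLat m c p z (Y z - upperVal F z) ↔ P) by
    obtain ⟨δ, hδ, P, hP⟩ := H
    filter_upwards [ball_mem_nhds z₀ hδ] with z hz
    exact (hP z hz).trans (hP z₀ (mem_ball_self hδ)).symm
  obtain ⟨b, hb⟩ := exists_branch h.hm p hc (convex_ball z₀ ρ) isOpen_ball
    (fun z hz => (hY z hz).1)
  have hb0 : ∀ z ∈ ball z₀ ρ, b z ≠ 0 := fun z hz => hb.ne_zero h.hm hc hz (hY z hz).1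
  by_cases hz₀ : z₀.im = 0
  · obtain ⟨Fp, Fm, hFp, hFm, e1, e2, e3, hj⟩ := h.exists_sides hz₀ hρ (fun z hz => (hY z hz).1)
    obtain ⟨k, hk⟩ := hY.sub_eq_mul h.hm hc isOpen_ball (convex_ball _ _).isPreconnected hFp hb
    obtain ⟨k₀, hk₀⟩ := hFp.sub_eq_mul h.hm hc isOpen_ball (convex_ball _ _).isPreconnected hFm hb
    have hint : IsIntegral ℤ (k₀ / (2 * Real.pi * I)) := by
      by_cases hT : ∃ x ∈ T, (x : ℂ) ∈ ball z₀ ρ
      · obtain ⟨x, hx, hxb⟩ := hT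
        rw [← inLat_iff h.hm (hb _ hxb).1 (hb0 _ hxb)]
        refine ⟨-1, a x, isIntegral_one.neg, ha x hx, ?_⟩
        rw [← hk₀ _ hxb, hj x hx hxb]
        ring
      · push Not at hT
        have hz₀T : z₀.re ∉ closure T := by
          rw [mem_closure_iff_nhds]
          push Not
          refine ⟨(fun x : ℝ => (x : ℂ)) ⁻¹' ball z₀ ρ, ?_, ?_⟩
          · apply continuous_ofReal.continuousAt.preimage_mem_nhds
            have : ((z₀.re : ℝ) : ℂ) = z₀ := Complex.ext (by simp) (by simp [hz₀])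
            rw [this]
            exact ball_mem_nhds _ hρ
          · exact eq_empty_of_forall_notMem fun x hx => hT x hx.2 hx.1
        have hc0 : ContinuousAt F z₀ :=
          h.sol.continuousAt ⟨Or.inr hz₀T, (hY z₀ (mem_ball_self hρ)).1⟩
        obtain ⟨l1, l2⟩ := e3 z₀ (mem_ball_self hρ) hz₀
        have f1 := tendsto_nhds_unique l1 (hc0.tendsto.comp (tendsto_up z₀))
        have f2 := tendsto_nhds_unique l2 (hc0.tendsto.comp (tendsto_down z₀))
        have f3 := hk₀ z₀ (mem_ball_self hρ)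
        rw [f1, f2, sub_self] at f3
        rw [(mul_eq_zero.1 f3.symm).resolve_right (hb0 z₀ (mem_ball_self hρ)), zero_div]
        exact isIntegral_zero
    refine ⟨ρ, hρ, IsIntegral ℤ (k / (2 * Real.pi * I)), fun z hz => ?_⟩
    rcases lt_trichotomy z.im 0 with hz' | hz' | hz'
    · have : Y z - upperVal F z = (k + k₀) * b z := by
        rw [upperVal, if_neg hz'.ne, ← e2 z hz hz']
        linear_combination hk z hz + hk₀ z hz
      rw [this, inLat_iff h.hm (hb z hz).1 (hb0 z hz), add_div]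
      exact ⟨fun h' => by simpa using h'.sub hint, fun h' => h'.add hint⟩
    · have : Y z - upperVal F z = k * b z := by
        rw [upperVal, if_pos hz', (e3 z hz hz').1.limUnder_eq, hk z hz]
      rw [this, inLat_iff h.hm (hb z hz).1 (hb0 z hz)]
    · have : Y z - upperVal F z = k * b z := by
        rw [upperVal, if_neg hz'.ne', ← e1 z hz hz', hk z hz]
      rw [this, inLat_iff h.hm (hb z hz).1 (hb0 z hz)]
  · obtain ⟨δ, hδ, hball⟩ := Metric.isOpen_iff.1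
      (isOpen_ball.inter (isOpen_ne_fun continuous_im continuous_const)) z₀
      (⟨mem_ball_self hρ, hz₀⟩ : z₀ ∈ ball z₀ ρ ∩ {z : ℂ | z.im ≠ 0})
    obtain ⟨k, hk⟩ := (hY.mono fun z hz => (hball hz).1).sub_eq_mul h.hm hc isOpen_ball
      (convex_ball z₀ δ).isPreconnected
      (h.sol.mono fun z hz => ⟨Or.inl (hball hz).2, (hY z (hball hz).1).1⟩)
      (fun z hz => hb z (hball hz).1)
    refine ⟨δ, hδ, IsIntegral ℤ (k / (2 * Real.pi * I)), fun z hz => ?_⟩
    rw [upperVal, if_neg (hball hz).2, hk z hz,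
      inLat_iff h.hm (hb z (hball hz).1).1 (hb0 z (hball hz).1)]

theorem RealData.not_reg {m : ℕ} {p : ℂ[X]} {E F : ℂ → ℂ} {T : Set ℝ} {a : ℝ → ℂ}
    (h : RealData m p E F T a) {c : ℂ} (hc : c ≠ 0) (ha : ∀ x ∈ T, a x ^ m = c * p.eval (x : ℂ))
    {seed : Set (ℂ × ℂ)}
    (hseed : ∀ x ∈ seed, (x.1.im ≠ 0 ∨ x.1.re ∉ closure T) ∧ p.eval x.1 ≠ 0 ∧ x.2 = F x.1)
    {ε e : ℝ} (hε : ε * ε = 1) (hT1 : ∀ t ∈ T, ε * (t - e) ≤ 0)
    (hT2 : ∀ᶠ s in 𝓝[>] (0 : ℝ), e - ε * s ∈ T) {μ k : ℕ} (hμ : 2 * μ = m * k) {p₁ : ℂ[X]}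
    (hp : p = (X - C (e : ℂ)) ^ μ * p₁) (hp₁ : p₁.eval (e : ℂ) ≠ 0) :
    ¬ Reg m p E seed e := by
  rintro ⟨ρ₀, hρ₀, Y, hY, hYl⟩
  have hm' : (m : ℂ) ≠ 0 := Nat.cast_ne_zero.2 h.hm
  have hε1 : |ε| = 1 := by
    have := abs_mul_abs_self ε
    nlinarith [abs_nonneg ε]
  obtain ⟨ρ, hρ, hball⟩ := Metric.isOpen_iff.1
    (isOpen_ball.inter (isOpen_ne_fun p₁.continuous continuous_const)) e
    (⟨mem_ball_self hρ₀, hp₁⟩ : (e : ℂ) ∈ ball (e : ℂ) ρ₀ ∩ {z : ℂ | p₁.eval z ≠ 0})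
  obtain ⟨b, hb⟩ := exists_branch h.hm p₁ one_ne_zero (convex_ball (e : ℂ) ρ) isOpen_ball
    (fun z hz => (hball hz).2)
  have hb0 : ∀ z ∈ ball (e : ℂ) ρ, b z ≠ 0 := fun z hz =>
    hb.ne_zero h.hm one_ne_zero hz (hball hz).2
  let g : ℂ → ℂ := fun z => (z - e) ^ k * b z ^ 2
  have hg : ∀ z ∈ ball (e : ℂ) ρ \ {(e : ℂ)}, g z ≠ 0 ∧
      HasDerivAt g (2 * (p.derivative.eval z / (m * p.eval z)) * g z) z := by
    intro z hz
    have hze : z - e ≠ 0 := sub_ne_zero.2 hz.2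
    refine ⟨mul_ne_zero (pow_ne_zero _ hze) (pow_ne_zero _ (hb0 z hz.1)), ?_⟩
    have h1 := (((hasDerivAt_id z).sub_const (e : ℂ)).fun_pow k).fun_mul ((hb z hz.1).2.fun_pow 2)
    refine h1.congr_deriv ?_
    have h2 : p₁.eval z ≠ 0 := (hball hz.1).2
    have h3 : (2 * μ : ℂ) = m * k := by exact_mod_cast hμ
    have h4 : (k : ℂ) * (z - e) ^ (k - 1) = k * (z - e) ^ k / (z - e) := by
      rcases k with _ | k
      · simp
      · simp only [Nat.add_sub_cancel, pow_succ]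
        field_simp
    have h5 : (μ : ℂ) * (z - e) ^ (μ - 1) = μ * (z - e) ^ μ / (z - e) := by
      rcases μ with _ | μ
      · simp
      · simp only [Nat.add_sub_cancel, pow_succ]
        field_simp
    simp only [hp, g, id, derivative_mul, derivative_X_sub_C_pow, eval_add, eval_mul, eval_pow,
      eval_sub, eval_X, eval_C, mul_one, h4, h5]
    have h6 : (z - e) ^ μ ≠ 0 := pow_ne_zero _ hze
    field_simp
    linear_combination (-b z ^ 2 * p₁.eval z) * h3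
  let D : Set ℂ := (ball (e : ℂ) ρ ∩ {z | 0 < z.im}) ∪ (ball (e : ℂ) ρ ∩ {z | 0 < ε * (z.re - e)}) ∪
    (ball (e : ℂ) ρ ∩ {z | z.im < 0})
  have hconv : Convex ℝ {z : ℂ | 0 < ε * (z.re - e)} := by
    intro x hx y hy s t hs ht hst
    simp only [mem_ofPred_eq, add_re, smul_re, smul_eq_mul] at hx hy ⊢
    have h1 : ε * (s * x.re + t * y.re - e) = s * (ε * (x.re - e)) + t * (ε * (y.re - e)) := by
      linear_combination (ε * e) * hst
    rw [h1]
    rcases hs.eq_or_lt with rfl | hs'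
    · have : t = 1 := by linarith
      subst this
      simpa using hy
    · have := mul_pos hs' hx
      have := mul_nonneg ht hy.le
      linarith
  have hpt : ∀ σ : ℝ, |σ| = 1 → (e : ℂ) + (ε * (ρ / 3) : ℝ) + (σ * (ρ / 3) : ℝ) * I ∈
      ball (e : ℂ) ρ ∩ {z | 0 < ε * (z.re - e)} := by
    intro σ hσ
    constructor
    · rw [mem_ball, dist_eq_norm, add_assoc, add_sub_cancel_left]
      refine (norm_add_le _ _).trans_lt ?_
      rw [norm_mul, norm_real, norm_real, norm_I, Real.norm_eq_abs, Real.norm_eq_abs, abs_mul,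
        abs_mul, hε1, hσ, abs_of_pos (by linarith)]
      linarith
    · simp only [mem_ofPred_eq, add_re, ofReal_re, mul_re, I_re, mul_zero, ofReal_im, I_im,
        mul_one, sub_self, add_zero, add_sub_cancel_left]
      rw [← mul_assoc, hε]
      linarith
  have hDc : IsPreconnected D := by
    refine IsPreconnected.union _ (Or.inr (hpt (-1) (by simp))) ⟨(hpt (-1) (by simp)).1, ?_⟩
      (IsPreconnected.union _ ⟨(hpt 1 (by simp)).1, ?_⟩ (hpt 1 (by simp))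
        ((convex_ball _ _).inter (convex_halfSpace_im_gt 0)).isPreconnected
        ((convex_ball _ _).inter hconv).isPreconnected)
      ((convex_ball _ _).inter (convex_halfSpace_im_lt 0)).isPreconnected
    · simp [hρ]
    · simp [hρ]
  have hDo : IsOpen D :=
    ((isOpen_ball.inter (isOpen_lt continuous_const continuous_im)).union
      (isOpen_ball.inter (isOpen_lt continuous_const (by fun_prop)))).union
      (isOpen_ball.inter (isOpen_lt continuous_im continuous_const))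
  have hcl : ∀ t ∈ closure T, ε * (t - e) ≤ 0 := fun t ht =>
    closure_minimal (t := {t | ε * (t - e) ≤ 0}) hT1
      (isClosed_le (by fun_prop) continuous_const) ht
  have hD1 : ∀ z ∈ D, z ∈ ball (e : ℂ) ρ \ {(e : ℂ)} ∧ (z.im ≠ 0 ∨ z.re ∉ closure T) := by
    rintro z ((hz | hz) | hz)
    · refine ⟨⟨hz.1, fun h' => ?_⟩, Or.inl (ne_of_gt hz.2)⟩
      have := hz.2
      simp [mem_singleton_iff.1 h'] at this
    · refine ⟨⟨hz.1, fun h' => ?_⟩, Or.inr fun h' => absurd (hcl _ h') (not_le.2 hz.2)⟩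
      have := hz.2
      simp [mem_singleton_iff.1 h'] at this
    · refine ⟨⟨hz.1, fun h' => ?_⟩, Or.inl (ne_of_lt hz.2)⟩
      have := hz.2
      simp [mem_singleton_iff.1 h'] at this
  have hsub : ball (e : ℂ) ρ \ {(e : ℂ)} ⊆ ball (e : ℂ) ρ₀ \ {(e : ℂ)} :=
    fun z hz => ⟨(hball hz.1).1, hz.2⟩
  have hW : ∀ z ∈ D, HasDerivAt (fun z => (Y z - F z) ^ 2 / g z) 0 z := by
    intro z hz
    obtain ⟨h1, h2⟩ := hD1 z hz
    obtain ⟨h3, h4⟩ := hY z (hsub h1)
    have h5 := ((h4.fun_sub (h.sol z ⟨h2, h3⟩).2).fun_pow 2).fun_div (hg z h1).2 (hg z h1).1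
    refine h5.congr_deriv ?_
    have := (hg z h1).1
    field_simp
    ring
  obtain ⟨s, hs1, hs2⟩ := (hT2.and (Ioo_mem_nhdsGT hρ)).exists
  set x : ℝ := e - ε * s with hx
  have hxb : (x : ℂ) ∈ ball (e : ℂ) ρ \ {(e : ℂ)} := by
    constructor
    · rw [mem_ball, dist_eq_norm, ← ofReal_sub, norm_real, hx, sub_sub_cancel_left, norm_neg,
        Real.norm_eq_abs, abs_mul, hε1, one_mul, abs_of_pos hs2.1]
      exact hs2.2
    · intro h'
      have h1 : x = e := ofReal_injective (mem_singleton_iff.1 h')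
      have h2 : ε * (ε * s) = 0 := by rw [show ε * s = 0 by linarith, mul_zero]
      rw [← mul_assoc, hε, one_mul] at h2
      exact hs2.1.ne' h2
  obtain ⟨δ, hδ, hδb⟩ := Metric.isOpen_iff.1 (isOpen_ball.sdiff isClosed_singleton) _ hxb
  obtain ⟨Fp, Fm, -, -, -, -, e3, hj⟩ := h.exists_sides (ofReal_im x) hδ
    (fun z hz => (hY z (hsub (hδb hz))).1)
  obtain ⟨l1, l2⟩ := e3 x (mem_ball_self hδ) (ofReal_im x)
  have hYc : ContinuousAt Y x := hY.continuousAt (hsub hxb)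
  have hgc : ContinuousAt g x := (hg x hxb).2.continuousAt
  have hlim1 : Tendsto (fun η : ℝ => (Y (x + η * I) - F (x + η * I)) ^ 2 / g (x + η * I))
      (𝓝[>] 0) (𝓝 ((Y x - Fp x) ^ 2 / g x)) :=
    (((hYc.tendsto.comp (tendsto_up x)).sub l1).pow 2).div (hgc.tendsto.comp (tendsto_up x))
      (hg x hxb).1
  have hlim2 : Tendsto (fun η : ℝ => (Y (x - η * I) - F (x - η * I)) ^ 2 / g (x - η * I))
      (𝓝[>] 0) (𝓝 ((Y x - Fm x) ^ 2 / g x)) :=
    (((hYc.tendsto.comp (tendsto_down x)).sub l2).pow 2).div (hgc.tendsto.comp (tendsto_down x))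
      (hg x hxb).1
  have heq : (Y x - Fp x) ^ 2 / g x = (Y x - Fm x) ^ 2 / g x := by
    refine tendsto_nhds_unique hlim1 (hlim2.congr' ?_)
    filter_upwards [(tendsto_up x).eventually (isOpen_ball.mem_nhds hxb.1),
      (tendsto_down x).eventually (isOpen_ball.mem_nhds hxb.1), self_mem_nhdsWithin]
      with η h1 h2 h3
    exact const_of_hasDerivAt_zero hDo hDc hW (Or.inr ⟨h2, by simpa using h3⟩)
      (Or.inl (Or.inl ⟨h1, by simpa using h3⟩))
  rw [div_left_inj' (hg x hxb).1] at heq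
  have hjx := hj x hs1 (mem_ball_self hδ)
  have hpx : p.eval (x : ℂ) ≠ 0 := (hY x (hsub hxb)).1
  have hax : a x ≠ 0 := by
    intro h0
    have := ha x hs1
    rw [h0, zero_pow h.hm] at this
    exact mul_ne_zero hc hpx this.symm
  obtain ⟨κ, a', hκ, ha', hlat⟩ := h.leaf_subset_lat hc ha hseed (hYl x (hsub hxb))
  simp only at hlat
  rw [upperVal, if_pos (ofReal_im x), l1.limUnder_eq] at hlat
  have h3 := two_pi_I_ne
  have h4 : 2 * κ * a' = a x := by
    have h5 : (Fp x - Fm x) * (2 * (Y x - Fp x) + (Fp x - Fm x)) = 0 := by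
      linear_combination -heq
    rw [hjx, hlat] at h5
    have h6 := (mul_eq_zero.1 h5).resolve_left (mul_ne_zero (neg_ne_zero.2 h3) hax)
    apply mul_left_cancel₀ h3
    linear_combination h6
  have h7 : (2 * κ) ^ m = 1 := by
    have h8 : (2 * κ) ^ m * a' ^ m = a x ^ m := by rw [← mul_pow, h4]
    rw [ha', ha x hs1] at h8
    exact mul_right_cancel₀ (mul_ne_zero hc hpx) (by rw [h8, one_mul])
  apply not_isIntegral_half
  obtain ⟨j, rfl⟩ := Nat.exists_eq_succ_of_ne_zero h.hm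
  have h9 : (2⁻¹ : ℂ) = κ * (2 * κ) ^ j := by
    rw [pow_succ] at h7
    linear_combination (-2⁻¹) * h7
  rw [h9]
  exact hκ.mul (((isIntegral_natCast 2).mul hκ).pow j)

end Pool.Agent.P.MP_376fb4_gt
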