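import Mathlib

/-!
Volumes of hyperplane sections.
-/

open Set Filter Topology Metric Function MeasureTheory Module
open scoped InnerProductSpace ENNReal Pointwise

noncomputable section

namespace Pool.Agent.P.MP_376fb4_gt

variable {E : Type*} [NormedAddCommGroup E] [InnerProductSpace ℝ E] [FiniteDimensional ℝ E]
  [MeasurableSpace E] [BorelSpace E]

/-- Volume of the section of `K` by the hyperplane `⟪x, ξ⟫ = t`. -/
def sec (K : Set E) (ξ : E) (t : ℝ) : ℝ≥0∞ :=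
  μHE[finrank ℝ E - 1] (K ∩ {x | ⟪x, ξ⟫_ℝ = t})

/-- The levels at which the hyperplane meets the interior of `K`. -/
def lev (K : Set E) (ξ : E) : Set ℝ := {t | ∃ x ∈ interior K, ⟪x, ξ⟫_ℝ = t}

/-- Density of the image of the volume on `K` under `⟪·, ξ⟫`. -/
def dens (K : Set E) (ξ : E) (t : ℝ) : ℝ := (sec K ξ t).toReal / ‖ξ‖

omit [MeasurableSpace E] [BorelSpace E] in
theorem finrank_perp {ξ : E} (hξ : ξ ≠ 0) : finrank ℝ (ℝ ∙ ξ)ᗮ = finrank ℝ E - 1 := by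
  have := (ℝ ∙ ξ).finrank_add_finrank_orthogonal
  rw [finrank_span_singleton hξ] at this
  omega

theorem sec_eq (K : Set E) {ξ : E} (hξ : ξ ≠ 0) {t : ℝ} {x₀ : E} (hx₀ : ⟪x₀, ξ⟫_ℝ = t) :
    sec K ξ t = volume {y : (ℝ ∙ ξ)ᗮ | x₀ + y ∈ K} := by
  have hiso : Isometry (fun y : (ℝ ∙ ξ)ᗮ => x₀ + (y : E)) :=
    (isometry_add_left x₀).comp isometry_subtype_coe
  rw [← InnerProductSpace.euclideanHausdorffMeasure_eq_volume, finrank_perp hξ,
    ← hiso.euclideanHausdorffMeasure_image, sec]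
  congr 1
  ext x
  constructor
  · rintro ⟨h1, h2⟩
    refine ⟨⟨x - x₀, Submodule.mem_orthogonal_singleton_iff_inner_left.2 ?_⟩, by simpa using h1,
      by simp⟩
    rw [inner_sub_left, hx₀, h2, sub_self]
  · rintro ⟨y, hy, rfl⟩
    refine ⟨hy, ?_⟩
    have := Submodule.mem_orthogonal_singleton_iff_inner_left.1 y.2
    simp only [mem_ofPred_eq, inner_add_left, hx₀, this, add_zero]

omit [FiniteDimensional ℝ E] in
theorem sec_mono {K K' : Set E} {ξ : E} {t : ℝ} (h : ∀ x ∈ K, ⟪x, ξ⟫_ℝ = t → x ∈ K') :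
    sec K ξ t ≤ sec K' ξ t :=
  measure_mono fun x hx => ⟨h x hx.1 hx.2, hx.2⟩

omit [FiniteDimensional ℝ E] in
theorem sec_smul (K : Set E) (ξ : E) (t : ℝ) {c : ℝ} (hc : c ≠ 0) :
    sec K (c • ξ) (c * t) = sec K ξ t := by
  unfold sec
  congr 2
  ext x
  simp only [mem_ofPred_eq, inner_smul_right, mul_right_inj' hc]

omit [FiniteDimensional ℝ E] [MeasurableSpace E] [BorelSpace E] in
theorem mem_lev_smul (K : Set E) (ξ : E) (t : ℝ) {c : ℝ} (hc : c ≠ 0) :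
    c * t ∈ lev K (c • ξ) ↔ t ∈ lev K ξ := by
  simp only [lev, mem_ofPred_eq, inner_smul_right, mul_right_inj' hc]

omit [FiniteDimensional ℝ E] [MeasurableSpace E] [BorelSpace E] in
theorem inner_unit {ξ : E} (hξ : ξ ≠ 0) (t : ℝ) : ⟪(t / ‖ξ‖ ^ 2) • ξ, ξ⟫_ℝ = t := by
  have : ‖ξ‖ ≠ 0 := norm_ne_zero_iff.2 hξ
  rw [real_inner_smul_left, real_inner_self_eq_norm_sq]
  field_simp

omit [FiniteDimensional ℝ E] [MeasurableSpace E] [BorelSpace E] in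
theorem isOpen_lev (K : Set E) {ξ : E} (hξ : ξ ≠ 0) : IsOpen (lev K ξ) := by
  rw [isOpen_iff_mem_nhds]
  rintro _ ⟨x, hx, rfl⟩
  have hc : ContinuousAt (fun t : ℝ => x + ((t - ⟪x, ξ⟫_ℝ) / ‖ξ‖ ^ 2) • ξ) ⟪x, ξ⟫_ℝ := by fun_prop
  filter_upwards [hc.eventually_mem (s := interior K)
    (by simpa using isOpen_interior.mem_nhds hx)] with t ht
  exact ⟨_, ht, by rw [inner_add_left, inner_unit hξ]; ring⟩

omit [FiniteDimensional ℝ E] [MeasurableSpace E] [BorelSpace E] in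
theorem norm_le_of_perp {ξ : E} (c : ℝ) (y : (ℝ ∙ ξ)ᗮ) : ‖y‖ ≤ ‖c • ξ + y‖ := by
  have h := Submodule.mem_orthogonal_singleton_iff_inner_right.1 y.2
  have h1 : ‖c • ξ + y‖ ^ 2 = ‖c • ξ‖ ^ 2 + ‖y‖ ^ 2 := by
    rw [norm_add_sq_real, real_inner_smul_left, h]
    simp
  refine (pow_le_pow_iff_left₀ (norm_nonneg _) (norm_nonneg _) two_ne_zero).1 ?_
  rw [h1]
  exact le_add_of_nonneg_left (by positivity)

theorem exists_sec_bound {K : Set E} (hK : IsCompact K) {ξ : E} (hξ : ξ ≠ 0) :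
    ∃ C : ℝ≥0∞, C < ∞ ∧ ∀ t, sec K ξ t ≤ C := by
  obtain ⟨R, hR⟩ := hK.isBounded.subset_closedBall 0
  refine ⟨volume (closedBall (0 : (ℝ ∙ ξ)ᗮ) R), measure_closedBall_lt_top, fun t => ?_⟩
  rw [sec_eq K hξ (inner_unit hξ t)]
  refine measure_mono fun y hy => ?_
  have := hR hy
  rw [mem_closedBall_zero_iff] at this ⊢
  exact (norm_le_of_perp _ y).trans this

theorem sec_ne_top {K : Set E} (hK : IsCompact K) {ξ : E} (hξ : ξ ≠ 0) (t : ℝ) :
    sec K ξ t ≠ ∞ := by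
  obtain ⟨C, hC, h⟩ := exists_sec_bound hK hξ
  exact ((h t).trans_lt hC).ne

theorem usc_sec {K : Set E} (hK : IsCompact K) {ξ : E} (hξ : ξ ≠ 0) :
    UpperSemicontinuous (sec K ξ) := by
  intro t₀ c hc
  obtain ⟨R, hR⟩ := hK.isBounded.subset_closedBall 0
  rw [sec_eq K hξ (inner_unit hξ t₀)] at hc
  obtain ⟨O, hO1, hO2, hO3⟩ := Set.exists_isOpen_lt_of_lt _ c hc
  have := ((isCompact_closedBall (0 : (ℝ ∙ ξ)ᗮ) R).diff hO2).eventually_forall_of_forall_eventually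
    (x₀ := t₀) (P := fun (t : ℝ) (y : (ℝ ∙ ξ)ᗮ) => (t / ‖ξ‖ ^ 2) • ξ + (y : E) ∈ Kᶜ) (by
      intro y hy
      have hc : ContinuousAt (fun z : ℝ × (ℝ ∙ ξ)ᗮ => (z.1 / ‖ξ‖ ^ 2) • ξ + (z.2 : E)) (t₀, y) := by
        fun_prop
      exact hc.eventually_mem (hK.isClosed.isOpen_compl.mem_nhds fun h => hy.2 (hO1 h)))
  filter_upwards [this] with t ht
  rw [sec_eq K hξ (inner_unit hξ t)]
  refine (measure_mono fun y hy => ?_).trans_lt hO3
  by_contra hyO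
  refine ht y ⟨?_, hyO⟩ hy
  have := hR hy
  rw [mem_closedBall_zero_iff] at this ⊢
  exact (norm_le_of_perp _ y).trans this

theorem measurable_dens {K : Set E} (hK : IsCompact K) {ξ : E} (hξ : ξ ≠ 0) :
    Measurable (dens K ξ) :=
  (usc_sec hK hξ).measurable.ennreal_toReal.div_const _

omit [FiniteDimensional ℝ E] in
theorem dens_nonneg (K : Set E) (ξ : E) (t : ℝ) : 0 ≤ dens K ξ t :=
  div_nonneg ENNReal.toReal_nonneg (norm_nonneg _)

theorem exists_dens_bound {K : Set E} (hK : IsCompact K) {ξ : E} (hξ : ξ ≠ 0) :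
    ∃ C : ℝ, ∀ t, dens K ξ t ≤ C := by
  obtain ⟨C, hC, h⟩ := exists_sec_bound hK hξ
  exact ⟨C.toReal / ‖ξ‖, fun t =>
    div_le_div_of_nonneg_right (ENNReal.toReal_mono hC.ne (h t)) (norm_nonneg _)⟩

theorem sec_quadric (A : E →ₗ[ℝ] E) (c : E) {ξ : E} (hξ : ξ ≠ 0) {d : E} (hd : ⟪d, ξ⟫_ℝ = 1)
    (hd' : ∀ y : (ℝ ∙ ξ)ᗮ, ⟪A d, A y⟫_ℝ = 0) {ρ t l : ℝ} (hρ : 0 ≤ ρ) (hl : 0 < l)
    (h : l ^ 2 = ρ ^ 2 - (t - ⟪c, ξ⟫_ℝ) ^ 2 * ‖A d‖ ^ 2) :
    (sec {x | ‖A (x - c)‖ ≤ ρ} ξ t).toReal =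
      l ^ (finrank ℝ E - 1) * (volume {y : (ℝ ∙ ξ)ᗮ | ‖A y‖ ≤ 1}).toReal := by
  rw [sec_eq _ hξ (x₀ := c + (t - ⟪c, ξ⟫_ℝ) • d)
    (by rw [inner_add_left, real_inner_smul_left, hd]; ring)]
  have : {y : (ℝ ∙ ξ)ᗮ | c + (t - ⟪c, ξ⟫_ℝ) • d + (y : E) ∈ {x | ‖A (x - c)‖ ≤ ρ}} =
      l • {y : (ℝ ∙ ξ)ᗮ | ‖A y‖ ≤ 1} := by
    ext y
    rw [mem_smul_set_iff_inv_smul_mem₀ hl.ne']
    simp only [mem_ofPred_eq, Submodule.coe_smul, map_smul, norm_smul, norm_inv,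
      Real.norm_eq_abs, abs_of_pos hl]
    rw [inv_mul_le_iff₀ hl, mul_one, show c + (t - ⟪c, ξ⟫_ℝ) • d + (y : E) - c =
      (t - ⟪c, ξ⟫_ℝ) • d + y by abel, map_add, map_smul,
      ← pow_le_pow_iff_left₀ (norm_nonneg _) hρ two_ne_zero,
      ← pow_le_pow_iff_left₀ (norm_nonneg _) hl.le two_ne_zero, norm_add_sq_real,
      real_inner_smul_left, hd' y, norm_smul, mul_pow, Real.norm_eq_abs, sq_abs, h]
    constructor <;> intro <;> linarith
  rw [this, Measure.addHaar_smul, finrank_perp hξ, ENNReal.toReal_mul,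
    ENNReal.toReal_ofReal (abs_nonneg _), abs_of_pos (pow_pos hl _)]

theorem sec_closedBall {ξ : E} (hξ : ξ ≠ 0) : ∃ ω > 0, ∀ (c : E) (ρ t : ℝ), 0 ≤ ρ →
    0 < ρ ^ 2 - (t - ⟪c, ξ⟫_ℝ) ^ 2 / ‖ξ‖ ^ 2 →
    (sec (closedBall c ρ) ξ t).toReal ^ 2 =
      ω * (ρ ^ 2 - (t - ⟪c, ξ⟫_ℝ) ^ 2 / ‖ξ‖ ^ 2) ^ (finrank ℝ E - 1) := by
  have hn : 0 < ‖ξ‖ := norm_pos_iff.2 hξ
  have hω : 0 < (volume (closedBall (0 : (ℝ ∙ ξ)ᗮ) 1)).toReal :=
    ENNReal.toReal_pos (measure_closedBall_pos _ _ one_pos).ne' measure_closedBall_lt_top.ne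
  refine ⟨(volume (closedBall (0 : (ℝ ∙ ξ)ᗮ) 1)).toReal ^ 2, by positivity,
    fun c ρ t hρ hpos => ?_⟩
  have h := sec_quadric LinearMap.id c hξ (inner_unit hξ 1) (fun y => by
      have := Submodule.mem_orthogonal_singleton_iff_inner_right.1 y.2
      simp [real_inner_smul_left, this]) (t := t) hρ (Real.sqrt_pos.2 hpos) (by
      rw [Real.sq_sqrt hpos.le, LinearMap.id_apply, norm_smul, Real.norm_eq_abs,
        abs_of_pos (by positivity)]
      field_simp)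
  have e1 : {x | ‖(LinearMap.id : E →ₗ[ℝ] E) (x - c)‖ ≤ ρ} = closedBall c ρ := by
    ext x
    simp [dist_eq_norm]
  have e2 : {y : (ℝ ∙ ξ)ᗮ | ‖(LinearMap.id : E →ₗ[ℝ] E) y‖ ≤ 1} = closedBall 0 1 := by
    ext x
    simp
  rw [e1, e2] at h
  rw [h, mul_pow, ← pow_mul, mul_comm _ 2, pow_mul, Real.sq_sqrt hpos.le, mul_comm]

theorem dens_pos {K : Set E} (hK : IsCompact K) {ξ : E} (hξ : ξ ≠ 0) {t : ℝ} (ht : t ∈ lev K ξ) :
    0 < dens K ξ t := by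
  obtain ⟨x, hx, rfl⟩ := ht
  refine div_pos (ENNReal.toReal_pos ?_ (sec_ne_top hK hξ _)) (norm_pos_iff.2 hξ)
  rw [sec_eq K hξ rfl]
  refine (Measure.measure_pos_of_mem_nhds volume (x := 0) ?_).ne'
  have hc : ContinuousAt (fun y : (ℝ ∙ ξ)ᗮ => x + (y : E)) 0 := by fun_prop
  exact hc.eventually_mem (by simpa using mem_interior_iff_mem_nhds.1 hx)

theorem sec_eq_zero_of_finite (hn : 2 ≤ finrank ℝ E) {K : Set E} {ξ : E} (hξ : ξ ≠ 0) {t : ℝ}
    (h : (K ∩ {x | ⟪x, ξ⟫_ℝ = t}).Finite) : sec K ξ t = 0 := by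
  rw [sec_eq K hξ (inner_unit hξ t)]
  have : Nontrivial (ℝ ∙ ξ)ᗮ := by
    apply Module.nontrivial_of_finrank_pos (R := ℝ)
    rw [finrank_perp hξ]
    omega
  refine Set.Finite.measure_zero ?_ _
  refine (h.preimage (f := fun y : (ℝ ∙ ξ)ᗮ => (t / ‖ξ‖ ^ 2) • ξ + (y : E)) ?_).subset ?_
  · exact fun a _ b _ hab => Subtype.ext (add_left_cancel hab)
  · intro y hy
    refine ⟨hy, ?_⟩
    have := Submodule.mem_orthogonal_singleton_iff_inner_left.1 y.2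
    simp only [mem_ofPred_eq, inner_add_left, inner_unit hξ, this, add_zero]

theorem map_inner_eq {K : Set E} (hK : IsCompact K) {ξ : E} (hξ : ξ ≠ 0) :
    (volume.restrict K).map (fun x => ⟪x, ξ⟫_ℝ) =
      volume.withDensity fun t => ENNReal.ofReal (dens K ξ t) := by
  have hn : 0 < ‖ξ‖ := norm_pos_iff.2 hξ
  have hm : Measurable fun x : E => ⟪x, ξ⟫_ℝ := by fun_prop
  ext s hs
  have hv : (1 / ‖ξ‖ ^ 2) • ξ ≠ 0 := smul_ne_zero (by positivity) hξ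
  rw [Measure.map_apply hm hs, Measure.restrict_apply (hm hs), withDensity_apply _ hs,
    ← InnerProductSpace.euclideanHausdorffMeasure_eq_volume,
    EuclideanGeometry.euclideanHausdorffMeasure_eq_lintegral (0 : E) hv
      ((hm hs).inter hK.measurableSet), ← lintegral_indicator hs,
    ← lintegral_const_mul' _ _ enorm_ne_top]
  congr 1
  ext t
  have hset : ((AffineSubspace.mk' (t • (1 / ‖ξ‖ ^ 2) • ξ +ᵥ (0 : E))
      (ℝ ∙ (1 / ‖ξ‖ ^ 2) • ξ)ᗮ : AffineSubspace ℝ E) : Set E) = {x | ⟪x, ξ⟫_ℝ = t} := by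
    ext x
    simp only [SetLike.mem_coe, AffineSubspace.mem_mk', vadd_eq_add, add_zero, vsub_eq_sub,
      Submodule.mem_orthogonal_singleton_iff_inner_left, mem_ofPred_eq]
    rw [inner_smul_right, inner_sub_left, real_inner_smul_left, inner_unit hξ, mul_one,
      mul_eq_zero, sub_eq_zero]
    have : 1 / ‖ξ‖ ^ 2 ≠ 0 := by positivity
    tauto
  rw [hset]
  by_cases ht : t ∈ s
  · rw [indicator_of_mem ht, dens, ENNReal.ofReal_div_of_pos hn,
      ENNReal.ofReal_toReal (sec_ne_top hK hξ t), sec]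
    have e1 : (fun x => ⟪x, ξ⟫_ℝ) ⁻¹' s ∩ K ∩ {x | ⟪x, ξ⟫_ℝ = t} = K ∩ {x | ⟪x, ξ⟫_ℝ = t} := by
      ext x
      constructor
      · exact fun h => ⟨h.1.2, h.2⟩
      · refine fun h => ⟨⟨?_, h.1⟩, h.2⟩
        have : ⟪x, ξ⟫_ℝ = t := h.2
        simpa [this] using ht
    have e2 : ‖(1 / ‖ξ‖ ^ 2) • ξ‖ₑ = (ENNReal.ofReal ‖ξ‖)⁻¹ := by
      rw [← ofReal_norm_eq_enorm, ← ENNReal.ofReal_inv_of_pos hn, norm_smul, Real.norm_eq_abs,
        abs_of_pos (by positivity)]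
      congr 1
      field_simp
    rw [e1, e2, mul_comm, div_eq_mul_inv]
  · rw [indicator_of_notMem ht]
    have e1 : (fun x => ⟪x, ξ⟫_ℝ) ⁻¹' s ∩ K ∩ {x | ⟪x, ξ⟫_ℝ = t} = ∅ := by
      refine eq_empty_of_forall_notMem fun x h => ht ?_
      have : ⟪x, ξ⟫_ℝ = t := h.2
      rw [← this]
      exact h.1.1
    rw [e1]
    simp

theorem integral_inner_eq {K : Set E} (hK : IsCompact K) {ξ : E} (hξ : ξ ≠ 0) {f : ℝ → ℂ}
    (hf : Continuous f) : ∫ x in K, f ⟪x, ξ⟫_ℝ = ∫ t, (dens K ξ t : ℂ) * f t := by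
  have hm : Measurable fun x : E => ⟪x, ξ⟫_ℝ := by fun_prop
  rw [← integral_map hm.aemeasurable hf.aestronglyMeasurable, map_inner_eq hK hξ,
    integral_withDensity_eq_integral_toReal_smul (measurable_dens hK hξ).ennreal_ofReal
      (Eventually.of_forall fun _ => ENNReal.ofReal_lt_top)]
  simp only [ENNReal.toReal_ofReal (dens_nonneg K ξ _), Complex.real_smul]

theorem tendsto_poisson {d : ℝ → ℝ} (hd : Measurable d) {C : ℝ} (hC : ∀ t, |d t| ≤ C) {x : ℝ}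
    (hx : ContinuousAt d x) :
    Tendsto (fun η : ℝ => ∫ t, d t * (η / ((x - t) ^ 2 + η ^ 2))) (𝓝[>] 0)
      (𝓝 (Real.pi * d x)) := by
  have h1 : Tendsto (fun η : ℝ => ∫ s, d (x + η * s) * (1 + s ^ 2)⁻¹) (𝓝[>] 0)
      (𝓝 (∫ s : ℝ, d x * (1 + s ^ 2)⁻¹)) := by
    refine tendsto_integral_filter_of_dominated_convergence (fun s => C * (1 + s ^ 2)⁻¹) ?_ ?_
      (integrable_inv_one_add_sq.const_mul C) ?_
    · refine Eventually.of_forall fun η => Measurable.aestronglyMeasurable ?_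
      fun_prop
    · refine Eventually.of_forall fun η => Eventually.of_forall fun s => ?_
      rw [norm_mul, Real.norm_eq_abs, Real.norm_eq_abs, abs_of_pos (a := (1 + s ^ 2)⁻¹)
        (by positivity)]
      exact mul_le_mul_of_nonneg_right (hC _) (by positivity)
    · refine Eventually.of_forall fun s => Tendsto.mul_const _ (hx.tendsto.comp ?_)
      have : Continuous fun η : ℝ => x + η * s := by fun_prop
      simpa using (this.tendsto 0).mono_left nhdsWithin_le_nhds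
  rw [integral_const_mul, integral_univ_inv_one_add_sq, mul_comm] at h1
  refine h1.congr' ?_
  filter_upwards [self_mem_nhdsWithin] with η hη
  have hη0 : 0 < η := hη
  rw [← integral_add_left_eq_self (fun t => d t * (η / ((x - t) ^ 2 + η ^ 2))) x]
  have := Measure.integral_comp_mul_left (fun u => d (x + u) * (η / ((x - (x + u)) ^ 2 + η ^ 2))) η
  rw [abs_of_pos (inv_pos.2 hη0), smul_eq_mul, eq_inv_mul_iff_mul_eq₀ hη0.ne',
    ← integral_const_mul] at this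
  rw [← this]
  congr 1
  ext s
  field_simp
  ring

theorem tendsto_jump {K : Set E} (hK : IsCompact K) {ξ : E} (hξ : ξ ≠ 0) {x : ℝ}
    (hx : ContinuousAt (dens K ξ) x) :
    Tendsto (fun η : ℝ => (∫ y in K, ((x : ℂ) + η * Complex.I - (⟪y, ξ⟫_ℝ : ℝ))⁻¹) -
      ∫ y in K, ((x : ℂ) - η * Complex.I - (⟪y, ξ⟫_ℝ : ℝ))⁻¹) (𝓝[>] 0)
      (𝓝 (-(2 * Real.pi * Complex.I) * dens K ξ x)) := by
  obtain ⟨C, hC⟩ := exists_dens_bound hK hξ
  have h1 := tendsto_poisson (measurable_dens hK hξ)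
    (fun t => by rw [abs_of_nonneg (dens_nonneg K ξ t)]; exact hC t) hx
  have h2 := ((Complex.continuous_ofReal.tendsto _).comp h1).const_mul (-(2 * Complex.I))
  have e : -(2 * Complex.I) * ((Real.pi * dens K ξ x : ℝ) : ℂ) =
      -(2 * Real.pi * Complex.I) * dens K ξ x := by
    push_cast
    ring
  rw [e] at h2
  refine h2.congr' ?_
  filter_upwards [self_mem_nhdsWithin] with η hη
  have hη0 : 0 < η := hη
  have n1 : ∀ t : ℝ, (x : ℂ) + η * Complex.I - t ≠ 0 := fun t h => by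
    have := congrArg Complex.im h
    simp at this
    exact hη0.ne' this
  have n2 : ∀ t : ℝ, (x : ℂ) - η * Complex.I - t ≠ 0 := fun t h => by
    have := congrArg Complex.im h
    simp at this
    exact hη0.ne' this
  have c1 : Continuous fun t : ℝ => ((x : ℂ) + η * Complex.I - t)⁻¹ :=
    Continuous.inv₀ (by fun_prop) n1
  have c2 : Continuous fun t : ℝ => ((x : ℂ) - η * Complex.I - t)⁻¹ :=
    Continuous.inv₀ (by fun_prop) n2
  have ci : Continuous fun y : E => ⟪y, ξ⟫_ℝ := by fun_prop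
  have i1 : IntegrableOn (fun y : E => ((x : ℂ) + η * Complex.I - (⟪y, ξ⟫_ℝ : ℝ))⁻¹) K :=
    (c1.comp ci).continuousOn.integrableOn_compact hK
  have i2 : IntegrableOn (fun y : E => ((x : ℂ) - η * Complex.I - (⟪y, ξ⟫_ℝ : ℝ))⁻¹) K :=
    (c2.comp ci).continuousOn.integrableOn_compact hK
  have i3 := integral_inner_eq hK hξ
    (f := fun t : ℝ => ((x : ℂ) + η * Complex.I - t)⁻¹ - ((x : ℂ) - η * Complex.I - t)⁻¹)
    (c1.sub c2)
  rw [← integral_sub i1 i2, i3, Function.comp, ← integral_complex_ofReal, ← integral_const_mul]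
  congr 1
  ext t
  have n3 : ((x : ℂ) - t) ^ 2 + η ^ 2 =
      ((x : ℂ) + η * Complex.I - t) * ((x : ℂ) - η * Complex.I - t) := by
    linear_combination (η : ℂ) ^ 2 * Complex.I_sq
  push_cast
  rw [n3, inv_sub_inv (n1 t) (n2 t)]
  ring

end Pool.Agent.P.MP_376fb4_gt
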