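import Pool.Agent.P.MP_376fb4_gt.Local
import Pool.Agent.P.MP_376fb4_gt.Section

/-!
Support functions, directions of strict convexity, and pieces of a body.
-/

open Set Filter Topology Metric Function MeasureTheory Module
open scoped InnerProductSpace ENNReal

set_option linter.unusedSectionVars false

noncomputable section

namespace Pool.Agent.P.MP_376fb4_gt

variable {E : Type*} [NormedAddCommGroup E] [InnerProductSpace ℝ E]

/-- Support function. -/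
def hs (C : Set E) (ξ : E) : ℝ := sSup ((fun x => ⟪x, ξ⟫_ℝ) '' C)

theorem le_hs {C : Set E} (hC : IsCompact C) {x : E} (hx : x ∈ C) (ξ : E) :
    ⟪x, ξ⟫_ℝ ≤ hs C ξ :=
  le_csSup (hC.image (by fun_prop)).bddAbove ⟨x, hx, rfl⟩

theorem exists_hs {C : Set E} (hC : IsCompact C) (hne : C.Nonempty) (ξ : E) :
    ∃ x ∈ C, ⟪x, ξ⟫_ℝ = hs C ξ :=
  (hC.image (f := fun x => ⟪x, ξ⟫_ℝ) (by fun_prop)).sSup_mem (hne.image _)

theorem hs_eq {C : Set E} (hC : IsCompact C) {ξ p : E} (hp : p ∈ C)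
    (h : ∀ x ∈ C, ⟪x, ξ⟫_ℝ ≤ ⟪p, ξ⟫_ℝ) : hs C ξ = ⟪p, ξ⟫_ℝ := by
  obtain ⟨x, hx, hx'⟩ := exists_hs hC ⟨p, hp⟩ ξ
  exact le_antisymm (hx' ▸ h x hx) (le_hs hC hp ξ)

theorem continuous_hs {C : Set E} (hC : IsCompact C) : Continuous (hs C) :=
  hC.continuous_sSup (f := fun ξ x => ⟪x, ξ⟫_ℝ) (by
    change Continuous fun z : E × E => ⟪z.2, z.1⟫_ℝ
    fun_prop)

theorem hs_smul {C : Set E} (hC : IsCompact C) (hne : C.Nonempty) (ξ : E) {c : ℝ} (hc : 0 ≤ c) :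
    hs C (c • ξ) = c * hs C ξ := by
  obtain ⟨p, hp, hp'⟩ := exists_hs hC hne ξ
  rw [hs_eq hC hp, inner_smul_right, hp']
  intro x hx
  rw [inner_smul_right, inner_smul_right, hp']
  exact mul_le_mul_of_nonneg_left (le_hs hC hx ξ) hc

/-- `C` lies in a ball tangent to its supporting hyperplane with outer normal `ξ`. -/
def GoodDir (C : Set E) (ξ : E) : Prop :=
  ξ ≠ 0 ∧ ∃ p ∈ C, ∃ ρ > 0, C ⊆ closedBall (p - (ρ / ‖ξ‖) • ξ) ρ

theorem dense_goodDir [Nontrivial E] {C : Set E} (hC : IsCompact C) (hne : C.Nonempty) :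
    Dense {ξ | GoodDir C ξ} := by
  have h1 : ({0}ᶜ : Set E) ⊆ closure {ξ | GoodDir C ξ} := by
    intro ξ₀ hξ₀
    have hn : 0 < ‖ξ₀‖ := norm_pos_iff.2 hξ₀
    obtain ⟨R, hR⟩ := hC.isBounded.subset_closedBall 0
    rw [Metric.mem_closure_iff]
    intro ε hε
    set δ := min ε ‖ξ₀‖ with hδ
    have hδ0 : 0 < δ := lt_min hε hn
    set L : ℝ := (|R| + 1) / δ with hL
    have hL0 : 0 < L := by positivity
    obtain ⟨p, hp, hmax⟩ := hC.exists_isMaxOn hne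
      (f := fun x => ‖x + L • ξ₀‖) (by fun_prop)
    have hsmall : ‖L⁻¹ • p‖ < δ := by
      rw [norm_smul, norm_inv, Real.norm_eq_abs, abs_of_pos hL0, inv_mul_lt_iff₀ hL0, hL,
        div_mul_cancel₀ _ hδ0.ne']
      have := hR hp
      rw [mem_closedBall_zero_iff] at this
      linarith [le_abs_self R]
    have hne0 : ξ₀ + L⁻¹ • p ≠ 0 := by
      intro h
      rw [eq_neg_of_add_eq_zero_left h, norm_neg] at hδ
      linarith [min_le_right ε ‖L⁻¹ • p‖]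
    have hn' : 0 < ‖ξ₀ + L⁻¹ • p‖ := norm_pos_iff.2 hne0
    refine ⟨ξ₀ + L⁻¹ • p, ⟨hne0, p, hp, L * ‖ξ₀ + L⁻¹ • p‖, by positivity, fun x hx => ?_⟩, ?_⟩
    · have e1 : L • (ξ₀ + L⁻¹ • p) = p + L • ξ₀ := by
        rw [smul_add, smul_inv_smul₀ hL0.ne', add_comm]
      have e2 : L * ‖ξ₀ + L⁻¹ • p‖ = ‖p + L • ξ₀‖ := by
        rw [← e1, norm_smul, Real.norm_eq_abs, abs_of_pos hL0]
      rw [mul_div_cancel_right₀ _ hn'.ne', e1, e2, mem_closedBall, dist_eq_norm,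
        show x - (p - (p + L • ξ₀)) = x + L • ξ₀ by abel]
      exact hmax hx
    · rw [dist_eq_norm, sub_add_cancel_left, norm_neg]
      exact hsmall.trans_le (min_le_left _ _)
  exact ((dense_compl_singleton (0 : E)).mono h1).of_closure

theorem inner_le_of_mem_ball {ξ p x : E} (hξ : ξ ≠ 0) {ρ : ℝ} (hρ : 0 < ρ)
    (hx : x ∈ closedBall (p - (ρ / ‖ξ‖) • ξ) ρ) :
    ‖ξ‖ * ‖x - p‖ ^ 2 + 2 * ρ * (⟪x, ξ⟫_ℝ - ⟪p, ξ⟫_ℝ) ≤ 0 := by
  have hn : 0 < ‖ξ‖ := norm_pos_iff.2 hξ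
  rw [mem_closedBall, dist_eq_norm,
    show x - (p - (ρ / ‖ξ‖) • ξ) = (x - p) + (ρ / ‖ξ‖) • ξ by abel] at hx
  have h1 := pow_le_pow_left₀ (norm_nonneg _) hx 2
  rw [norm_add_sq_real, inner_smul_right, norm_smul, Real.norm_eq_abs,
    abs_of_pos (by positivity), div_mul_cancel₀ _ hn.ne', inner_sub_left] at h1
  have h2 : ‖x - p‖ ^ 2 + 2 * (ρ / ‖ξ‖ * (⟪x, ξ⟫_ℝ - ⟪p, ξ⟫_ℝ)) ≤ 0 := by linarith
  have h3 := mul_le_mul_of_nonneg_left h2 hn.le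
  field_simp at h3
  linarith

theorem GoodDir.unique {C : Set E} {ξ : E} (h : GoodDir C ξ) {x y : E} (hx : x ∈ C) (hy : y ∈ C)
    (hx' : ∀ z ∈ C, ⟪z, ξ⟫_ℝ ≤ ⟪x, ξ⟫_ℝ) (hy' : ⟪y, ξ⟫_ℝ = ⟪x, ξ⟫_ℝ) : x = y := by
  obtain ⟨hξ, p, hp, ρ, hρ, hsub⟩ := h
  have hn : 0 < ‖ξ‖ := norm_pos_iff.2 hξ
  have key : ∀ z ∈ C, ⟪p, ξ⟫_ℝ ≤ ⟪z, ξ⟫_ℝ → z = p := by
    intro z hz hz'
    have h1 := inner_le_of_mem_ball hξ hρ (hsub hz)
    have h2 : ‖ξ‖ * ‖z - p‖ ^ 2 ≤ 0 := by nlinarith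
    have h3 : ‖z - p‖ ^ 2 ≤ 0 := by
      by_contra hc
      push Not at hc
      linarith [mul_pos hn hc]
    have h4 : ‖z - p‖ = 0 := by
      have := sq_nonneg ‖z - p‖
      exact pow_eq_zero_iff two_ne_zero |>.1 (le_antisymm h3 this)
    exact sub_eq_zero.1 (norm_eq_zero.1 h4)
  rw [key x hx (hx' p hp), key y hy (hy' ▸ hx' p hp)]

/-- `K` is the disjoint union of the closed sets `A` and `B`. -/
structure Split (K A B : Set E) : Prop where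
  cA : IsClosed A
  cB : IsClosed B
  disj : Disjoint A B
  union : A ∪ B = K

theorem Split.symm {K A B : Set E} (h : Split K A B) : Split K B A :=
  ⟨h.cB, h.cA, h.disj.symm, (union_comm _ _).trans h.union⟩

theorem Split.subset {K A B : Set E} (h : Split K A B) : A ⊆ K := h.union ▸ subset_union_left

theorem Split.compact {K A B : Set E} (h : Split K A B) (hK : IsCompact K) : IsCompact A :=
  hK.of_isClosed_subset h.cA h.subset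

theorem Split.pre {K A B : Set E} (h : Split K A B) {S : Set E} (hS : IsPreconnected S)
    (hSK : S ⊆ K) {p : E} (hp : p ∈ S) (hpA : p ∈ A) : S ⊆ A := by
  rcases isPreconnected_iff_subset_of_disjoint_closed.1 hS A B h.cA h.cB (h.union ▸ hSK)
    (by rw [h.disj.inter_eq, inter_empty]) with h1 | h1
  · exact h1
  · exact absurd (h1 hp) (Set.disjoint_left.1 h.disj hpA)

theorem Geo.inner_tangent {K A B : Set E} (hK : Geo K) (h : Split K A B) {η p : E} (hη : η ≠ 0)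
    (hp : p ∈ A) (hmax : ∀ x ∈ A, ⟪x, η⟫_ℝ ≤ ⟪p, η⟫_ℝ) :
    ∃ ρ > 0, closedBall (p - (ρ / ‖η‖) • η) ρ ⊆ K := by
  have hn : 0 < ‖η‖ := norm_pos_iff.2 hη
  have hunit : ∀ ρ : ℝ, 0 < ρ → ‖(ρ / ‖η‖) • η‖ = ρ := fun ρ hρ => by
    rw [norm_smul, Real.norm_eq_abs, abs_of_pos (by positivity), div_mul_cancel₀ _ hn.ne']
  have hinner : ∀ ρ : ℝ, ⟪(ρ / ‖η‖) • η, η⟫_ℝ = ρ * ‖η‖ := fun ρ => by
    rw [real_inner_smul_left, real_inner_self_eq_norm_sq]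
    field_simp
  have hfr : p ∈ frontier K := by
    refine ⟨subset_closure (h.subset hp), fun hint => ?_⟩
    obtain ⟨δ, hδ, hball⟩ := Metric.nhds_basis_closedBall.mem_iff.1
      (mem_interior_iff_mem_nhds.1 hint)
    have h1 := h.pre (convex_closedBall p δ).isPreconnected hball (mem_closedBall_self hδ.le) hp
    have h2 := hmax (p + (δ / ‖η‖) • η) (h1 (by
      rw [mem_closedBall, dist_eq_norm, add_sub_cancel_left, hunit δ hδ]))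
    rw [inner_add_left, hinner] at h2
    linarith [mul_pos hδ hn]
  obtain ⟨c, ρ, hρ, hsub, hdist⟩ := hK.ball p hfr
  have h1 := h.pre (convex_closedBall c ρ).isPreconnected hsub (mem_closedBall.2 hdist.le) hp
  have h2 := hmax (c + (ρ / ‖η‖) • η) (h1 (by
    rw [mem_closedBall, dist_eq_norm, add_sub_cancel_left, hunit ρ hρ]))
  rw [inner_add_left, hinner] at h2
  have h3 : ‖(p - c) - (ρ / ‖η‖) • η‖ ^ 2 ≤ 0 := by
    rw [norm_sub_sq_real, hunit ρ hρ, ← dist_eq_norm, hdist, inner_smul_right, inner_sub_left]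
    have h4 : ρ / ‖η‖ * (ρ * ‖η‖) ≤ ρ / ‖η‖ * (⟪p, η⟫_ℝ - ⟪c, η⟫_ℝ) :=
      mul_le_mul_of_nonneg_left (by linarith) (by positivity)
    have h5 : ρ / ‖η‖ * (ρ * ‖η‖) = ρ ^ 2 := by field_simp
    linarith
  have h4 : (p - c) - (ρ / ‖η‖) • η = 0 :=
    norm_eq_zero.1 (pow_eq_zero_iff two_ne_zero |>.1 (le_antisymm h3 (sq_nonneg _)))
  refine ⟨ρ, hρ, ?_⟩
  rwa [show p - (ρ / ‖η‖) • η = c by rw [← sub_eq_zero, ← h4]; abel]

theorem Geo.loc' {K : Set E} (hK : Geo K) {p : E} (hp : p ∈ K) :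
    ∃ U, IsOpen U ∧ p ∈ U ∧ IsPreconnected (U ∩ interior K) := by
  by_cases hint : p ∈ interior K
  · obtain ⟨δ, hδ, hball⟩ := Metric.isOpen_iff.1 isOpen_interior p hint
    refine ⟨Metric.ball p δ, isOpen_ball, mem_ball_self hδ, ?_⟩
    rw [inter_eq_left.2 hball]
    exact (convex_ball p δ).isPreconnected
  · obtain ⟨U, h1, h2, h3, -⟩ := hK.loc p ⟨subset_closure hp, hint⟩
    exact ⟨U, h1, h2, h3⟩

theorem Geo.exists_cover {K : Set E} (hK : Geo K) : ∃ (t : Finset E) (W : E → Set E),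
    (∀ i, IsPreconnected (W i)) ∧ (∀ i, W i ⊆ interior K) ∧ K = ⋃ i ∈ t, closure (W i) := by
  have : ∀ p, ∃ U, p ∈ K → IsOpen U ∧ p ∈ U ∧ IsPreconnected (U ∩ interior K) := by
    intro p
    by_cases hp : p ∈ K
    · obtain ⟨U, hU⟩ := hK.loc' hp
      exact ⟨U, fun _ => hU⟩
    · exact ⟨∅, fun h => absurd h hp⟩
  choose U hU using this
  obtain ⟨t, ht1, ht2⟩ := hK.compact.elim_nhds_subcover U
    fun p hp => (hU p hp).1.mem_nhds (hU p hp).2.1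
  classical
  refine ⟨t, fun p => if p ∈ K then U p ∩ interior K else ∅, fun p => ?_, fun p => ?_, ?_⟩
  · dsimp only
    split_ifs with hp
    · exact (hU p hp).2.2
    · exact isPreconnected_empty
  · dsimp only
    split_ifs with hp
    · exact inter_subset_right
    · exact empty_subset _
  · rw [← t.closure_biUnion]
    conv_lhs => rw [← hK.clos]
    congr 1
    ext x
    simp only [mem_iUnion]
    constructor
    · intro hx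
      obtain ⟨p, hp, hxp⟩ := mem_iUnion₂.1 (ht2 (interior_subset hx))
      exact ⟨p, hp, by rw [if_pos (ht1 p hp)]; exact ⟨hxp, hx⟩⟩
    · rintro ⟨p, hp, hx⟩
      rw [if_pos (ht1 p hp)] at hx
      exact hx.2

theorem side_of_not_lev {K S : Set E} (hS : IsPreconnected S) (hSK : S ⊆ interior K) {ξ : E}
    {t : ℝ} (ht : t ∉ lev K ξ) :
    S ⊆ {x | ⟪x, ξ⟫_ℝ < t} ∨ S ⊆ {x | t < ⟪x, ξ⟫_ℝ} := by
  refine hS.subset_or_subset (isOpen_lt (by fun_prop) continuous_const)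
    (isOpen_lt continuous_const (by fun_prop)) ?_ fun x hx => ?_
  · rw [Set.disjoint_left]
    exact fun x h1 h2 => lt_asymm (show ⟪x, ξ⟫_ℝ < t from h1) h2
  · exact lt_or_gt_of_ne fun h => ht ⟨x, hSK hx, h⟩

theorem le_of_mem_closure {S : Set E} {ξ : E} {t : ℝ} (h : S ⊆ {x | ⟪x, ξ⟫_ℝ < t}) {x : E}
    (hx : x ∈ closure S) : ⟪x, ξ⟫_ℝ ≤ t :=
  closure_minimal (t := {x | ⟪x, ξ⟫_ℝ ≤ t})
    (fun y hy => show ⟪y, ξ⟫_ℝ ≤ t from le_of_lt (h hy))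
    (isClosed_le (by fun_prop) continuous_const) hx

theorem ge_of_mem_closure {S : Set E} {ξ : E} {t : ℝ} (h : S ⊆ {x | t < ⟪x, ξ⟫_ℝ}) {x : E}
    (hx : x ∈ closure S) : t ≤ ⟪x, ξ⟫_ℝ :=
  closure_minimal (t := {x | t ≤ ⟪x, ξ⟫_ℝ})
    (fun y hy => show t ≤ ⟪y, ξ⟫_ℝ from le_of_lt (h hy))
    (isClosed_le continuous_const (by fun_prop)) hx

theorem Geo.exists_split {K : Set E} (hK : Geo K) {t : Finset E} {W : E → Set E}
    (hW1 : ∀ i, IsPreconnected (W i)) (hW2 : ∀ i, W i ⊆ interior K)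
    (hW3 : K = ⋃ i ∈ t, closure (W i)) {ξ : E} {t₀ : ℝ} (ht₀ : t₀ ∉ lev K ξ) :
    ∃ I : Set t, Split K (⋃ i ∈ I, closure (W i)) (⋃ i ∈ Iᶜ, closure (W i)) ∧
      (∀ x ∈ ⋃ i ∈ I, closure (W i), ⟪x, ξ⟫_ℝ ≤ t₀) ∧
      ∀ x ∈ ⋃ i ∈ Iᶜ, closure (W i), t₀ ≤ ⟪x, ξ⟫_ℝ := by
  refine ⟨{i | W i ⊆ {x | ⟪x, ξ⟫_ℝ < t₀}}, ⟨(toFinite _).isClosed_biUnion fun _ _ => isClosed_closure,
    (toFinite _).isClosed_biUnion fun _ _ => isClosed_closure, ?_, ?_⟩, ?_, ?_⟩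
  · rw [Set.disjoint_left]
    intro p hp1 hp2
    obtain ⟨i, hi, hpi⟩ := mem_iUnion₂.1 hp1
    obtain ⟨j, hj, hpj⟩ := mem_iUnion₂.1 hp2
    have hj' := (side_of_not_lev (hW1 j) (hW2 j) ht₀).resolve_left hj
    obtain ⟨U, hU1, hU2, hU3⟩ := hK.loc' (p := p) (hW3 ▸ mem_iUnion₂.2 ⟨i.1, i.2, hpi⟩)
    obtain ⟨x, hx1, hx2⟩ := mem_closure_iff.1 hpi U hU1 hU2
    obtain ⟨y, hy1, hy2⟩ := mem_closure_iff.1 hpj U hU1 hU2
    rcases side_of_not_lev hU3 inter_subset_right ht₀ with h | h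
    · exact lt_asymm (show ⟪y, ξ⟫_ℝ < t₀ from h ⟨hy1, hW2 _ hy2⟩) (hj' hy2)
    · exact lt_asymm (show t₀ < ⟪x, ξ⟫_ℝ from h ⟨hx1, hW2 _ hx2⟩) (hi hx2)
  · rw [← biUnion_union, union_compl_self, hW3]
    ext x
    simp
  · intro x hx
    obtain ⟨i, hi, hxi⟩ := mem_iUnion₂.1 hx
    exact le_of_mem_closure hi hxi
  · intro x hx
    obtain ⟨j, hj, hxj⟩ := mem_iUnion₂.1 hx
    have hj' := (side_of_not_lev (hW1 j) (hW2 j) ht₀).resolve_left hj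
    exact ge_of_mem_closure hj' hxj

/-- Directions in which `C` has a face of diameter at least `δ`. -/
def Bad (C : Set E) (δ : ℝ) : Set E :=
  {ξ | ∃ z ∈ C ×ˢ C, (∀ x ∈ C, ⟪x, ξ⟫_ℝ ≤ ⟪z.1, ξ⟫_ℝ) ∧ ⟪z.2, ξ⟫_ℝ = ⟪z.1, ξ⟫_ℝ ∧
    δ ≤ dist z.1 z.2}

theorem isClosed_bad {C : Set E} (hC : IsCompact C) (δ : ℝ) : IsClosed (Bad C δ) := by
  have : CompactSpace (C ×ˢ C : Set (E × E)) := isCompact_iff_compactSpace.1 (hC.prod hC)
  have h1 : IsClosed {w : E × (C ×ˢ C : Set (E × E)) |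
      (∀ x ∈ C, ⟪x, w.1⟫_ℝ ≤ ⟪w.2.1.1, w.1⟫_ℝ) ∧ ⟪w.2.1.2, w.1⟫_ℝ = ⟪w.2.1.1, w.1⟫_ℝ ∧
        δ ≤ dist w.2.1.1 w.2.1.2} := by
    simp only [ofPred_and, ofPred_forall]
    refine IsClosed.inter ?_ (IsClosed.inter (isClosed_eq (by fun_prop) (by fun_prop))
      (isClosed_le continuous_const (by fun_prop)))
    exact isClosed_iInter fun x => isClosed_iInter fun _ => isClosed_le (by fun_prop) (by fun_prop)
  convert isClosedMap_fst_of_compactSpace _ h1 using 1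
  ext ξ
  constructor
  · rintro ⟨z, hz, h⟩
    exact ⟨(ξ, ⟨z, hz⟩), h, rfl⟩
  · rintro ⟨⟨ξ', z, hz⟩, h, rfl⟩
    exact ⟨z, hz, h⟩

theorem interior_bad [Nontrivial E] {C : Set E} (hC : IsCompact C) {δ : ℝ} (hδ : 0 < δ) :
    interior (Bad C δ) = ∅ := by
  rw [interior_eq_empty_iff_dense_compl]
  rcases C.eq_empty_or_nonempty with rfl | hne
  · simp [Bad]
  refine (dense_goodDir hC hne).mono ?_
  rintro ξ hξ ⟨z, hz, h1, h2, h3⟩
  rw [hξ.unique hz.1 hz.2 h1 h2, dist_self] at h3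
  exact absurd hδ (not_lt.2 h3)

variable [FiniteDimensional ℝ E] [MeasurableSpace E] [BorelSpace E]

theorem sec_zero_of_not_bad (hn : 2 ≤ finrank ℝ E) {K : Set E} {t : Finset E} {W : E → Set E}
    (hW1 : ∀ i, IsPreconnected (W i)) (hW2 : ∀ i, W i ⊆ interior K)
    (hW3 : K = ⋃ i ∈ t, closure (W i)) {ξ : E} (hξ : ξ ≠ 0)
    (h : ∀ i ∈ t, ∀ k : ℕ, ξ ∉ Bad (closure (W i)) (1 / (k + 1)) ∧
      -ξ ∉ Bad (closure (W i)) (1 / (k + 1))) {t₀ : ℝ} (ht₀ : t₀ ∉ lev K ξ) :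
    sec K ξ t₀ = 0 := by
  apply sec_eq_zero_of_finite hn hξ
  rw [hW3, iUnion₂_inter]
  refine t.finite_toSet.biUnion fun i hi => Set.Subsingleton.finite fun x hx y hy => ?_
  by_contra hne
  obtain ⟨k, hk⟩ := exists_nat_one_div_lt (dist_pos.2 hne)
  have hx2 : ⟪x, ξ⟫_ℝ = t₀ := hx.2
  have hy2 : ⟪y, ξ⟫_ℝ = t₀ := hy.2
  rcases side_of_not_lev (hW1 i) (hW2 i) ht₀ with h1 | h1
  · refine (h i hi k).1 ⟨(x, y), ⟨hx.1, hy.1⟩, fun z hz => ?_, hy2.trans hx2.symm, hk.le⟩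
    rw [hx2]
    exact le_of_mem_closure h1 hz
  · refine (h i hi k).2 ⟨(x, y), ⟨hx.1, hy.1⟩, fun z hz => ?_,
      by simp only [inner_neg_right, hx2, hy2], hk.le⟩
    simp only [inner_neg_right, hx2, neg_le_neg_iff]
    exact ge_of_mem_closure h1 hz

theorem sec_tangent_ball {η : E} (hη : η ≠ 0) (p : E) {ρ : ℝ} (hρ : 0 < ρ) :
    ∃ c₁ > 0, ∃ c₂ : ℝ, ∀ᶠ s in 𝓝[>] (0 : ℝ),
      c₁ * s ^ (finrank ℝ E - 1) ≤
        (sec (closedBall (p - (ρ / ‖η‖) • η) ρ) η (⟪p, η⟫_ℝ - s)).toReal ^ 2 ∧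
      (sec (closedBall (p - (ρ / ‖η‖) • η) ρ) η (⟪p, η⟫_ℝ - s)).toReal ^ 2 ≤
        c₂ * s ^ (finrank ℝ E - 1) := by
  have hn : 0 < ‖η‖ := norm_pos_iff.2 hη
  obtain ⟨ω, hω, h⟩ := sec_closedBall hη
  refine ⟨ω * (ρ / ‖η‖) ^ (finrank ℝ E - 1), by positivity,
    ω * (2 * ρ / ‖η‖) ^ (finrank ℝ E - 1), ?_⟩
  filter_upwards [Ioo_mem_nhdsGT (mul_pos hρ hn)] with s hs
  have e : ρ ^ 2 - (⟪p, η⟫_ℝ - s - ⟪p - (ρ / ‖η‖) • η, η⟫_ℝ) ^ 2 / ‖η‖ ^ 2 =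
      (2 * ρ - s / ‖η‖) / ‖η‖ * s := by
    rw [inner_sub_left, real_inner_smul_left, real_inner_self_eq_norm_sq]
    field_simp
    ring
  have h1 : s / ‖η‖ < ρ := (div_lt_iff₀ hn).2 hs.2
  have h2 : 0 < s / ‖η‖ := div_pos hs.1 hn
  have h3 : 0 < (2 * ρ - s / ‖η‖) / ‖η‖ * s := mul_pos (div_pos (by linarith) hn) hs.1
  rw [h _ ρ _ hρ.le (e ▸ h3), e, mul_assoc, mul_assoc, ← mul_pow, ← mul_pow]
  have hs0 := hs.1
  constructor
  · gcongr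
    linarith
  · gcongr
    linarith

theorem Geo.lower_bound {K A B : Set E} (hK : Geo K) (h : Split K A B) (hA : A.Nonempty) {η : E}
    (hη : η ≠ 0) : ∃ c > 0, ∀ᶠ s in 𝓝[>] (0 : ℝ), hs A η - s ∈ lev K η ∧
      c * s ^ (finrank ℝ E - 1) ≤ dens K η (hs A η - s) ^ 2 := by
  have hn : 0 < ‖η‖ := norm_pos_iff.2 hη
  obtain ⟨p, hp, hp'⟩ := exists_hs (h.compact hK.compact) hA η
  obtain ⟨ρ, hρ, hsub⟩ := hK.inner_tangent h hη hp
    fun x hx => hp' ▸ le_hs (h.compact hK.compact) hx η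
  obtain ⟨c₁, hc₁, c₂, hev⟩ := sec_tangent_ball hη p hρ
  refine ⟨c₁ / ‖η‖ ^ 2, by positivity, ?_⟩
  filter_upwards [hev, Ioo_mem_nhdsGT (mul_pos hρ hn)] with s hs1 hs2
  rw [← hp']
  constructor
  · refine ⟨p - (s / ‖η‖ ^ 2) • η, ?_, by rw [inner_sub_left, inner_unit hη]⟩
    refine interior_mono hsub (ball_subset_interior_closedBall ?_)
    have h1 : s / ‖η‖ < ρ := (div_lt_iff₀ hn).2 hs2.2
    have h2 : 0 < s / ‖η‖ := div_pos hs2.1 hn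
    rw [mem_ball, dist_eq_norm, sub_sub_sub_cancel_left, ← sub_smul, norm_smul, Real.norm_eq_abs,
      show ρ / ‖η‖ - s / ‖η‖ ^ 2 = (ρ - s / ‖η‖) / ‖η‖ by field_simp,
      abs_of_pos (div_pos (by linarith) hn), div_mul_cancel₀ _ hn.ne']
    linarith
  · rw [dens, div_pow, div_mul_eq_mul_div]
    refine div_le_div_of_nonneg_right (hs1.1.trans ?_) (by positivity)
    exact pow_le_pow_left₀ ENNReal.toReal_nonneg (ENNReal.toReal_mono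
      (sec_ne_top hK.compact hη _) (sec_mono fun x hx _ => hsub hx)) 2

theorem upper_bound {K A B : Set E} (hK : IsCompact K) (h : Split K A B) {η : E}
    (hη : GoodDir A η) (hB : ∀ x ∈ B, hs A η ≤ ⟪x, η⟫_ℝ) :
    ∃ C : ℝ, ∀ᶠ s in 𝓝[>] (0 : ℝ), dens K η (hs A η - s) ^ 2 ≤ C * s ^ (finrank ℝ E - 1) := by
  obtain ⟨hη0, p, hp, ρ, hρ, hsub⟩ := hη
  have hn : 0 < ‖η‖ := norm_pos_iff.2 hη0
  have hp' : hs A η = ⟪p, η⟫_ℝ := hs_eq (h.compact hK) hp fun x hx => by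
    have h1 := inner_le_of_mem_ball hη0 hρ (hsub hx)
    have h2 : 0 ≤ ‖η‖ * ‖x - p‖ ^ 2 := by positivity
    nlinarith
  obtain ⟨c₁, hc₁, c₂, hev⟩ := sec_tangent_ball hη0 p hρ
  refine ⟨c₂ / ‖η‖ ^ 2, ?_⟩
  filter_upwards [hev, self_mem_nhdsWithin] with s hs1 hs2
  rw [dens, div_pow, div_mul_eq_mul_div, hp']
  refine div_le_div_of_nonneg_right (le_trans ?_ hs1.2) (by positivity)
  refine pow_le_pow_left₀ ENNReal.toReal_nonneg (ENNReal.toReal_mono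
    (sec_ne_top (isCompact_closedBall _ _) hη0 _) (sec_mono fun x hx hx' => hsub ?_)) 2
  rw [← h.union] at hx
  refine hx.resolve_right fun hxB => ?_
  have := hB x hxB
  have hs0 : 0 < s := hs2
  linarith

end Pool.Agent.P.MP_376fb4_gt
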