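import Pool.Agent.P.MP_376fb4_gt.Alg
import Pool.Agent.P.MP_376fb4_gt.Cauchy
import Pool.Agent.P.MP_376fb4_gt.RealDir
import Pool.Agent.P.MP_376fb4_gt.Support

/-!
The moment recurrence for a real direction: existence and uniqueness of solutions.
-/

open Set Filter Topology Polynomial Metric MeasureTheory Module
open scoped InnerProductSpace ENNReal

noncomputable section

namespace Pool.Agent.P.MP_376fb4_gt

variable {E : Type*} [NormedAddCommGroup E] [InnerProductSpace ℝ E] [FiniteDimensional ℝ E]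
  [MeasurableSpace E] [BorelSpace E]

/-- The hypotheses of the problem. -/
structure Hyp (K : Set E) (m : ℕ) : Prop where
  geo : Geo K
  hn : 2 ≤ finrank ℝ E
  hm : m ≠ 0
  hP : ∀ ξ, ‖ξ‖ = 1 → ∃ P : ℝ[X], ∀ t ∈ lev K ξ, (sec K ξ t).toReal ^ m = P.eval t

/-- The linear functional of a real direction, with complex values. -/
def wK (ξ : E) (x : E) : ℂ := ((⟪x, ξ⟫_ℝ : ℝ) : ℂ)

omit [FiniteDimensional ℝ E] [MeasurableSpace E] [BorelSpace E] in
theorem continuous_wK (ξ : E) : Continuous (wK ξ) := by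
  unfold wK
  fun_prop

theorem finite_restrict {K : Set E} (hK : IsCompact K) : IsFiniteMeasure (volume.restrict K) :=
  isFiniteMeasure_restrict.2 hK.measure_ne_top

theorem ae_of_forall_mem {K : Set E} (hK : IsCompact K) {p : E → Prop} (h : ∀ x ∈ K, p x) :
    ∀ᵐ x ∂(volume.restrict K), p x :=
  (ae_restrict_iff' hK.measurableSet).2 (Eventually.of_forall h)

theorem exists_bound_cont {K : Set E} (hK : IsCompact K) {w : E → ℂ} (hw : Continuous w) :
    ∃ R, 0 ≤ R ∧ ∀ᵐ x ∂(volume.restrict K), ‖w x‖ ≤ R := by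
  obtain ⟨C, hC⟩ := hK.exists_bound_of_continuousOn hw.continuousOn
  exact ⟨max C 0, le_max_right _ _, ae_of_forall_mem hK fun x hx =>
    (hC x hx).trans (le_max_left _ _)⟩

omit [FiniteDimensional ℝ E] in
theorem dens_sign (K : Set E) (ξ : E) (t : ℝ) {ε : ℝ} (hε : ε * ε = 1) :
    dens K (ε • ξ) (ε * t) = dens K ξ t := by
  have h0 : ε ≠ 0 := by
    rintro rfl
    simp at hε
  have h1 : |ε| = 1 := by
    rcases mul_self_eq_one_iff.1 hε with h | h <;> simp [h]
  rw [dens, dens, sec_smul K ξ t h0, norm_smul, Real.norm_eq_abs, h1, one_mul]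

theorem integrable_dens_mul {K : Set E} (hK : IsCompact K) {ξ : E} (hξ : ξ ≠ 0) {f : ℝ → ℝ}
    (hf : Continuous f) : Integrable fun t => dens K ξ t * f t := by
  have hm : Measurable fun x : E => ⟪x, ξ⟫_ℝ := by fun_prop
  have h1 : Integrable f ((volume.restrict K).map fun x => ⟪x, ξ⟫_ℝ) := by
    rw [integrable_map_measure hf.aestronglyMeasurable hm.aemeasurable]
    exact (hf.comp (by fun_prop)).continuousOn.integrableOn_compact hK
  rw [map_inner_eq hK hξ, integrable_withDensity_iff_integrable_smul'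
    (measurable_dens hK hξ).ennreal_ofReal
    (Eventually.of_forall fun _ => ENNReal.ofReal_lt_top)] at h1
  simpa only [ENNReal.toReal_ofReal (dens_nonneg K ξ _), smul_eq_mul] using h1

theorem tendsto_dens_zero {K : Set E} (hK : IsCompact K) {ξ : E} (hξ : ξ ≠ 0) {t₀ : ℝ}
    (h : sec K ξ t₀ = 0) : Tendsto (dens K ξ) (𝓝 t₀) (𝓝 0) := by
  have h1 : Tendsto (sec K ξ) (𝓝 t₀) (𝓝 0) := by
    refine tendsto_order.2 ⟨fun a ha => absurd ha (by simp), fun a ha => ?_⟩
    exact usc_sec hK hξ t₀ a (show sec K ξ t₀ < a from h ▸ ha)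
  have h2 := ((ENNReal.tendsto_toReal ENNReal.zero_ne_top).comp h1).div_const ‖ξ‖
  rw [ENNReal.toReal_zero, zero_div] at h2
  exact h2

omit [InnerProductSpace ℝ E] [FiniteDimensional ℝ E] [MeasurableSpace E] [BorelSpace E] in
theorem Geo.interior_nonempty {K : Set E} (h : Geo K) : (interior K).Nonempty := by
  have := h.ne
  rw [← h.clos] at this
  exact this.of_closure

omit [FiniteDimensional ℝ E] [MeasurableSpace E] [BorelSpace E] in
theorem Geo.lev_nonempty {K : Set E} (h : Geo K) (ξ : E) : (lev K ξ).Nonempty :=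
  let ⟨x, hx⟩ := h.interior_nonempty
  ⟨_, x, hx, rfl⟩

omit [FiniteDimensional ℝ E] [MeasurableSpace E] [BorelSpace E] in
theorem Geo.mem_closure_lev {K : Set E} (h : Geo K) (ξ : E) {x : E} (hx : x ∈ K) :
    ⟪x, ξ⟫_ℝ ∈ closure (lev K ξ) := by
  rw [← h.clos] at hx
  exact map_mem_closure (f := fun x : E => ⟪x, ξ⟫_ℝ) (by fun_prop) hx fun y hy => ⟨y, hy, rfl⟩

variable {K : Set E} {m : ℕ}

omit [FiniteDimensional ℝ E] in
theorem Hyp.exists_poly (h : Hyp K m) {ξ : E} (hξ : ξ ≠ 0) :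
    ∃ P : ℝ[X], ∀ t ∈ lev K ξ, dens K ξ t ^ m = P.eval t := by
  have hn : ‖ξ‖ ≠ 0 := norm_ne_zero_iff.2 hξ
  obtain ⟨P, hP⟩ := h.hP (‖ξ‖⁻¹ • ξ) (by rw [norm_smul, norm_inv, norm_norm, inv_mul_cancel₀ hn])
  refine ⟨C (‖ξ‖⁻¹ ^ m) * P.comp (C ‖ξ‖⁻¹ * X), fun t ht => ?_⟩
  have := hP _ ((mem_lev_smul K ξ t (inv_ne_zero hn)).2 ht)
  rw [sec_smul K ξ t (inv_ne_zero hn)] at this
  simp only [eval_mul, eval_C, eval_comp, eval_X, ← this, dens]
  ring

theorem hasDerivAt_dens (hK : IsCompact K) (hm : m ≠ 0) {ξ : E} (hξ : ξ ≠ 0) {P : ℝ[X]}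
    (hP : ∀ t ∈ lev K ξ, dens K ξ t ^ m = P.eval t) {t : ℝ} (ht : t ∈ lev K ξ) :
    HasDerivAt (dens K ξ) (P.derivative.eval t * dens K ξ t / (m * P.eval t)) t := by
  have hpos : 0 < P.eval t := hP t ht ▸ pow_pos (dens_pos hK hξ ht) m
  have h1 := (P.hasDerivAt t).rpow_const (p := (m : ℝ)⁻¹) (Or.inl hpos.ne')
  have h2 : ∀ s ∈ lev K ξ, dens K ξ s = P.eval s ^ (m : ℝ)⁻¹ := fun s hs => by
    rw [← hP s hs, Real.pow_rpow_inv_natCast (dens_nonneg K ξ s) hm]
  refine (h1.congr_of_eventuallyEq ?_).congr_deriv ?_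
  · filter_upwards [(isOpen_lev K hξ).mem_nhds ht] with s hs using h2 s hs
  · rw [Real.rpow_sub_one hpos.ne', ← h2 t ht]
    field_simp

theorem Hyp.realData (h : Hyp K m) {ξ : E} (hξ : ξ ≠ 0) {N : ℕ} {q : ℂ[X]}
    (hq : q.natDegree ≤ N) (hs : Sol m (volume.restrict K) (wK ξ) q) :
    RealData m q (Efun m N q.coeff (mom (volume.restrict K) (wK ξ)))
      (cauchy (volume.restrict K) (wK ξ)) (lev K ξ) fun t => (dens K ξ t : ℂ) := by
  have hK := h.geo.compact
  have := finite_restrict hK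
  obtain ⟨R, hR0, hR⟩ := exists_bound_cont hK (continuous_wK ξ)
  have hw : AEStronglyMeasurable (wK ξ) (volume.restrict K) :=
    (continuous_wK ξ).aestronglyMeasurable
  obtain ⟨P, hP⟩ := h.exists_poly hξ
  have him : ∀ z : ℂ, z.im ≠ 0 →
      Away (volume.restrict K) (wK ξ) z ∧ Phi m (volume.restrict K) (wK ξ) q z = 0 := by
    intro z hz
    rcases lt_or_gt_of_ne hz with hz | hz
    · refine hs.Phi_sep hw hR0 hR Complex.I_ne_zero (Or.inl ⟨-z.im, by linarith, ?_⟩)
      exact Eventually.of_forall fun x => by simp [wK]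
    · refine hs.Phi_sep hw hR0 hR (neg_ne_zero.2 Complex.I_ne_zero) (Or.inl ⟨z.im, hz, ?_⟩)
      exact Eventually.of_forall fun x => by simp [wK]
  refine ⟨h.hm, ?_, (ode_of_Phi hw hR h.hm hq).mono ?_, fun x hx => ?_⟩
  · unfold Efun
    fun_prop
  · rintro z ⟨hz, hz'⟩
    refine ⟨?_, hz'⟩
    by_cases hz0 : z.im = 0
    swap
    · exact him z hz0
    have hre := hz.resolve_left (not_not.2 hz0)
    have haway : Away (volume.restrict K) (wK ξ) z := by
      obtain ⟨δ, hδ, hball⟩ := Metric.isOpen_iff.1 isClosed_closure.isOpen_compl _ hre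
      refine ⟨δ, hδ, ae_of_forall_mem hK fun x hx => ?_⟩
      have h1 : ⟪x, ξ⟫_ℝ ∉ ball z.re δ := fun h' => hball h' (h.geo.mem_closure_lev ξ hx)
      rw [mem_ball', Real.dist_eq, not_lt] at h1
      refine h1.trans ?_
      have := Complex.abs_re_le_norm (z - wK ξ x)
      simpa [wK] using this
    refine ⟨haway, ?_⟩
    have hc : ContinuousAt (Phi m (volume.restrict K) (wK ξ) q) z :=
      ((differentiableOn_Phi hw hR m q).differentiableAt
        ((isOpen_away _).mem_nhds haway)).continuousAt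
    refine tendsto_nhds_unique (hc.tendsto.comp (tendsto_up z)) ?_
    refine tendsto_const_nhds.congr' ?_
    filter_upwards [self_mem_nhdsWithin] with η hη
    have hη0 : (0 : ℝ) < η := hη
    exact (him _ (by simp [hz0, hη0.ne'])).2.symm
  · exact tendsto_jump hK hξ (hasDerivAt_dens hK h.hm hξ hP hx).continuousAt

theorem Hyp.unique (h : Hyp K m) {ξ : E} (hξ : ξ ≠ 0) {q : ℂ[X]} (hq : q ≠ 0)
    (hs : Sol m (volume.restrict K) (wK ξ) q) :
    ∃ c : ℂ, c ≠ 0 ∧ ∀ t ∈ lev K ξ, (dens K ξ t : ℂ) ^ m = c * q.eval (t : ℂ) := by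
  obtain ⟨P, hP⟩ := h.exists_poly hξ
  have hP' : ∀ t ∈ lev K ξ, (dens K ξ t : ℂ) ^ m = (P.map Complex.ofRealHom).eval (t : ℂ) := by
    intro t ht
    rw [← Complex.ofReal_pow, hP t ht]
    exact (eval_map_apply Complex.ofRealHom t).symm
  obtain ⟨c, hc⟩ := (h.realData hξ le_rfl hs).eq_C_mul hq (isOpen_lev K hξ)
    (h.geo.lev_nonempty ξ) hP'
  have hc' : ∀ t ∈ lev K ξ, (dens K ξ t : ℂ) ^ m = c * q.eval (t : ℂ) := fun t ht => by
    rw [hP' t ht, hc, eval_mul, eval_C]
  refine ⟨c, ?_, hc'⟩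
  rintro rfl
  obtain ⟨t, ht⟩ := h.geo.lev_nonempty ξ
  have := hc' t ht
  rw [zero_mul, pow_eq_zero_iff h.hm, Complex.ofReal_eq_zero] at this
  exact (dens_pos h.geo.compact hξ ht).ne' this

theorem Hyp.unique' (h : Hyp K m) {ξ : E} (hξ : ξ ≠ 0) {q q' : ℂ[X]} (hq : q ≠ 0) (hq' : q' ≠ 0)
    (hs : Sol m (volume.restrict K) (wK ξ) q) (hs' : Sol m (volume.restrict K) (wK ξ) q') :
    ∃ c : ℂ, q' = C c * q := by
  obtain ⟨c, hc, h1⟩ := h.unique hξ hq' hs'
  obtain ⟨c', hc'⟩ := (h.realData hξ le_rfl hs).eq_C_mul hq (isOpen_lev K hξ)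
    (h.geo.lev_nonempty ξ) (P := C c * q') (fun t ht => by rw [h1 t ht, eval_mul, eval_C])
  refine ⟨c⁻¹ * c', ?_⟩
  rw [C_mul, mul_assoc, ← hc', ← mul_assoc, ← C_mul, inv_mul_cancel₀ hc, C_1, one_mul]

theorem Hyp.exists_sol (h : Hyp K m) {ξ : E} (hξ : ξ ≠ 0)
    (h0 : ∀ t ∉ lev K ξ, sec K ξ t = 0) :
    ∃ q : ℂ[X], q ≠ 0 ∧ Sol m (volume.restrict K) (wK ξ) q := by
  have hK := h.geo.compact
  obtain ⟨P, hP⟩ := h.exists_poly hξ
  have hP0 : P ≠ 0 := by
    rintro rfl
    obtain ⟨t, ht⟩ := h.geo.lev_nonempty ξ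
    have := hP t ht
    rw [eval_zero, pow_eq_zero_iff h.hm] at this
    exact (dens_pos hK hξ ht).ne' this
  refine ⟨P.map Complex.ofRealHom, Polynomial.map_ne_zero hP0, fun j => ?_⟩
  have hd0 : ∀ t ∉ lev K ξ, dens K ξ t = 0 := fun t ht => by simp [dens, h0 t ht]
  have hcP := P.continuous
  have hcP' := P.derivative.continuous
  have key : ∫ t, dens K ξ t * ((m + 1) * P.derivative.eval t * t ^ j +
      m * P.eval t * (j * t ^ (j - 1))) = 0 := by
    refine integral_eq_zero_of_hasDerivAt_of_integrable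
      (f := fun t => dens K ξ t * (m * P.eval t * t ^ j)) (fun t => ?_)
      (integrable_dens_mul hK hξ (by fun_prop)) (integrable_dens_mul hK hξ (by fun_prop))
    by_cases ht : t ∈ lev K ξ
    · have hpos : 0 < P.eval t := hP t ht ▸ pow_pos (dens_pos hK hξ ht) m
      have hm : (m : ℝ) ≠ 0 := Nat.cast_ne_zero.2 h.hm
      refine ((hasDerivAt_dens hK h.hm hξ hP ht).fun_mul
        (((P.hasDerivAt t).const_mul (m : ℝ)).fun_mul (hasDerivAt_pow j t))).congr_deriv ?_
      field_simp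
      ring
    · rw [hd0 t ht, zero_mul]
      have hlim := tendsto_dens_zero hK hξ (h0 t ht)
      by_cases hPt : P.eval t = 0
      · obtain ⟨P₁, hP₁⟩ := dvd_iff_isRoot.2 hPt
        rw [hasDerivAt_iff_tendsto_slope]
        have hc1 := P₁.continuous
        have h2 : Tendsto (fun s => dens K ξ s * (m * P₁.eval s * s ^ j)) (𝓝 t)
            (𝓝 (0 * (m * P₁.eval t * t ^ j))) :=
          hlim.mul (Continuous.tendsto (f := fun s => (m * P₁.eval s * s ^ j : ℝ))
            (by fun_prop) t)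
        rw [zero_mul] at h2
        refine (h2.mono_left nhdsWithin_le_nhds).congr' ?_
        filter_upwards [self_mem_nhdsWithin] with s hs
        have hs' : s - t ≠ 0 := sub_ne_zero.2 hs
        rw [slope_def_field, hd0 t ht, hP₁]
        simp only [eval_mul, eval_sub, eval_X, eval_C]
        field_simp
        ring
      · have h2 : ∀ᶠ s in 𝓝 t, dens K ξ s ^ m ≠ P.eval s := by
          have h3 : Tendsto (fun s => dens K ξ s ^ m - P.eval s) (𝓝 t) (𝓝 (0 ^ m - P.eval t)) :=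
            (hlim.pow m).sub (hcP.tendsto t)
          rw [zero_pow h.hm, zero_sub] at h3
          filter_upwards [h3.eventually_ne (neg_ne_zero.2 hPt)] with s hs using sub_ne_zero.1 hs
        refine (hasDerivAt_const t (0 : ℝ)).congr_of_eventuallyEq ?_
        filter_upwards [h2] with s hs
        rw [hd0 s fun hs' => hs (hP s hs'), zero_mul]
  have hc1 := (P.map Complex.ofRealHom).continuous
  have hc2 := (P.map Complex.ofRealHom).derivative.continuous
  have := integral_inner_eq hK hξ (f := fun t : ℝ =>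
    (m + 1) * (P.map Complex.ofRealHom).derivative.eval (t : ℂ) * (t : ℂ) ^ j +
      m * (P.map Complex.ofRealHom).eval (t : ℂ) * (j * (t : ℂ) ^ (j - 1))) (by fun_prop)
  refine this.trans ?_
  rw [← Complex.ofReal_zero, ← key, ← integral_complex_ofReal]
  congr 1
  ext t
  have e1 : (P.map Complex.ofRealHom).eval (t : ℂ) = (P.eval t : ℝ) :=
    eval_map_apply Complex.ofRealHom t
  have e2 : (P.map Complex.ofRealHom).derivative.eval (t : ℂ) = (P.derivative.eval t : ℝ) := by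
    rw [derivative_map]
    exact eval_map_apply Complex.ofRealHom t
  rw [e1, e2]
  push_cast
  ring

end Pool.Agent.P.MP_376fb4_gt
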