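import Pool.Agent.P.MP_376fb4_gt.Line

/-!
The support function is that of an ellipsoid, and the body equals that ellipsoid.
-/

open Set Filter Topology Polynomial Metric MeasureTheory Module
open scoped InnerProductSpace ENNReal

noncomputable section

namespace Pool.Agent.P.MP_376fb4_gt

variable {E : Type*} [NormedAddCommGroup E] [InnerProductSpace ℝ E] [FiniteDimensional ℝ E]
  [MeasurableSpace E] [BorelSpace E] {K : Set E} {m : ℕ}

omit [FiniteDimensional ℝ E] [MeasurableSpace E] [BorelSpace E] in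
theorem top_coeff {f : E → ℝ} (hf : Continuous f) {k : ℕ}
    (hh : ∀ c : ℝ, 0 < c → ∀ ξ, f (c • ξ) = c ^ k * f ξ) {u v : E} {q : ℂ[X]}
    (hq : q.natDegree ≤ k) (h : ∀ ζ : ℝ, (f (u + ζ • v) : ℂ) = q.eval (ζ : ℂ)) :
    q.coeff k = f v := by
  have h1 : Continuous fun τ : ℝ => ∑ i ∈ Finset.range (k + 1), q.coeff i * (τ : ℂ) ^ (k - i) := by
    fun_prop
  have h2 : Continuous fun τ : ℝ => (f (τ • u + v) : ℂ) := by fun_prop
  have h3 := (h1.tendsto 0).mono_left (nhdsWithin_le_nhds (s := Ioi 0))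
  have h4 := (h2.tendsto 0).mono_left (nhdsWithin_le_nhds (s := Ioi 0))
  rw [Finset.sum_range_succ, Finset.sum_eq_zero fun i hi => by
    rw [Complex.ofReal_zero, zero_pow (Nat.sub_ne_zero_of_lt (Finset.mem_range.1 hi)),
      mul_zero]] at h3
  simp only [zero_add, Nat.sub_self, pow_zero, mul_one, zero_smul] at h3 h4
  refine tendsto_nhds_unique h3 (h4.congr' ?_)
  filter_upwards [self_mem_nhdsWithin] with τ hτ
  have hτ0 : 0 < τ := hτ
  have hτ1 : (τ : ℂ) ≠ 0 := Complex.ofReal_ne_zero.2 hτ0.ne'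
  have e : τ • u + v = τ • (u + τ⁻¹ • v) := by rw [smul_add, smul_inv_smul₀ hτ0.ne']
  rw [e, hh τ hτ0, Complex.ofReal_mul, h, eval_eq_sum_range' (Nat.lt_succ_of_le hq),
    Finset.mul_sum]
  refine Finset.sum_congr rfl fun i hi => ?_
  rw [pow_sub₀ _ hτ1 (Nat.le_of_lt_succ (Finset.mem_range.1 hi))]
  push_cast
  rw [inv_pow]
  ring

omit [FiniteDimensional ℝ E] [MeasurableSpace E] [BorelSpace E] in
theorem extr_smul (hK : IsCompact K) (hne : K.Nonempty) (ε : ℝ) {c : ℝ} (hc : 0 ≤ c) (ξ : E) :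
    extr K ε (c • ξ) = c * extr K ε ξ := by
  rw [extr, extr, smul_comm, hs_smul hK hne _ hc]
  ring

theorem Hyp.support (h : Hyp K m) :
    ∃ (c : E) (T : E ≃ₗ[ℝ] E), ∀ ξ, hs K ξ = ⟪c, ξ⟫_ℝ + ‖T ξ‖ := by
  have hK := h.geo.compact
  have := FiniteDimensional.complete ℝ E
  obtain ⟨G, hGo, hGd, hG⟩ := h.exists_noGap
  have hc1 := continuous_extr hK 1
  have hc2 := continuous_extr hK (-1)
  have hcont : ∀ k : ℕ, Continuous fun ξ => extr K 1 ξ ^ k + extr K (-1) ξ ^ k := fun k => by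
    fun_prop
  have key : ∀ k : ℕ, ∀ u ∈ G, ∀ v, ∃ q : ℂ[X], q.natDegree ≤ k ∧
      (∀ ζ : ℝ, ((extr K 1 (u + ζ • v) ^ k + extr K (-1) (u + ζ • v) ^ k : ℝ) : ℂ) =
        q.eval (ζ : ℂ)) ∧ q.coeff k = (extr K 1 v ^ k + extr K (-1) v ^ k : ℝ) := by
    intro k u hu v
    obtain ⟨q, hq, hq'⟩ := h.line hGo hG hu v k
    have hq'' : ∀ ζ : ℝ, ((extr K 1 (u + ζ • v) ^ k + extr K (-1) (u + ζ • v) ^ k : ℝ) : ℂ) =
        q.eval (ζ : ℂ) := fun ζ => by
      rw [← hq']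
      push_cast
      rfl
    refine ⟨q, hq, hq'', top_coeff (hcont k) (fun c hc ξ => ?_) hq hq''⟩
    rw [extr_smul hK h.geo.ne _ hc.le, extr_smul hK h.geo.ne _ hc.le]
    ring
  set σ : E → ℝ := fun ξ => extr K 1 ξ ^ 1 + extr K (-1) ξ ^ 1 with hσ
  set Q : E → ℝ := fun ξ => extr K 1 ξ ^ 2 + extr K (-1) ξ ^ 2 with hQ
  have hσc : Continuous σ := hcont 1
  have hQc : Continuous Q := hcont 2
  have hadd : ∀ u v, σ (u + v) = σ u + σ v := by
    intro u v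
    refine congrFun (Continuous.ext_on hGd (f := fun u => σ (u + v)) (g := fun u => σ u + σ v)
      (by fun_prop) (by fun_prop) fun u hu => ?_) u
    obtain ⟨q, hq, h1, h2⟩ := key 1 u hu v
    have h3 := h1 0
    have h4 := h1 1
    simp only [eval_eq_sum_range' (Nat.lt_succ_of_le hq), Finset.sum_range_succ,
      Finset.sum_range_zero, zero_smul, one_smul, add_zero] at h3 h4
    apply Complex.ofReal_injective
    simp only [hσ]
    rw [h4, Complex.ofReal_add _ (_ + _), h3, ← h2]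
    simp
  have hpar : ∀ u v, Q (u + v) + Q (u - v) = 2 * Q u + 2 * Q v := by
    intro u v
    refine congrFun (Continuous.ext_on hGd (f := fun u => Q (u + v) + Q (u - v))
      (g := fun u => 2 * Q u + 2 * Q v) (by fun_prop) (by fun_prop) fun u hu => ?_) u
    obtain ⟨q, hq, h1, h2⟩ := key 2 u hu v
    have h3 := h1 0
    have h4 := h1 1
    have h5 := h1 (-1)
    simp only [eval_eq_sum_range' (Nat.lt_succ_of_le hq), Finset.sum_range_succ,
      Finset.sum_range_zero, zero_smul, one_smul, add_zero, neg_smul, ← sub_eq_add_neg] at h3 h4 h5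
    apply Complex.ofReal_injective
    simp only [hQ]
    push_cast at h2 h3 h4 h5 ⊢
    linear_combination h4 + h5 - 2 * h3 + 2 * h2
  set σ' := (AddMonoidHom.mk' σ hadd).toRealLinearMap hσc
  have hσ' : ∀ ξ, σ' ξ = σ ξ := fun _ => rfl
  obtain ⟨B, hB, hB'⟩ := exists_bilin (q := fun ξ => Q ξ / 2 - σ ξ ^ 2 / 4) (by fun_prop) (by
    intro x y
    have h1 := hpar x y
    have h2 : σ (x - y) = σ x - σ y := map_sub σ' x y
    rw [hadd, h2]
    linarith)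
  have hB2 : ∀ ξ, B ξ ξ = ((extr K 1 ξ - extr K (-1) ξ) / 2) ^ 2 := fun ξ => by
    rw [hB']
    simp only [hQ, hσ]
    ring
  obtain ⟨T, hT⟩ := exists_equiv_of_posdef B hB fun ξ hξ => by
    rw [hB2]
    have := h.geo.extr_lt hξ
    exact pow_pos (by linarith) 2
  refine ⟨(1 / 2 : ℝ) • (InnerProductSpace.toDual ℝ E).symm σ', T, fun ξ => ?_⟩
  have h1 : extr K (-1) ξ ≤ extr K 1 ξ := by
    obtain ⟨x, hx⟩ := h.geo.ne
    linarith [le_extr hK (one_mul 1) ξ hx, le_extr hK (ε := -1) (by norm_num) ξ hx]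
  have h2 : ‖T ξ‖ = (extr K 1 ξ - extr K (-1) ξ) / 2 :=
    (pow_left_inj₀ (norm_nonneg _) (by linarith) two_ne_zero).1 ((hT ξ).trans (hB2 ξ))
  rw [real_inner_smul_left, InnerProductSpace.toDual_symm_apply, hσ', h2, ← extr_one]
  simp only [hσ]
  ring

omit [MeasurableSpace E] [BorelSpace E] in
theorem exists_dual (T : E ≃ₗ[ℝ] E) : ∃ A : E ≃ₗ[ℝ] E, ∀ x y, ⟪A x, T y⟫_ℝ = ⟪x, y⟫_ℝ := by
  have h1 : ∀ x y, ⟪LinearMap.adjoint T.symm.toLinearMap x, T y⟫_ℝ = ⟪x, y⟫_ℝ := fun x y => by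
    rw [LinearMap.adjoint_inner_left]
    simp
  refine ⟨LinearEquiv.ofInjectiveEndo (LinearMap.adjoint T.symm.toLinearMap) ?_, h1⟩
  rw [injective_iff_map_eq_zero]
  intro x hx
  have := h1 x x
  rw [hx, inner_zero_left] at this
  exact inner_self_eq_zero.1 this.symm

theorem dens_ellipsoid {A T : E ≃ₗ[ℝ] E} (hA : ∀ x y, ⟪A x, T y⟫_ℝ = ⟪x, y⟫_ℝ) (c : E) {ξ : E}
    (hξ : ξ ≠ 0) (m : ℕ) : ∃ P : ℝ[X], ∀ t ∈ Ioo (⟪c, ξ⟫_ℝ - ‖T ξ‖) (⟪c, ξ⟫_ℝ + ‖T ξ‖),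
      dens {x | ‖A (x - c)‖ ≤ 1} ξ t ^ (2 * m) = P.eval t := by
  have hT : 0 < ‖T ξ‖ := norm_pos_iff.2 ((map_ne_zero_iff T T.injective).2 hξ)
  refine ⟨C (((volume {y : (ℝ ∙ ξ)ᗮ | ‖A.toLinearMap y‖ ≤ 1}).toReal / ‖ξ‖) ^ (2 * m)) *
    (1 - (X - C ⟪c, ξ⟫_ℝ) ^ 2 * C (‖T ξ‖⁻¹ ^ 2)) ^ ((finrank ℝ E - 1) * m), fun t ht => ?_⟩
  have hd : A.toLinearMap ((‖T ξ‖⁻¹ ^ 2) • A.symm (T ξ)) = (‖T ξ‖⁻¹ ^ 2) • T ξ := by simp
  have hpos : 0 < 1 - (t - ⟪c, ξ⟫_ℝ) ^ 2 * ‖T ξ‖⁻¹ ^ 2 := by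
    have h1 : (t - ⟪c, ξ⟫_ℝ) ^ 2 < ‖T ξ‖ ^ 2 := sq_lt_sq' (by linarith [ht.1]) (by linarith [ht.2])
    rw [inv_pow, ← div_eq_mul_inv, sub_pos, div_lt_one (by positivity)]
    exact h1
  have := sec_quadric A.toLinearMap c hξ (d := (‖T ξ‖⁻¹ ^ 2) • A.symm (T ξ)) (t := t)
    (by
      rw [← hA, show A ((‖T ξ‖⁻¹ ^ 2) • A.symm (T ξ)) = _ from hd, real_inner_smul_left,
        real_inner_self_eq_norm_sq]
      field_simp)
    (fun y => by
      rw [hd, real_inner_smul_left, real_inner_comm]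
      have := hA y ξ
      rw [Submodule.mem_orthogonal_singleton_iff_inner_left.1 y.2] at this
      exact mul_eq_zero_of_right _ this)
    zero_le_one (Real.sqrt_pos.2 hpos)
    (by
      rw [Real.sq_sqrt hpos.le, hd, norm_smul, Real.norm_eq_abs, abs_of_pos (by positivity)]
      field_simp)
  simp only [eval_mul, eval_C, eval_pow, eval_sub, eval_one, eval_X]
  rw [dens, show (sec {x | ‖A (x - c)‖ ≤ 1} ξ t).toReal = _ from this, mul_div_assoc, mul_pow,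
    ← pow_mul, mul_comm, mul_left_comm (finrank ℝ E - 1), pow_mul _ 2 ((finrank ℝ E - 1) * m),
    Real.sq_sqrt hpos.le]

theorem Hyp.ellipsoid (h : Hyp K m) :
    ∃ (c : E) (L : E ≃ₗ[ℝ] E), frontier K = (fun y => c + L y) '' sphere 0 1 := by
  have hK := h.geo.compact
  have := h.nontrivial
  obtain ⟨c, T, hT⟩ := h.support
  obtain ⟨A, hA⟩ := exists_dual T
  have hAc : Continuous A := A.toLinearMap.continuous_of_finiteDimensional
  have hAc' : Continuous A.symm := A.symm.toLinearMap.continuous_of_finiteDimensional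
  set ν : E → ℝ := fun x => ‖A (x - c)‖ with hν
  have hνc : Continuous ν := by
    simp only [hν]
    fun_prop
  have hin : ∀ x ξ, ⟪x, ξ⟫_ℝ = ⟪c, ξ⟫_ℝ + ⟪A (x - c), T ξ⟫_ℝ := fun x ξ => by
    rw [hA, inner_sub_left]
    ring
  have hsub : ∀ x ∈ K, ν x ≤ 1 := by
    intro x hx
    have h1 := le_hs hK hx (T.symm (A (x - c)))
    rw [hT, hin, T.apply_symm_apply, real_inner_self_eq_norm_mul_norm] at h1
    by_contra h2
    have h3 : 1 < ‖A (x - c)‖ := not_le.1 h2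
    nlinarith
  have hbd : ∀ x, ν x = 1 → x ∈ K := by
    intro x hx
    have hx1 : ‖A (x - c)‖ = 1 := hx
    obtain ⟨y, hy, hy'⟩ := exists_hs hK h.geo.ne (T.symm (A (x - c)))
    rw [hT, hin, T.apply_symm_apply, hx1, add_right_inj] at hy'
    have h1 : ‖A (y - c)‖ ≤ 1 := hsub y hy
    have h2 : ‖A (y - c) - A (x - c)‖ ^ 2 ≤ 0 := by
      rw [norm_sub_sq_real, hy', hx1]
      nlinarith [norm_nonneg (A (y - c))]
    have h3 : A (y - c) = A (x - c) :=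
      sub_eq_zero.1 (norm_eq_zero.1 (pow_eq_zero_iff two_ne_zero |>.1 (le_antisymm h2 (by positivity))))
    rwa [← sub_left_inj.1 (A.injective h3)]
  have hout : ∀ x, ν x = 1 → ∀ U ∈ 𝓝 x, ∃ y ∈ U, 1 < ν y := by
    intro x hx U hU
    have hc : Continuous fun s : ℝ => x + s • (x - c) := by fun_prop
    have ht : Tendsto (fun s : ℝ => x + s • (x - c)) (𝓝[>] 0) (𝓝 x) := by
      simpa using (hc.tendsto 0).mono_left (nhdsWithin_le_nhds (s := Ioi 0))
    obtain ⟨s, hs1, hs2⟩ := ((ht.eventually hU).and self_mem_nhdsWithin).exists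
    have hs0 : 0 < s := hs2
    refine ⟨_, hs1, ?_⟩
    have e : x + s • (x - c) - c = (1 + s) • (x - c) := by
      rw [add_smul, one_smul]
      abel
    have hx1 : ‖A (x - c)‖ = 1 := hx
    show 1 < ‖A (x + s • (x - c) - c)‖
    rw [e, map_smul, norm_smul, hx1, Real.norm_eq_abs, abs_of_pos (by positivity)]
    linarith
  have hfr : ∀ x, ν x = 1 → x ∈ frontier K := by
    intro x hx
    rw [hK.isClosed.frontier_eq]
    refine ⟨hbd x hx, fun hi => ?_⟩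
    obtain ⟨y, hy, hy'⟩ := hout x hx K (mem_interior_iff_mem_nhds.1 hi)
    exact absurd (hsub y hy) (not_le.2 hy')
  have hEc : IsCompact {x | ν x ≤ 1} := by
    have e : {x | ν x ≤ 1} = (fun y => c + A.symm y) '' closedBall 0 1 := by
      ext x
      constructor
      · exact fun hx => ⟨A (x - c), mem_closedBall_zero_iff.2 hx, by simp⟩
      · rintro ⟨y, hy, rfl⟩
        simpa [hν] using hy
    rw [e]
    exact (isCompact_closedBall 0 1).image (by fun_prop)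
  have hD : ∀ x ∈ closure ({x | ν x ≤ 1} \ K), ν x < 1 := by
    intro x hx
    have h1 : ν x ≤ 1 := closure_minimal (t := {x | ν x ≤ 1}) sdiff_subset hEc.isClosed hx
    refine lt_of_le_of_ne h1 fun h2 => ?_
    obtain ⟨U, hUo, hxU, -, hU⟩ := h.geo.loc x (hfr x h2)
    obtain ⟨y, hy, hy'⟩ := hout x h2 U (hUo.mem_nhds hxU)
    obtain ⟨z, hz, hz1, hz2⟩ := mem_closure_iff.1 hx U hUo hxU
    have h3 : (1 : ℝ) ∈ ν '' (U \ K) :=
      (hU.image ν hνc.continuousOn).Icc_subset ⟨z, ⟨hz, hz2⟩, rfl⟩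
        ⟨y, ⟨hy, fun hyK => absurd (hsub y hyK) (not_le.2 hy')⟩, rfl⟩ ⟨hz1, hy'.le⟩
    obtain ⟨w, hw, hw'⟩ := h3
    exact hw.2 (hbd w hw')
  obtain ⟨r, hr0, hr1, hr⟩ : ∃ r : ℝ, 0 ≤ r ∧ r < 1 ∧ ∀ x, ν x ≤ 1 → x ∉ K → ν x ≤ r := by
    obtain ⟨a, ha, ha'⟩ := (hEc.of_isClosed_subset isClosed_closure
      (closure_minimal (s := {x | ν x ≤ 1} \ K) sdiff_subset hEc.isClosed)).exists_forall_le'
      (f := fun x => -ν x) (a := -1) (by fun_prop) fun x hx => neg_lt_neg (hD x hx)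
    refine ⟨max (-a) 0, le_max_right _ _, max_lt (by linarith) one_pos, fun x hx hxK => ?_⟩
    have := ha' x (subset_closure ⟨hx, hxK⟩)
    exact le_max_of_le_left (by linarith)
  obtain ⟨G, -, hGd, hG⟩ := h.exists_noGap
  obtain ⟨ξ, hξG⟩ := hGd.nonempty
  obtain ⟨hξ, hlev⟩ := hG ξ hξG
  have hTξ : 0 < ‖T ξ‖ := norm_pos_iff.2 ((map_ne_zero_iff T T.injective).2 hξ)
  rw [extr_one, extr_neg_one, hT, hT, inner_neg_right, map_neg, norm_neg, neg_add, neg_neg,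
    ← sub_eq_add_neg] at hlev
  obtain ⟨P, hP⟩ := h.exists_poly hξ
  obtain ⟨P', hP'⟩ := dens_ellipsoid hA c hξ m
  have hPP : P ^ 2 = P' := by
    refine eq_of_infinite_eval_eq _ _ ((Ioo_infinite (a := ⟪c, ξ⟫_ℝ + r * ‖T ξ‖)
      (b := ⟪c, ξ⟫_ℝ + ‖T ξ‖) (by nlinarith)).mono fun t ht => ?_)
    have ht' : t ∈ Ioo (⟪c, ξ⟫_ℝ - ‖T ξ‖) (⟪c, ξ⟫_ℝ + ‖T ξ‖) :=
      ⟨by nlinarith [ht.1], ht.2⟩
    have e : sec K ξ t = sec {x | ν x ≤ 1} ξ t := by
      refine le_antisymm (sec_mono fun x hx _ => hsub x hx) (sec_mono fun x hx hx' => ?_)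
      by_contra hxK
      have h1 : ‖A (x - c)‖ ≤ r := hr x hx hxK
      have h2 := real_inner_le_norm (A (x - c)) (T ξ)
      have h3 := hin x ξ
      nlinarith [ht.1]
    show (P ^ 2).eval t = P'.eval t
    rw [← hP' t ht', eval_pow, ← hP t (hlev t ht'), ← pow_mul, mul_comm, dens, dens, e]
  have hall : ∀ x, ν x ≤ 1 → x ∈ K := by
    intro x hx
    by_contra hxK
    have hx1 : ν x < 1 := (hr x hx hxK).trans_lt hr1
    obtain ⟨δ, hδ, hball⟩ := Metric.nhds_basis_closedBall.mem_iff.1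
      (inter_mem ((isOpen_lt hνc continuous_const).mem_nhds hx1)
        (hK.isClosed.isOpen_compl.mem_nhds hxK))
    have ht : ⟪x, ξ⟫_ℝ ∈ Ioo (⟪c, ξ⟫_ℝ - ‖T ξ‖) (⟪c, ξ⟫_ℝ + ‖T ξ‖) := by
      have h1 := abs_le.1 (abs_real_inner_le_norm (A (x - c)) (T ξ))
      have h2 : ‖A (x - c)‖ < 1 := hx1
      rw [hin x ξ]
      constructor <;> nlinarith [h1.1, h1.2]
    have h1 : dens K ξ ⟪x, ξ⟫_ℝ = dens {x | ν x ≤ 1} ξ ⟪x, ξ⟫_ℝ := by
      refine (pow_left_inj₀ (dens_nonneg _ _ _) (dens_nonneg _ _ _)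
        (mul_ne_zero two_ne_zero h.hm)).1 ?_
      rw [hP' _ ht, ← hPP, eval_pow, ← hP _ (hlev _ ht), ← pow_mul, mul_comm]
    have h2 : 0 < dens (closedBall x δ) ξ ⟪x, ξ⟫_ℝ :=
      dens_pos (isCompact_closedBall x δ) hξ
        ⟨x, mem_interior_iff_mem_nhds.2 (closedBall_mem_nhds x hδ), rfl⟩
    have h3 : sec K ξ ⟪x, ξ⟫_ℝ + sec (closedBall x δ) ξ ⟪x, ξ⟫_ℝ ≤
        sec {x | ν x ≤ 1} ξ ⟪x, ξ⟫_ℝ := by
      unfold sec
      rw [← measure_union]
      · refine measure_mono ?_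
        rintro y (hy | hy)
        · exact ⟨hsub y hy.1, hy.2⟩
        · exact ⟨le_of_lt (show ν y < 1 from (hball hy.1).1), hy.2⟩
      · exact disjoint_left.2 fun y hy hy' => (hball hy'.1).2 hy.1
      · exact (isClosed_closedBall.inter (isClosed_eq (by fun_prop) continuous_const)).measurableSet
    have h4 := ENNReal.toReal_mono (sec_ne_top hEc hξ _) h3
    rw [ENNReal.toReal_add (sec_ne_top hK hξ _) (sec_ne_top (isCompact_closedBall x δ) hξ _)] at h4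
    have h5 := div_le_div_of_nonneg_right h4 (norm_nonneg ξ)
    rw [add_div] at h5
    unfold dens at h1 h2
    linarith
  refine ⟨c, A.symm, ?_⟩
  ext x
  constructor
  · intro hx
    rw [hK.isClosed.frontier_eq] at hx
    refine ⟨A (x - c), mem_sphere_zero_iff_norm.2 (le_antisymm (hsub x hx.1) ?_), by simp⟩
    by_contra hlt
    exact hx.2 (interior_maximal (t := {x | ν x < 1}) (fun y hy => hall y (le_of_lt hy))
      (isOpen_lt hνc continuous_const) (not_le.1 hlt))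
  · rintro ⟨y, hy, rfl⟩
    exact hfr _ (by simpa [hν] using hy)

end Pool.Agent.P.MP_376fb4_gt
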