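import Pool.Agent.P.MP_376fb4_gt.Mult

/-!
The order of vanishing at the extreme levels, and the directions without gaps.
-/

open Set Filter Topology Polynomial Metric MeasureTheory Module
open scoped InnerProductSpace ENNReal

noncomputable section

namespace Pool.Agent.P.MP_376fb4_gt

variable {E : Type*} [NormedAddCommGroup E] [InnerProductSpace ℝ E] [FiniteDimensional ℝ E]
  [MeasurableSpace E] [BorelSpace E] {K A B : Set E} {m : ℕ}

/-- The top level (sign `1`) or the bottom level (sign `-1`) of `A` in direction `ξ`. -/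
def extr (A : Set E) (ε : ℝ) (ξ : E) : ℝ := ε * hs A (ε • ξ)

omit [FiniteDimensional ℝ E] [MeasurableSpace E] [BorelSpace E] in
theorem extr_one (A : Set E) (ξ : E) : extr A 1 ξ = hs A ξ := by simp [extr]

omit [FiniteDimensional ℝ E] [MeasurableSpace E] [BorelSpace E] in
theorem extr_neg_one (A : Set E) (ξ : E) : extr A (-1) ξ = -hs A (-ξ) := by simp [extr]

omit [FiniteDimensional ℝ E] [MeasurableSpace E] [BorelSpace E] in
theorem continuous_extr (hA : IsCompact A) (ε : ℝ) : Continuous (extr A ε) := by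
  have := continuous_hs hA
  unfold extr
  fun_prop

theorem Geo.lower (h : Geo K) (hs : Split K A B) (hA : A.Nonempty) {ξ : E}
    (hξ : ξ ≠ 0) {ε : ℝ} (hε : ε * ε = 1) : ∃ c > 0, ∀ᶠ s in 𝓝[>] (0 : ℝ),
      extr A ε ξ - ε * s ∈ lev K ξ ∧
        c * s ^ (finrank ℝ E - 1) ≤ dens K ξ (extr A ε ξ - ε * s) ^ 2 := by
  obtain ⟨c, hc, h1⟩ := h.lower_bound hs hA (smul_ne_zero (sign_ne_zero hε) hξ)
  refine ⟨c, hc, h1.mono fun s hs => ?_⟩
  rw [← mem_lev_smul K _ _ (sign_ne_zero hε), ← dens_sign K _ _ hε, sign_smul_smul hε,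
    mul_sub] at hs
  exact hs

theorem upper (hK : IsCompact K) (hsp : Split K A B) {ξ : E} {ε : ℝ} (hε : ε * ε = 1)
    (hg : GoodDir A (ε • ξ)) (hB : ∀ x ∈ B, hs A (ε • ξ) ≤ ⟪x, ε • ξ⟫_ℝ) :
    ∃ C : ℝ, ∀ᶠ s in 𝓝[>] (0 : ℝ),
      dens K ξ (extr A ε ξ - ε * s) ^ 2 ≤ C * s ^ (finrank ℝ E - 1) := by
  obtain ⟨c, h1⟩ := upper_bound hK hsp hg hB
  refine ⟨c, h1.mono fun s hs => ?_⟩
  rw [← dens_sign K _ _ hε, sign_smul_smul hε, mul_sub] at hs
  exact hs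

theorem Hyp.mult_le (h : Hyp K m) (hsp : Split K A B) (hA : A.Nonempty) {ξ : E} (hξ : ξ ≠ 0)
    {ε : ℝ} (hε : ε * ε = 1) {q : ℂ[X]} (hq : q ≠ 0) (hs : Sol m (volume.restrict K) (wK ξ) q)
    {k : ℕ} (hk : (X - C (extr A ε ξ : ℂ)) ^ k ∣ q) : 2 * k ≤ m * (finrank ℝ E - 1) := by
  obtain ⟨c, -, hc⟩ := h.unique hξ hq hs
  obtain ⟨c₁, hc₁, h1⟩ := h.geo.lower hsp hA hξ hε
  exact Pool.Agent.P.MP_376fb4_gt.mult_le (d := fun s => dens K ξ (extr A ε ξ - ε * s)) hε hc₁ hk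
    (h1.mono fun s hs => ⟨hc _ hs.1, hs.2⟩)

theorem Hyp.mult_ge (h : Hyp K m) (hsp : Split K A B) (hA : A.Nonempty) {ξ : E}
    {ε : ℝ} (hε : ε * ε = 1) (hg : GoodDir A (ε • ξ))
    (hB : ∀ x ∈ B, hs A (ε • ξ) ≤ ⟪x, ε • ξ⟫_ℝ) {q : ℂ[X]} (hq : q ≠ 0)
    (hs : Sol m (volume.restrict K) (wK ξ) q) :
    m * (finrank ℝ E - 1) ≤ 2 * q.rootMultiplicity (extr A ε ξ : ℂ) := by
  have hξ : ξ ≠ 0 := by
    rintro rfl
    exact hg.1 (smul_zero _)
  obtain ⟨c, hc0, hc⟩ := h.unique hξ hq hs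
  obtain ⟨c₁, -, h1⟩ := h.geo.lower hsp hA hξ hε
  obtain ⟨c₂, h2⟩ := upper h.geo.compact hsp hε hg hB
  exact Pool.Agent.P.MP_376fb4_gt.mult_ge (d := fun s => dens K ξ (extr A ε ξ - ε * s)) hq hε hc0
    ((h1.and h2).mono fun s hs => ⟨hc _ hs.1.1, hs.2⟩)

omit [InnerProductSpace ℝ E] [FiniteDimensional ℝ E] [MeasurableSpace E] [BorelSpace E] in
theorem split_self (hK : IsCompact K) : Split K K ∅ :=
  ⟨hK.isClosed, isClosed_empty, disjoint_empty K, union_empty K⟩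

omit [FiniteDimensional ℝ E] in
theorem Hyp.nontrivial (h : Hyp K m) : Nontrivial E :=
  nontrivial_of_finrank_pos (R := ℝ) (by have := h.hn; omega)

theorem Hyp.exists_mu (h : Hyp K m) : ∃ μ, 2 * μ = m * (finrank ℝ E - 1) := by
  have := h.nontrivial
  have hK := h.geo.compact
  obtain ⟨ξ, hξ⟩ := (dense_goodDir hK h.geo.ne).nonempty
  obtain ⟨N, hN⟩ := h.exists_bound
  obtain ⟨q, hq0, -, hq⟩ := hN ξ
  refine ⟨q.rootMultiplicity (extr K 1 ξ : ℂ), le_antisymm ?_ ?_⟩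
  · exact h.mult_le (split_self hK) h.geo.ne hξ.1 (one_mul 1) hq0 hq
      (pow_rootMultiplicity_dvd _ _)
  · exact h.mult_ge (split_self hK) h.geo.ne (one_mul 1) (by rwa [one_smul]) (by simp) hq0 hq

theorem mem_divSol {N : ℕ}
    (hN : ∀ ξ, ∃ q : ℂ[X], q ≠ 0 ∧ q.natDegree ≤ N ∧ Sol m (volume.restrict K) (wK ξ) q)
    {D : E → ℂ[X]} {ξ : E}
    (hD : ∀ q : ℂ[X], q ≠ 0 → Sol m (volume.restrict K) (wK ξ) q → D ξ ∣ q) :
    ξ ∈ DivSol K m N D := by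
  obtain ⟨q, hq0, hq, hs⟩ := hN ξ
  obtain ⟨q₁, rfl⟩ := hD q hq0 hs
  exact ⟨q₁, right_ne_zero_of_mul hq0, (natDegree_le_of_dvd (dvd_mul_left _ _) hq0).trans hq, hs⟩

theorem Hyp.dvd_of_mem (h : Hyp K m) {N : ℕ} {D : E → ℂ[X]} {ξ : E} (hξ : ξ ≠ 0) (hD : D ξ ≠ 0)
    (hmem : ξ ∈ DivSol K m N D) {q : ℂ[X]} (hq : q ≠ 0)
    (hs : Sol m (volume.restrict K) (wK ξ) q) : D ξ ∣ q := by
  obtain ⟨q', hq'0, -, hq'⟩ := hmem
  obtain ⟨c, rfl⟩ := h.unique' hξ (mul_ne_zero hD hq'0) hq hq' hs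
  exact Dvd.dvd.mul_left (dvd_mul_right _ _) _

theorem Hyp.dvd_of_open (h : Hyp K m) (hsp : Split K A B) (hA : A.Nonempty) {ε : ℝ}
    (hε : ε * ε = 1) {μ : ℕ} (hμ : 2 * μ = m * (finrank ℝ E - 1)) {O : Set E} (hO : IsOpen O)
    (hO' : ∀ ξ ∈ O, ∀ x ∈ B, hs A (ε • ξ) ≤ ⟪x, ε • ξ⟫_ℝ) {ξ : E} (hξO : ξ ∈ O) (hξ : ξ ≠ 0)
    {q : ℂ[X]} (hq : q ≠ 0) (hs : Sol m (volume.restrict K) (wK ξ) q) :
    (X - C (extr A ε ξ : ℂ)) ^ μ ∣ q := by
  have := h.nontrivial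
  have hK := h.geo.compact
  obtain ⟨N, hN⟩ := h.exists_bound
  have hc := continuous_extr (hsp.compact hK) ε
  have hcl : IsClosed (DivSol K m N fun ξ => (X - C (extr A ε ξ : ℂ)) ^ μ) :=
    isClosed_divSol hK N (by simp only [eval_pow, eval_sub, eval_X, eval_C]; fun_prop)
      (by
        simp only [derivative_X_sub_C_pow, eval_mul, eval_pow, eval_sub, eval_X, eval_C]
        fun_prop)
  have hd : Dense ((fun ξ : E => ε • ξ) ⁻¹' {ξ | GoodDir A ξ}) :=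
    (dense_goodDir (hsp.compact hK) hA).preimage (isOpenMap_smul₀ (sign_ne_zero hε))
  refine h.dvd_of_mem (N := N) (D := fun ξ => (X - C (extr A ε ξ : ℂ)) ^ μ) hξ
    (pow_ne_zero _ (X_sub_C_ne_zero _)) ?_ hq hs
  refine closure_minimal (fun η hη => ?_) hcl (hd.open_subset_closure_inter hO hξO)
  refine mem_divSol hN fun q hq hs => (pow_dvd_pow _ ?_).trans (pow_rootMultiplicity_dvd _ _)
  have := h.mult_ge hsp hA hε hη.2 (hO' η hη.1) hq hs
  omega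

theorem Hyp.factor (h : Hyp K m) {ε : ℝ} (hε : ε * ε = 1) {μ : ℕ}
    (hμ : 2 * μ = m * (finrank ℝ E - 1)) {ξ : E} (hξ : ξ ≠ 0) {q : ℂ[X]} (hq : q ≠ 0)
    (hs : Sol m (volume.restrict K) (wK ξ) q) :
    ∃ q₁, q = (X - C (extr K ε ξ : ℂ)) ^ μ * q₁ ∧ q₁.eval (extr K ε ξ : ℂ) ≠ 0 := by
  have hK := h.geo.compact
  obtain ⟨q₁, hq₁⟩ := h.dvd_of_open (split_self hK) h.geo.ne hε hμ isOpen_univ (by simp)
    (mem_univ ξ) hξ hq hs
  refine ⟨q₁, hq₁, fun h0 => ?_⟩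
  have h1 : (X - C (extr K ε ξ : ℂ)) ^ (μ + 1) ∣ q := by
    rw [hq₁, pow_succ]
    exact mul_dvd_mul_left _ (dvd_iff_isRoot.2 h0)
  have := h.mult_le (split_self hK) h.geo.ne hξ hε hq hs h1
  omega

theorem Hyp.no_sep (h : Hyp K m) (hsp : Split K A B) (hA : A.Nonempty) (hB : B.Nonempty) (ξ : E) :
    extr B (-1) ξ ≤ extr A 1 ξ := by
  have hK := h.geo.compact
  have hAc := hsp.compact hK
  have hBc := hsp.symm.compact hK
  obtain ⟨μ, hμ⟩ := h.exists_mu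
  obtain ⟨N, hN⟩ := h.exists_bound
  have hcA := continuous_extr hAc 1
  have hcB := continuous_extr hBc (-1)
  set O : Set E := {ξ | extr A 1 ξ < extr B (-1) ξ} with hO
  have hOo : IsOpen O := isOpen_lt hcA hcB
  have hsep : ∀ ξ ∈ O, ∀ x ∈ A, ∀ y ∈ B, ⟪x, ξ⟫_ℝ ≤ hs A ξ ∧ hs A ξ < -hs B (-ξ) ∧
      -hs B (-ξ) ≤ ⟪y, ξ⟫_ℝ := by
    intro ξ hξ x hx y hy
    have h1 : extr A 1 ξ < extr B (-1) ξ := hξ
    rw [extr_one, extr_neg_one] at h1
    have h2 := le_hs hBc hy (-ξ)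
    rw [inner_neg_right] at h2
    exact ⟨le_hs hAc hx ξ, h1, by linarith⟩
  obtain ⟨x, hx⟩ := id hA
  obtain ⟨y, hy⟩ := id hB
  have hne : ∀ ξ ∈ O, ξ ≠ 0 := by
    rintro _ hξ rfl
    have := hsep _ hξ x hx y hy
    simp only [inner_zero_right] at this
    linarith [this.1, this.2.1, this.2.2]
  have hcl : IsClosed (DivSol K m N fun ξ =>
      (X - C (extr A 1 ξ : ℂ)) ^ μ * (X - C (extr B (-1) ξ : ℂ)) ^ μ) :=
    isClosed_divSol hK N (by simp only [eval_mul, eval_pow, eval_sub, eval_X, eval_C]; fun_prop)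
      (by
        simp only [derivative_mul, derivative_X_sub_C_pow, eval_add, eval_mul, eval_pow, eval_sub,
          eval_X, eval_C]
        fun_prop)
  have hsub : O ⊆ DivSol K m N fun ξ =>
      (X - C (extr A 1 ξ : ℂ)) ^ μ * (X - C (extr B (-1) ξ : ℂ)) ^ μ := by
    intro η hη
    refine mem_divSol hN fun q hq hs => IsCoprime.mul_dvd ?_ ?_ ?_
    · refine (isCoprime_X_sub_C_of_isUnit_sub (Ne.isUnit ?_)).pow
      rw [sub_ne_zero, Ne, Complex.ofReal_inj]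
      exact ne_of_lt hη
    · refine h.dvd_of_open hsp hA (one_mul 1) hμ hOo (fun ξ hξ z hz => ?_) hη (hne η hη) hq hs
      have := hsep ξ hξ x hx z hz
      rw [one_smul]
      linarith [this.2.1, this.2.2]
    · refine h.dvd_of_open hsp.symm hB (by norm_num) hμ hOo (fun ξ hξ z hz => ?_) hη (hne η hη)
        hq hs
      have := hsep ξ hξ z hz y hy
      rw [neg_one_smul, inner_neg_right]
      linarith [this.1, this.2.1]
  by_contra hξ
  have hξO : ξ ∈ O := not_le.1 hξ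
  have hrank : 1 < Module.rank ℝ E := by
    rw [← finrank_eq_rank]
    exact_mod_cast h.hn
  have hall := (isConnected_compl_singleton_of_one_lt_rank hrank 0).isPreconnected
    |>.subset_of_closure_inter_subset hOo ⟨ξ, hne ξ hξO, hξO⟩ (by
      rintro η ⟨h1, h2⟩
      by_contra h3
      have h4 : extr A 1 η ≤ extr B (-1) η :=
        closure_minimal (s := O) (t := {ξ | extr A 1 ξ ≤ extr B (-1) ξ})
          (fun ξ hξ => le_of_lt (show extr A 1 ξ < extr B (-1) ξ from hξ))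
          (isClosed_le hcA hcB) h1
      have h5 : extr A 1 η = extr B (-1) η := le_antisymm h4 (not_lt.1 h3)
      obtain ⟨q, hq0, -, hq⟩ := closure_minimal hsub hcl h1
      simp only [← h5, ← pow_add] at hq
      have := h.mult_le hsp hA h2 (one_mul 1)
        (mul_ne_zero (pow_ne_zero _ (X_sub_C_ne_zero _)) hq0) hq (dvd_mul_right _ _)
      have h6 : 0 < m * (finrank ℝ E - 1) :=
        Nat.mul_pos (Nat.pos_of_ne_zero h.hm) (by have := h.hn; omega)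
      omega)
  have h1 := hsep ξ hξO x hx y hy
  have h2 := hsep (-ξ) (hall (neg_ne_zero.2 (hne ξ hξO))) x hx y hy
  simp only [inner_neg_right] at h2
  linarith [h1.1, h1.2.1, h1.2.2, h2.1, h2.2.1, h2.2.2]

theorem Hyp.dense_overlap (h : Hyp K m) (hsp : Split K A B) (hA : A.Nonempty) (hB : B.Nonempty) :
    Dense {ξ | extr B (-1) ξ < extr A 1 ξ} := by
  have hK := h.geo.compact
  have hAc := hsp.compact hK
  have hBc := hsp.symm.compact hK
  intro ξ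
  obtain ⟨x, hx, hx'⟩ := exists_hs hAc hA ξ
  obtain ⟨y, hy, hy'⟩ := exists_hs hBc hB (-ξ)
  have hxy : x - y ≠ 0 := sub_ne_zero.2 fun h0 => disjoint_left.1 hsp.disj hx (h0 ▸ hy)
  have hc : Continuous fun s : ℝ => ξ + s • (x - y) := by fun_prop
  have ht : Tendsto (fun s : ℝ => ξ + s • (x - y)) (𝓝[>] 0) (𝓝 ξ) := by
    simpa using (hc.tendsto 0).mono_left (nhdsWithin_le_nhds (s := Ioi 0))
  refine mem_closure_of_tendsto ht ?_
  filter_upwards [self_mem_nhdsWithin] with s hs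
  have hs0 : 0 < s := hs
  have h1 := h.no_sep hsp hA hB ξ
  have h2 := le_hs hAc hx (ξ + s • (x - y))
  have h3 := le_hs hBc hy (-(ξ + s • (x - y)))
  have h4 : 0 < s * ⟪x - y, x - y⟫_ℝ := mul_pos hs0 (real_inner_self_pos.2 hxy)
  show extr B (-1) _ < extr A 1 _
  rw [extr_one, extr_neg_one] at h1 ⊢
  rw [inner_sub_left] at h4
  simp only [inner_neg_right, inner_add_right, inner_smul_right] at h2 h3 hy'
  linarith

theorem Hyp.exists_noGap (h : Hyp K m) : ∃ G : Set E, IsOpen G ∧ Dense G ∧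
    ∀ ξ ∈ G, ξ ≠ 0 ∧ ∀ t ∈ Ioo (extr K (-1) ξ) (extr K 1 ξ), t ∈ lev K ξ := by
  classical
  have := h.nontrivial
  have hK := h.geo.compact
  obtain ⟨t, W, hW1, hW2, hW3⟩ := h.geo.exists_cover
  set A : Set t → Set E := fun I => ⋃ i ∈ I, closure (W i)
  set G : Set t → Set E := fun I => {ξ | Split K (A I) (A Iᶜ) ∧ (A I).Nonempty ∧ (A Iᶜ).Nonempty →
    extr (A Iᶜ) (-1) ξ < extr (A I) 1 ξ} with hG
  have hG' : ∀ I, IsOpen (G I) ∧ Dense (G I) := by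
    intro I
    by_cases hI : Split K (A I) (A Iᶜ) ∧ (A I).Nonempty ∧ (A Iᶜ).Nonempty
    · simp only [hG, hI, and_self, forall_true_left]
      exact ⟨isOpen_lt (continuous_extr (hI.1.symm.compact hK) _)
        (continuous_extr (hI.1.compact hK) _), h.dense_overlap hI.1 hI.2.1 hI.2.2⟩
    · simp only [hG, hI, false_imp_iff, ofPred_true]
      exact ⟨isOpen_univ, dense_univ⟩
  refine ⟨{0}ᶜ ∩ ⋂ I, G I, isOpen_compl_singleton.inter (isOpen_iInter_of_finite fun I => (hG' I).1),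
    (dense_compl_singleton 0).inter_of_isOpen_left
      (dense_iInter_of_isOpen (fun I => (hG' I).1) fun I => (hG' I).2) isOpen_compl_singleton, ?_⟩
  rintro ξ ⟨hξ, hξG⟩
  refine ⟨hξ, fun t₀ ht₀ => ?_⟩
  by_contra hc
  obtain ⟨I, hsp, h1, h2⟩ := h.geo.exists_split hW1 hW2 hW3 hc
  rw [extr_one, extr_neg_one] at ht₀
  obtain ⟨x, hx, hx'⟩ := exists_hs hK h.geo.ne ξ
  obtain ⟨y, hy, hy'⟩ := exists_hs hK h.geo.ne (-ξ)
  rw [inner_neg_right] at hy'
  have hA : (A I).Nonempty := by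
    refine ⟨y, Or.resolve_right (hsp.union.symm.subset hy) fun h' => ?_⟩
    linarith [h2 y h', ht₀.1]
  have hB : (A Iᶜ).Nonempty := by
    refine ⟨x, Or.resolve_left (hsp.union.symm.subset hx) fun h' => ?_⟩
    linarith [h1 x h', ht₀.2]
  have h3 := mem_iInter.1 hξG I ⟨hsp, hA, hB⟩
  rw [extr_one, extr_neg_one] at h3
  obtain ⟨a, ha, ha'⟩ := exists_hs (hsp.compact hK) hA ξ
  obtain ⟨b, hb, hb'⟩ := exists_hs (hsp.symm.compact hK) hB (-ξ)
  rw [inner_neg_right] at hb'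
  linarith [h1 a ha, h2 b hb]

end Pool.Agent.P.MP_376fb4_gt
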