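import Pool.Agent.P.MP_376fb4_gt.ODE

/-!
Holomorphic dependence of integrals on a parameter, and transport of solutions along a segment.
-/

open Set Filter Topology Polynomial Metric MeasureTheory Function

noncomputable section

namespace Pool.Agent.P.MP_376fb4_gt

theorem differentiableOn_integral_of_bound {X : Type*} [MeasurableSpace X] {μ : Measure X}
    [IsFiniteMeasure μ] {f : ℂ → X → ℂ} {U : Set ℂ} (hU : IsOpen U) {C : ℝ}
    (hmeas : ∀ ζ ∈ U, AEStronglyMeasurable (f ζ) μ)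
    (hdiff : ∀ᵐ x ∂μ, DifferentiableOn ℂ (fun ζ => f ζ x) U)
    (hb : ∀ᵐ x ∂μ, ∀ ζ ∈ U, ‖f ζ x‖ ≤ C) :
    DifferentiableOn ℂ (fun ζ => ∫ x, f ζ x ∂μ) U := by
  intro ζ₀ hζ₀
  obtain ⟨r3, hr3, hball⟩ := Metric.isOpen_iff.1 hU ζ₀ hζ₀
  set r := r3 / 3 with hr
  have hrpos : 0 < r := by positivity
  have hsub : ∀ ζ ∈ ball ζ₀ r, closedBall ζ r ⊆ U := by
    intro ζ hζ w hw
    apply hball
    rw [mem_ball] at hζ ⊢
    rw [mem_closedBall] at hw
    calc dist w ζ₀ ≤ dist w ζ + dist ζ ζ₀ := dist_triangle _ _ _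
      _ < r3 := by linarith
  have hint : Integrable (f ζ₀) μ :=
    (integrable_const C).mono' (hmeas ζ₀ hζ₀) (hb.mono fun x hx => hx ζ₀ hζ₀)
  have hF'meas : AEStronglyMeasurable (fun x => deriv (fun ζ => f ζ x) ζ₀) μ := by
    let t : ℕ → ℂ := fun k => ((r / ((k : ℝ) + 1) : ℝ) : ℂ)
    have ht0 : Tendsto t atTop (𝓝[≠] 0) := by
      apply tendsto_nhdsWithin_of_tendsto_nhds_of_eventually_within
      · have h1 : Tendsto (fun k : ℕ => r / ((k : ℝ) + 1)) atTop (𝓝 0) :=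
          tendsto_const_div_atTop_nhds_zero_nat r |>.comp (tendsto_add_atTop_nat 1) |>.congr
            (fun k => by simp)
        have h2 := (Complex.continuous_ofReal.tendsto 0).comp h1
        rw [Complex.ofReal_zero] at h2
        exact h2
      · refine Eventually.of_forall fun k => ?_
        have : r / ((k : ℝ) + 1) ≠ 0 := by positivity
        exact Complex.ofReal_ne_zero.2 this
    have htU : ∀ k, ζ₀ + t k ∈ U := by
      intro k
      apply hsub ζ₀ (mem_ball_self hrpos)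
      rw [mem_closedBall, dist_eq_norm, add_sub_cancel_left, Complex.norm_real, Real.norm_eq_abs,
        abs_of_pos (by positivity)]
      exact div_le_self hrpos.le (by linarith [(Nat.cast_nonneg k : (0 : ℝ) ≤ k)])
    refine aestronglyMeasurable_of_tendsto_ae atTop
      (f := fun k x => (t k)⁻¹ • (f (ζ₀ + t k) x - f ζ₀ x)) (fun k => ?_) ?_
    · exact ((hmeas _ (htU k)).sub (hmeas _ hζ₀)).const_smul (t k)⁻¹
    · filter_upwards [hdiff] with x hx
      exact ((hx.differentiableAt (hU.mem_nhds hζ₀)).hasDerivAt.tendsto_slope_zero).comp ht0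
  refine (hasDerivAt_integral_of_dominated_loc_of_deriv_le (s := ball ζ₀ r)
    (F' := fun ζ x => deriv (fun ζ => f ζ x) ζ) (bound := fun _ => C / r)
    (ball_mem_nhds ζ₀ hrpos) ?_ hint hF'meas ?_ (integrable_const _)
      ?_).2.differentiableAt.differentiableWithinAt
  · filter_upwards [hU.mem_nhds hζ₀] with ζ hζ using hmeas ζ hζ
  · filter_upwards [hdiff, hb] with x hx hx' ζ hζ
    refine Complex.norm_deriv_le_of_forall_mem_sphere_norm_le hrpos ?_ ?_
    · refine DifferentiableOn.diffContOnCl ?_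
      rw [closure_ball _ hrpos.ne']
      exact hx.mono (hsub ζ hζ)
    · exact fun w hw => hx' w (hsub ζ hζ (sphere_subset_closedBall hw))
  · filter_upwards [hdiff] with x hx ζ hζ
    exact (hx.differentiableAt (hU.mem_nhds (hsub ζ hζ (mem_closedBall_self hrpos.le)))).hasDerivAt

/-- Jointly continuous on a closed disc times `[0,1]`, holomorphic in the first variable. -/
def Nice (ζ₀ : ℂ) (ρ : ℝ) (f : ℂ → ℝ → ℂ) : Prop :=
  ContinuousOn (fun x : ℂ × ℝ => f x.1 x.2) (closedBall ζ₀ ρ ×ˢ Icc 0 1) ∧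
    ∀ s ∈ Icc (0 : ℝ) 1, DifferentiableOn ℂ (fun ζ => f ζ s) (ball ζ₀ ρ)

theorem Nice.prim {ζ₀ : ℂ} {ρ : ℝ} {f : ℂ → ℝ → ℂ} (hf : Nice ζ₀ ρ f) :
    Nice ζ₀ ρ (fun ζ s => ∫ σ in (0 : ℝ)..s, f ζ σ) := by
  have hrw : ∀ ζ s, (∫ σ in (0 : ℝ)..s, f ζ σ) = ∫ σ in Ioc (0 : ℝ) 1, s • f ζ (s * σ) := by
    intro ζ s
    rw [← intervalIntegral.integral_of_le zero_le_one, intervalIntegral.integral_smul,
      intervalIntegral.smul_integral_comp_mul_left]
    simp
  simp only [hrw]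
  obtain ⟨C, hC⟩ := ((isCompact_closedBall ζ₀ ρ).prod isCompact_Icc).exists_bound_of_continuousOn
    hf.1
  have hmem : ∀ s ∈ Icc (0 : ℝ) 1, ∀ σ ∈ Ioc (0 : ℝ) 1, s * σ ∈ Icc (0 : ℝ) 1 := by
    intro s hs σ hσ
    exact ⟨mul_nonneg hs.1 hσ.1.le, mul_le_one₀ hs.2 hσ.1.le hσ.2⟩
  have hmeas : ∀ ζ ∈ closedBall ζ₀ ρ, ∀ s ∈ Icc (0 : ℝ) 1,
      AEStronglyMeasurable (fun σ => s • f ζ (s * σ)) (volume.restrict (Ioc (0 : ℝ) 1)) := by
    intro ζ hζ s hs
    refine ContinuousOn.aestronglyMeasurable ?_ measurableSet_Ioc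
    have h1 : ContinuousOn (fun σ => f ζ (s * σ)) (Ioc (0 : ℝ) 1) :=
      hf.1.comp (f := fun σ : ℝ => (ζ, s * σ)) (by fun_prop)
        (fun σ hσ => ⟨hζ, hmem s hs σ hσ⟩)
    exact h1.const_smul s
  have hbd : ∀ ζ ∈ closedBall ζ₀ ρ, ∀ s ∈ Icc (0 : ℝ) 1, ∀ σ ∈ Ioc (0 : ℝ) 1,
      ‖s • f ζ (s * σ)‖ ≤ |C| := by
    intro ζ hζ s hs σ hσ
    rw [norm_smul, Real.norm_eq_abs, abs_of_nonneg hs.1]
    have h1 := (hC (ζ, s * σ) ⟨hζ, hmem s hs σ hσ⟩).trans (le_abs_self C)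
    calc s * ‖f ζ (s * σ)‖ ≤ 1 * |C| := mul_le_mul hs.2 h1 (norm_nonneg _) zero_le_one
      _ = |C| := one_mul _
  refine ⟨?_, fun s hs => ?_⟩
  · refine continuousOn_of_dominated (bound := fun _ => |C|)
      (F := fun (x : ℂ × ℝ) (σ : ℝ) => x.2 • f x.1 (x.2 * σ))
      (fun x hx => hmeas x.1 hx.1 x.2 hx.2) (fun x hx => ?_) (integrable_const _) ?_
    · filter_upwards [ae_restrict_mem measurableSet_Ioc] with σ hσ using
        hbd x.1 hx.1 x.2 hx.2 σ hσ
    · filter_upwards [ae_restrict_mem measurableSet_Ioc] with σ hσ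
      refine ContinuousOn.smul continuousOn_snd ?_
      exact hf.1.comp (f := fun x : ℂ × ℝ => (x.1, x.2 * σ)) (by fun_prop)
        (fun x hx => ⟨hx.1, hmem _ hx.2 σ hσ⟩)
  · refine differentiableOn_integral_of_bound (C := |C|) isOpen_ball
      (fun ζ hζ => hmeas ζ (ball_subset_closedBall hζ) s hs) ?_ ?_
    · filter_upwards [ae_restrict_mem measurableSet_Ioc] with σ hσ
      exact (hf.2 _ (hmem s hs σ hσ)).const_smul s
    · filter_upwards [ae_restrict_mem measurableSet_Ioc] with σ hσ ζ hζ using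
        hbd ζ (ball_subset_closedBall hζ) s hs σ hσ

/-- Regularity of a family of equations depending on a complex parameter. -/
structure NiceFam (p : ℂ → ℂ[X]) (E : ℂ → ℂ → ℂ) : Prop where
  pc : Continuous fun x : ℂ × ℂ => (p x.1).eval x.2
  p'c : Continuous fun x : ℂ × ℂ => (p x.1).derivative.eval x.2
  Ec : Continuous fun x : ℂ × ℂ => E x.1 x.2
  pd : ∀ z, Differentiable ℂ fun ζ => (p ζ).eval z
  p'd : ∀ z, Differentiable ℂ fun ζ => (p ζ).derivative.eval z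
  Ed : ∀ z, Differentiable ℂ fun ζ => E ζ z
  Ez : ∀ ζ, Differentiable ℂ (E ζ)

theorem exists_transport {m : ℕ} (hm : m ≠ 0) {p : ℂ → ℂ[X]} {E : ℂ → ℂ → ℂ} (hN : NiceFam p E)
    {ζ₀ : ℂ} {ρ : ℝ} (b₀ b : ℂ)
    (hseg : ∀ ζ ∈ closedBall ζ₀ ρ, ∀ s ∈ Icc (0 : ℝ) 1, (p ζ).eval (b₀ + s * (b - b₀)) ≠ 0) :
    ∃ α γ : ℂ → ℂ, DifferentiableOn ℂ α (ball ζ₀ ρ) ∧ DifferentiableOn ℂ γ (ball ζ₀ ρ) ∧
      ∀ ζ Ω Y, IsOpen Ω → Convex ℝ Ω → b₀ ∈ Ω → b ∈ Ω → IsSol m (p ζ) (E ζ) Ω Y →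
        Y b = α ζ * Y b₀ + γ ζ := by
  have hm' : (m : ℂ) ≠ 0 := Nat.cast_ne_zero.2 hm
  let pt : ℝ → ℂ := fun s => b₀ + s * (b - b₀)
  have hpt : Continuous pt := by fun_prop
  have hmap : Continuous fun x : ℂ × ℝ => (x.1, pt x.2) := by fun_prop
  let β : ℂ → ℝ → ℂ := fun ζ s =>
    (p ζ).derivative.eval (pt s) / (m * (p ζ).eval (pt s)) * (b - b₀)
  let η : ℂ → ℝ → ℂ := fun ζ s => E ζ (pt s) / (m * (p ζ).eval (pt s)) * (b - b₀)
  have hβ : Nice ζ₀ ρ β := by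
    refine ⟨ContinuousOn.mul (ContinuousOn.div (hN.p'c.comp hmap).continuousOn
      (continuous_const.mul (hN.pc.comp hmap)).continuousOn
      (fun x hx => mul_ne_zero hm' (hseg x.1 hx.1 x.2 hx.2))) continuousOn_const,
      fun s hs => ?_⟩
    exact ((hN.p'd _).differentiableOn.div ((hN.pd _).const_mul _).differentiableOn
      (fun ζ hζ => mul_ne_zero hm' (hseg ζ (ball_subset_closedBall hζ) s hs))).mul_const _
  have hη : Nice ζ₀ ρ η := by
    refine ⟨ContinuousOn.mul (ContinuousOn.div (hN.Ec.comp hmap).continuousOn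
      (continuous_const.mul (hN.pc.comp hmap)).continuousOn
      (fun x hx => mul_ne_zero hm' (hseg x.1 hx.1 x.2 hx.2))) continuousOn_const,
      fun s hs => ?_⟩
    exact ((hN.Ed _).differentiableOn.div ((hN.pd _).const_mul _).differentiableOn
      (fun ζ hζ => mul_ne_zero hm' (hseg ζ (ball_subset_closedBall hζ) s hs))).mul_const _
  let Λ : ℂ → ℝ → ℂ := fun ζ s => ∫ σ in (0 : ℝ)..s, β ζ σ
  have hΛ : Nice ζ₀ ρ Λ := hβ.prim
  let G : ℂ → ℝ → ℂ := fun ζ s => Complex.exp (-Λ ζ s) * η ζ s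
  have hG : Nice ζ₀ ρ G :=
    ⟨(hΛ.1.neg.cexp).mul hη.1, fun s hs => ((hΛ.2 s hs).neg.cexp).mul (hη.2 s hs)⟩
  have h1 : (1 : ℝ) ∈ Icc (0 : ℝ) 1 := ⟨zero_le_one, le_rfl⟩
  refine ⟨fun ζ => Complex.exp (Λ ζ 1), fun ζ => Complex.exp (Λ ζ 1) * ∫ σ in (0 : ℝ)..1, G ζ σ,
    (hΛ.2 1 h1).cexp, ((hΛ.2 1 h1).cexp).mul (hG.prim.2 1 h1), ?_⟩
  intro ζ Ω Y ho hc hb₀ hb hY
  have hptΩ : ∀ s ∈ Icc (0 : ℝ) 1, pt s ∈ Ω := by
    intro s hs
    have := hc.add_smul_sub_mem hb₀ hb hs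
    simpa [pt] using this
  obtain ⟨L, hL⟩ := exists_primitive hc ho
    (f := fun z => (p ζ).derivative.eval z / (m * (p ζ).eval z)) (by
      intro z hz
      refine DifferentiableAt.differentiableWithinAt ?_
      exact ((p ζ).derivative.differentiableAt).div
        ((differentiableAt_const _).mul (p ζ).differentiableAt) (mul_ne_zero hm' (hY z hz).1))
  have hptd : ∀ s : ℝ, HasDerivAt pt (b - b₀) s := by
    intro s
    have := ((hasDerivAt_id s).ofReal_comp.mul_const (b - b₀)).const_add b₀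
    refine this.congr_deriv ?_
    simp
  have hLd : ∀ s ∈ Icc (0 : ℝ) 1, HasDerivAt (fun s => L (pt s)) (β ζ s) s :=
    fun s hs => (hL _ (hptΩ s hs)).comp s (hptd s)
  have hpcont : ContinuousOn (fun s => (m : ℂ) * (p ζ).eval (pt s)) (Icc (0 : ℝ) 1) :=
    (continuous_const.mul ((p ζ).continuous.comp hpt)).continuousOn
  have hβc : ContinuousOn (β ζ) (Icc (0 : ℝ) 1) :=
    (((p ζ).derivative.continuous.comp hpt).continuousOn.div hpcont
      (fun s hs => mul_ne_zero hm' (hY _ (hptΩ s hs)).1)).mul continuousOn_const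
  have hηc : ContinuousOn (η ζ) (Icc (0 : ℝ) 1) :=
    (((hN.Ez ζ).continuous.comp hpt).continuousOn.div hpcont
      (fun s hs => mul_ne_zero hm' (hY _ (hptΩ s hs)).1)).mul continuousOn_const
  have hΛeq : ∀ s ∈ Icc (0 : ℝ) 1, Λ ζ s = L (pt s) - L (pt 0) := by
    intro s hs
    have hsub : uIcc 0 s ⊆ Icc (0 : ℝ) 1 := by
      rw [uIcc_of_le hs.1]
      exact Icc_subset_Icc le_rfl hs.2
    exact intervalIntegral.integral_eq_sub_of_hasDerivAt (f := fun s => L (pt s))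
      (fun x hx => hLd x (hsub hx)) ((hβc.mono hsub).intervalIntegrable)
  have hLc : ContinuousOn (fun s => L (pt s)) (Icc (0 : ℝ) 1) :=
    fun s hs => (hLd s hs).continuousAt.continuousWithinAt
  have hGeq : ∫ σ in (0 : ℝ)..1, G ζ σ =
      Complex.exp (-(L (pt 1) - L (pt 0))) * Y (pt 1) -
        Complex.exp (-(L (pt 0) - L (pt 0))) * Y (pt 0) := by
    rw [intervalIntegral.integral_congr
      (g := fun σ => Complex.exp (-(L (pt σ) - L (pt 0))) * η ζ σ)]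
    · refine intervalIntegral.integral_eq_sub_of_hasDerivAt
        (f := fun s => Complex.exp (-(L (pt s) - L (pt 0))) * Y (pt s)) ?_ ?_
      · intro s hs
        rw [uIcc_of_le zero_le_one] at hs
        have h2 := (((hLd s hs).sub_const (L (pt 0))).fun_neg.cexp).fun_mul
          ((hY _ (hptΩ s hs)).2.comp s (hptd s))
        refine h2.congr_deriv ?_
        have := (hY _ (hptΩ s hs)).1
        simp only [β, η, Function.comp]
        field_simp
        ring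
      · refine ContinuousOn.intervalIntegrable ?_
        rw [uIcc_of_le zero_le_one]
        exact ((hLc.sub continuousOn_const).neg.cexp).mul hηc
    · intro σ hσ
      rw [uIcc_of_le zero_le_one] at hσ
      simp only [G]
      rw [hΛeq σ hσ]
  have e0 : pt 0 = b₀ := by simp [pt]
  have e1 : pt 1 = b := by simp [pt]
  simp only
  rw [hGeq, hΛeq 1 h1, e0, e1, sub_self, neg_zero, Complex.exp_zero, Complex.exp_neg]
  have := Complex.exp_ne_zero (L b - L b₀)
  field_simp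
  ring

end Pool.Agent.P.MP_376fb4_gt
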