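import Pool.Agent.P.MP_376fb4_gt.ODE

/-!
Roots of a polynomial depending polynomially on a complex parameter are, away from a finite set
of parameters, given locally by distinct holomorphic functions.
-/

open Set Filter Topology Polynomial Metric Function

noncomputable section

namespace Pool.Agent.P.MP_376fb4_gt

/-- Specialisation of the inner variable of a bivariate polynomial. -/
abbrev spec (q : ℂ[X][X]) (ζ : ℂ) : ℂ[X] := q.map (evalRingHom ζ)

theorem contDiff_spec (q : ℂ[X][X]) :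
    ContDiff ℂ 1 (fun x : ℂ × ℂ => (spec q x.1).eval x.2) := by
  induction q using Polynomial.induction_on' with
  | add p q hp hq =>
    simp only [spec, Polynomial.map_add, eval_add]
    exact hp.add hq
  | monomial n a =>
    simp only [spec, Polynomial.map_monomial, eval_monomial, coe_evalRingHom]
    have h1 : ContDiff ℂ 1 (fun x : ℂ => a.eval x) := a.contDiff_aeval 1
    exact (h1.comp contDiff_fst).mul (contDiff_snd.pow n)

theorem exists_clear (q : (FractionRing ℂ[X])[X]) :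
    ∃ b : ℂ[X], b ≠ 0 ∧ ∃ q' : ℂ[X][X], q'.map (algebraMap ℂ[X] (FractionRing ℂ[X])) =
      C (algebraMap ℂ[X] (FractionRing ℂ[X]) b) * q := by
  obtain ⟨b, hb, h⟩ := IsLocalization.integerNormalization_spec (nonZeroDivisors ℂ[X]) q
  refine ⟨b, nonZeroDivisors.ne_zero hb, _, h.trans ?_⟩
  rw [← smul_eq_C_mul, algebraMap_smul]

theorem exists_sep_part (p : ℂ[X][X]) (hp : p ≠ 0) :
    ∃ (f : ℂ[X][X]) (δ : ℂ[X]), δ ≠ 0 ∧ ∀ ζ, δ.eval ζ ≠ 0 →
      (spec f ζ).Separable ∧ (spec f ζ).natDegree = f.natDegree ∧ spec p ζ ≠ 0 ∧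
        ∀ z, (spec p ζ).eval z = 0 ↔ (spec f ζ).eval z = 0 := by
  classical
  let 𝔽 := FractionRing ℂ[X]
  let ι : ℂ[X] →+* 𝔽 := algebraMap ℂ[X] 𝔽
  have hι : Injective ι := IsFractionRing.injective _ _
  have hinj : Injective (Polynomial.map ι : ℂ[X][X] → 𝔽[X]) := Polynomial.map_injective _ hι
  have hp' : p.map ι ≠ 0 := fun h => hp (hinj (by rw [h, Polynomial.map_zero]))
  let f₀ : 𝔽[X] := UniqueFactorizationMonoid.radical (p.map ι)
  have hsep : f₀.Separable :=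
    PerfectField.separable_iff_squarefree.2 UniqueFactorizationMonoid.squarefree_radical
  obtain ⟨g₁, hg₁⟩ : f₀ ∣ p.map ι := UniqueFactorizationMonoid.radical_dvd_self
  obtain ⟨N, g₂, hg₂⟩ : ∃ N, p.map ι ∣ f₀ ^ N :=
    UniqueFactorizationMonoid.exists_dvd_radical_self_pow hp'
  obtain ⟨a, c, hac⟩ := hsep
  obtain ⟨b, hb, f, hf⟩ := exists_clear f₀
  obtain ⟨b₁, hb₁, g₁', hg₁'⟩ := exists_clear g₁
  obtain ⟨b₂, hb₂, g₂', hg₂'⟩ := exists_clear g₂
  obtain ⟨b₃, hb₃, a', ha'⟩ := exists_clear a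
  obtain ⟨b₄, hb₄, c', hc'⟩ := exists_clear c
  have e1 : f * g₁' = C (b * b₁) * p := by
    apply hinj
    simp only [Polynomial.map_mul, map_C, map_mul]
    rw [hf, hg₁', hg₁]
    ring
  have e2 : C b₂ * f ^ N = C (b ^ N) * p * g₂' := by
    apply hinj
    simp only [Polynomial.map_mul, map_C, map_pow, Polynomial.map_pow]
    rw [hf, hg₂', mul_pow, hg₂]
    ring
  have e3 : C b₄ * a' * f + C b₃ * c' * derivative f = C (b * b₃ * b₄) := by
    apply hinj
    simp only [Polynomial.map_mul, map_C, map_mul, Polynomial.map_add]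
    rw [← derivative_map, hf, ha', hc', derivative_C_mul]
    linear_combination (C (ι b) * C (ι b₃) * C (ι b₄)) * hac
  have hf0 : f ≠ 0 := by
    intro h
    rw [h, zero_mul] at e1
    exact mul_ne_zero (C_ne_zero.2 (mul_ne_zero hb hb₁)) hp e1.symm
  refine ⟨f, b * b₁ * b₂ * b₃ * b₄ * f.leadingCoeff * p.leadingCoeff, ?_, fun ζ hζ => ?_⟩
  · have h1 := leadingCoeff_ne_zero.2 hf0
    have h2 := leadingCoeff_ne_zero.2 hp
    positivity
  simp only [eval_mul, ne_eq, mul_eq_zero, not_or] at hζ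
  obtain ⟨⟨⟨⟨⟨⟨z0, z1⟩, z2⟩, z3⟩, z4⟩, z5⟩, z6⟩ := hζ
  refine ⟨?_, natDegree_map_of_leadingCoeff_ne_zero _ z5, ?_, fun z => ⟨fun h => ?_, fun h => ?_⟩⟩
  · have e := congrArg (Polynomial.map (evalRingHom ζ)) e3
    simp only [Polynomial.map_mul, map_C, map_mul, Polynomial.map_add, coe_evalRingHom,
      ← derivative_map] at e
    set k : ℂ := (b.eval ζ * b₃.eval ζ * b₄.eval ζ)⁻¹ with hk
    refine ⟨C k * (C (b₄.eval ζ) * a'.map (evalRingHom ζ)),
      C k * (C (b₃.eval ζ) * c'.map (evalRingHom ζ)), ?_⟩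
    have hk1 : C k * (C (b.eval ζ) * C (b₃.eval ζ) * C (b₄.eval ζ)) = 1 := by
      rw [← C_mul, ← C_mul, ← C_mul, hk, inv_mul_cancel₀ (mul_ne_zero (mul_ne_zero z0 z3) z4),
        C_1]
    rw [← hk1, ← e]
    ring
  · intro h
    have := congrArg (fun q => q.coeff p.natDegree) h
    simp only [spec, coeff_map, coe_evalRingHom, coeff_zero] at this
    exact z6 this
  · have e := congrArg (fun q => (Polynomial.map (evalRingHom ζ) q).eval z) e2
    simp only [Polynomial.map_mul, map_C, Polynomial.map_pow, eval_mul, eval_C, eval_pow,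
      coe_evalRingHom] at e
    rw [h, mul_zero, zero_mul] at e
    exact eq_zero_of_pow_eq_zero ((mul_eq_zero.1 e).resolve_left z2)
  · have e := congrArg (fun q => (Polynomial.map (evalRingHom ζ) q).eval z) e1
    simp only [Polynomial.map_mul, map_C, eval_mul, eval_C, coe_evalRingHom] at e
    rw [h, zero_mul] at e
    exact (mul_eq_zero.1 e.symm).resolve_left (mul_ne_zero z0 z1)

theorem exists_local_root (f : ℂ[X][X]) {ζ₀ r₀ : ℂ} (h0 : (spec f ζ₀).eval r₀ = 0)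
    (h1 : (spec f ζ₀).derivative.eval r₀ ≠ 0) :
    ∃ r : ℂ → ℂ, r ζ₀ = r₀ ∧ (∀ᶠ ζ in 𝓝 ζ₀, DifferentiableAt ℂ r ζ) ∧
      ∀ᶠ ζ in 𝓝 ζ₀, (spec f ζ).eval (r ζ) = 0 := by
  let G : ℂ × ℂ → ℂ := fun x => (spec f x.1).eval x.2
  have hG : ContDiffAt ℂ 1 G (ζ₀, r₀) := (contDiff_spec f).contDiffAt
  have hder : HasDerivAt (fun z => G (ζ₀, z)) ((spec f ζ₀).derivative.eval r₀) r₀ :=
    (spec f ζ₀).hasDerivAt r₀
  have hcomp : HasFDerivAt (fun z => G (ζ₀, z))
      (fderiv ℂ G (ζ₀, r₀) ∘L ContinuousLinearMap.inr ℂ ℂ ℂ) r₀ :=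
    (hG.differentiableAt one_ne_zero).hasFDerivAt.comp r₀ (hasFDerivAt_prodMk_right ζ₀ r₀)
  have hinv : (fderiv ℂ G (ζ₀, r₀) ∘L ContinuousLinearMap.inr ℂ ℂ ℂ).IsInvertible := by
    rw [hcomp.unique hder.hasFDerivAt]
    exact ⟨ContinuousLinearEquiv.unitsEquivAut ℂ (Units.mk0 _ h1), by ext; simp⟩
  refine ⟨hG.implicitFunction one_ne_zero hinv, hG.implicitFunction_apply_self _ _, ?_, ?_⟩
  · have := (hG.contDiffAt_implicitFunction one_ne_zero hinv).eventually (by simp)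
    filter_upwards [this] with ζ hζ using hζ.differentiableAt one_ne_zero
  · filter_upwards [hG.eventually_apply_implicitFunction one_ne_zero hinv] with ζ hζ
    exact hζ.trans h0

theorem exists_roots (p : ℂ[X][X]) (hp : p ≠ 0) :
    ∃ Δ : Finset ℂ, ∀ ζ₀ ∉ Δ, ∃ (s : Finset ℂ) (ρ : ℝ) (r : s → ℂ → ℂ), 0 < ρ ∧
      (∀ j, DifferentiableOn ℂ (r j) (ball ζ₀ ρ)) ∧
      ∀ ζ ∈ ball ζ₀ ρ, spec p ζ ≠ 0 ∧ Injective (fun j => r j ζ) ∧
        ∀ z, (spec p ζ).eval z = 0 ↔ ∃ j, z = r j ζ := by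
  classical
  obtain ⟨f, δ, hδ, h⟩ := exists_sep_part p hp
  refine ⟨δ.roots.toFinset, fun ζ₀ hζ₀ => ?_⟩
  have hδ0 : δ.eval ζ₀ ≠ 0 := by
    intro h0
    exact hζ₀ (by simp [hδ, h0])
  obtain ⟨hsep, hdeg, -, -⟩ := h ζ₀ hδ0
  let s := (spec f ζ₀).roots.toFinset
  have hs : ∀ j : s, (spec f ζ₀).eval j.1 = 0 := fun j => by
    have := j.2
    simp only [s, Multiset.mem_toFinset, mem_roots', IsRoot.def] at this
    exact this.2
  have hs' : ∀ j : s, (spec f ζ₀).derivative.eval j.1 ≠ 0 := fun j h0 => by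
    obtain ⟨a, b, hab⟩ := hsep
    have := congrArg (Polynomial.eval j.1) hab
    rw [eval_add, eval_mul, eval_mul, hs j, h0] at this
    simp at this
  choose r hr0 hrd hrz using fun j : s => exists_local_root f (hs j) (hs' j)
  have hcard : s.card = f.natDegree := by
    rw [Multiset.toFinset_card_of_nodup (nodup_roots hsep), IsAlgClosed.card_roots_eq_natDegree,
      hdeg]
  have hinj : ∀ᶠ ζ in 𝓝 ζ₀, ∀ i j : s, i ≠ j → r i ζ ≠ r j ζ := by
    simp only [eventually_all]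
    intro i j hij
    have hi : ContinuousAt (r i) ζ₀ := (hrd i).self_of_nhds.continuousAt
    have hj : ContinuousAt (r j) ζ₀ := (hrd j).self_of_nhds.continuousAt
    have hne : r i ζ₀ - r j ζ₀ ≠ 0 := by
      rw [hr0, hr0, sub_ne_zero]
      exact fun h => hij (Subtype.ext h)
    filter_upwards [(hi.sub hj).eventually_ne hne] with ζ hζ using sub_ne_zero.1 hζ
  have hδev : ∀ᶠ ζ in 𝓝 ζ₀, δ.eval ζ ≠ 0 := δ.continuous.continuousAt.eventually_ne hδ0
  have hall := ((eventually_all.2 hrd).and (eventually_all.2 hrz)).and (hinj.and hδev)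
  obtain ⟨ρ, hρ, hball⟩ := Metric.eventually_nhds_iff_ball.1 hall
  refine ⟨s, ρ, r, hρ, fun j ζ hζ => ((hball ζ hζ).1.1 j).differentiableWithinAt, fun ζ hζ => ?_⟩
  obtain ⟨⟨-, hz⟩, hi, hd⟩ := hball ζ hζ
  obtain ⟨hsep', hdeg', hne, hiff⟩ := h ζ hd
  have hinj' : Injective (fun j => r j ζ) := fun i j hij => by
    by_contra hne
    exact hi i j hne hij
  refine ⟨hne, hinj', fun z => ?_⟩
  rw [hiff]
  have hf0 : spec f ζ ≠ 0 := hsep'.ne_zero
  have hsub : Finset.univ.image (fun j => r j ζ) ⊆ (spec f ζ).roots.toFinset := by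
    intro w hw
    obtain ⟨j, -, rfl⟩ := Finset.mem_image.1 hw
    simp only [Multiset.mem_toFinset, mem_roots', IsRoot.def]
    exact ⟨hf0, hz j⟩
  have heq := Finset.eq_of_subset_of_card_le hsub (by
    rw [Finset.card_image_of_injective _ hinj', Finset.card_univ, Fintype.card_coe, hcard,
      ← hdeg']
    exact (Multiset.toFinset_card_le _).trans (card_roots' _))
  constructor
  · intro h0
    have : z ∈ (spec f ζ).roots.toFinset := by
      simp only [Multiset.mem_toFinset, mem_roots', IsRoot.def]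
      exact ⟨hf0, h0⟩
    rw [← heq] at this
    obtain ⟨j, -, rfl⟩ := Finset.mem_image.1 this
    exact ⟨j, rfl⟩
  · rintro ⟨j, rfl⟩
    exact hz j

end Pool.Agent.P.MP_376fb4_gt
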