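import Pool.Agent.P.MP_376fb4_gt.Cells
import Pool.Agent.P.MP_376fb4_gt.Roots

/-!
Power sums of the roots that are not locally regular are polynomials in the parameter.
-/

open Set Filter Topology Polynomial Metric Function

noncomputable section

namespace Pool.Agent.P.MP_376fb4_gt

theorem exists_poly_of_growth (k : ℕ) : ∀ (G : ℂ → ℂ) (C : ℝ), Differentiable ℂ G →
    (∀ ζ, ‖G ζ‖ ≤ C * (1 + ‖ζ‖) ^ k) → ∃ q : ℂ[X], q.natDegree ≤ k ∧ ∀ ζ, G ζ = q.eval ζ := by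
  induction k with
  | zero =>
    intro G C hG hb
    obtain ⟨c, hc⟩ := hG.exists_const_forall_eq_of_bounded (by
      refine (isBounded_closedBall (x := (0 : ℂ)) (r := C)).subset ?_
      rintro _ ⟨ζ, rfl⟩
      simpa using hb ζ)
    exact ⟨Polynomial.C c, by simp, fun ζ => by simp [hc]⟩
  | succ k ih =>
    intro G C hG hb
    have hd : Differentiable ℂ (dslope G 0) := by
      rw [← differentiableOn_univ]
      exact (Complex.differentiableOn_dslope univ_mem).2 hG.differentiableOn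
    obtain ⟨M, hM⟩ := (isCompact_closedBall (0 : ℂ) 1).exists_bound_of_continuousOn
      hd.continuous.continuousOn
    have hC : 0 ≤ C := by
      have := (norm_nonneg _).trans (hb 0)
      simpa using this
    have hM0 : 0 ≤ M := (norm_nonneg _).trans (hM 0 (by simp))
    obtain ⟨q, hq, hq'⟩ := ih (dslope G 0) (M + 4 * C) hd (fun ζ => by
      have h1 : (1 : ℝ) ≤ (1 + ‖ζ‖) ^ k := one_le_pow₀ (by linarith [norm_nonneg ζ])
      by_cases hζ : ‖ζ‖ ≤ 1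
      · have := hM ζ (by simpa using hζ)
        nlinarith
      · push Not at hζ
        have h2 : ‖ζ‖ * ‖dslope G 0 ζ‖ ≤ 2 * C * (1 + ‖ζ‖) ^ (k + 1) := by
          have h3 := sub_smul_dslope G 0 ζ
          rw [sub_zero] at h3
          rw [← norm_smul, h3]
          have h4 := hb ζ
          have h5 := hb 0
          have h6 : (1 : ℝ) ≤ (1 + ‖ζ‖) ^ (k + 1) := one_le_pow₀ (by linarith [norm_nonneg ζ])
          simp only [norm_zero, add_zero, one_pow, mul_one] at h5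
          calc ‖G ζ - G 0‖ ≤ ‖G ζ‖ + ‖G 0‖ := norm_sub_le _ _
            _ ≤ _ := by nlinarith
        have h7 : ‖dslope G 0 ζ‖ ≤ 4 * C * (1 + ‖ζ‖) ^ k := by
          apply le_of_mul_le_mul_left _ (zero_lt_one.trans hζ)
          refine h2.trans ?_
          rw [pow_succ]
          have : 0 ≤ C * (1 + ‖ζ‖) ^ k := by positivity
          nlinarith
        nlinarith)
    refine ⟨Polynomial.C (G 0) + X * q, ?_, fun ζ => ?_⟩
    · refine (natDegree_add_le _ _).trans (max_le (by simp) ?_)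
      refine natDegree_mul_le.trans ?_
      have := natDegree_X_le (R := ℂ)
      omega
    · have h3 := sub_smul_dslope G 0 ζ
      rw [sub_zero, smul_eq_mul, hq'] at h3
      simp only [eval_add, eval_C, eval_mul, eval_X]
      rw [h3]
      ring

theorem exists_entire_of_bound {B : ℂ → ℝ} (hB : Continuous B) (Δ : Finset ℂ) :
    ∀ g : ℂ → ℂ, DifferentiableOn ℂ g (Δ : Set ℂ)ᶜ → (∀ ζ ∉ Δ, ‖g ζ‖ ≤ B ζ) →
      ∃ G : ℂ → ℂ, Differentiable ℂ G ∧ (∀ ζ, ‖G ζ‖ ≤ B ζ) ∧ ∀ ζ ∉ Δ, g ζ = G ζ := by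
  classical
  induction Δ using Finset.induction_on with
  | empty =>
    intro g hg hb
    exact ⟨g, by simpa [differentiableOn_univ] using hg, fun ζ => hb ζ (by simp), fun _ _ => rfl⟩
  | insert a Δ ha ih =>
    intro g hg hb
    have ho : IsOpen (Δ : Set ℂ)ᶜ := Δ.finite_toSet.isClosed.isOpen_compl
    have ho' : IsOpen ((insert a Δ : Finset ℂ) : Set ℂ)ᶜ :=
      (Finset.finite_toSet _).isClosed.isOpen_compl
    have hs : (Δ : Set ℂ)ᶜ ∩ closedBall a 1 ∈ 𝓝 a :=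
      inter_mem (ho.mem_nhds (by simpa using ha)) (closedBall_mem_nhds a one_pos)
    have hsub : ((Δ : Set ℂ)ᶜ ∩ closedBall a 1) \ {a} ⊆ ((insert a Δ : Finset ℂ) : Set ℂ)ᶜ := by
      intro z hz
      simp only [Finset.coe_insert, mem_compl_iff, mem_insert_iff, not_or]
      exact ⟨hz.2, hz.1.1⟩
    obtain ⟨M, hM⟩ := (isCompact_closedBall a 1).exists_bound_of_continuousOn hB.continuousOn
    have h1 := Complex.differentiableOn_update_limUnder_of_bddAbove hs (hg.mono hsub) (by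
      refine ⟨M, ?_⟩
      rintro _ ⟨z, hz, rfl⟩
      exact (hb z (by simpa using hsub hz)).trans ((le_abs_self _).trans (hM z hz.1.2)))
    set g' := update g a (limUnder (𝓝[≠] a) g) with hg'
    have h2 : DifferentiableAt ℂ g' a := h1.differentiableAt hs
    obtain ⟨G, hG1, hG2, hG3⟩ := ih g' (by
      intro z hz
      by_cases hza : z = a
      · subst hza
        exact h2.differentiableWithinAt
      · have hz' : z ∈ ((insert a Δ : Finset ℂ) : Set ℂ)ᶜ := by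
          simp only [Finset.coe_insert, mem_compl_iff, mem_insert_iff, not_or]
          exact ⟨hza, hz⟩
        refine ((hg.differentiableAt (ho'.mem_nhds hz')).congr_of_eventuallyEq
          ?_).differentiableWithinAt
        filter_upwards [isOpen_ne.mem_nhds hza] with w hw using update_of_ne hw _ _) (by
      intro z hz
      by_cases hza : z = a
      · subst hza
        refine le_of_tendsto_of_tendsto (b := 𝓝[≠] z)
          (h2.continuousAt.norm.tendsto.mono_left nhdsWithin_le_nhds)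
          (hB.continuousAt.tendsto.mono_left nhdsWithin_le_nhds) ?_
        filter_upwards [self_mem_nhdsWithin, mem_nhdsWithin_of_mem_nhds hs] with w hw1 hw2
        rw [hg', update_of_ne hw1]
        exact hb w (by simpa using hsub ⟨hw2, hw1⟩)
      · rw [hg', update_of_ne hza]
        exact hb z (by simp [hza, hz]))
    refine ⟨G, hG1, hG2, fun ζ hζ => ?_⟩
    simp only [Finset.mem_insert, not_or] at hζ
    rw [← hG3 ζ hζ.2, hg', update_of_ne hζ.1]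

theorem reg_of_far {m : ℕ} {p : ℂ[X]} (hp : p ≠ 0) {E : ℂ → ℂ} {R : ℝ} {F : ℂ → ℂ}
    (hF : IsSol m p E {z | R < ‖z‖ ∧ p.eval z ≠ 0} F) {r : ℂ} (hr : R < ‖r‖) :
    Reg m p E (farSeed p R F) r := by
  have hfin : ({z | p.eval z = 0} \ {r}).Finite :=
    (p.finite_setOf_isRoot hp).subset fun z hz => hz.1
  have ho : IsOpen ({z : ℂ | R < ‖z‖} \ ({z | p.eval z = 0} \ {r})) :=
    (isOpen_lt continuous_const continuous_norm).sdiff hfin.isClosed
  obtain ⟨ρ, hρ, hball⟩ := Metric.isOpen_iff.1 ho r ⟨hr, fun h => h.2 rfl⟩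
  have hsub : ball r ρ \ {r} ⊆ {z | R < ‖z‖ ∧ p.eval z ≠ 0} :=
    fun z hz => ⟨(hball hz.1).1, fun h => (hball hz.1).2 ⟨h, hz.2⟩⟩
  exact ⟨ρ, hρ, F, hF.mono hsub, fun z hz => seed_subset_leaf ⟨(hsub hz).1, (hsub hz).2, rfl⟩⟩

theorem nice_spec (p : ℂ[X][X]) {E : ℂ → ℂ → ℂ} (Ec : Continuous fun x : ℂ × ℂ => E x.1 x.2)
    (Ed : ∀ z, Differentiable ℂ fun ζ => E ζ z) (Ez : ∀ ζ, Differentiable ℂ (E ζ)) :
    NiceFam (spec p) E := by
  have h1 : ∀ (q : ℂ[X][X]) (z : ℂ), Differentiable ℂ fun ζ => (spec q ζ).eval z := fun q z =>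
    ((contDiff_spec q).differentiable one_ne_zero).comp
      (differentiable_id.prodMk (differentiable_const z))
  refine ⟨(contDiff_spec p).continuous, ?_, Ec, h1 p, ?_, Ed, Ez⟩
  · simpa only [spec, derivative_map] using (contDiff_spec (derivative p)).continuous
  · simpa only [spec, derivative_map] using h1 (derivative p)

theorem core_power_sums {m : ℕ} (hm : m ≠ 0) {p : ℂ[X][X]} (hp : p ≠ 0) {E : ℂ → ℂ → ℂ}
    (hN : NiceFam (spec p) E) {R : ℂ → ℝ} (hR : Continuous R) (hR0 : ∀ ζ, 0 ≤ R ζ) {C : ℝ}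
    (hRC : ∀ ζ, R ζ ≤ C * (1 + ‖ζ‖)) {F : ℂ → ℂ → ℂ}
    (hF : ∀ ζ, IsSol m (spec p ζ) (E ζ) {z | R ζ < ‖z‖ ∧ (spec p ζ).eval z ≠ 0} (F ζ))
    (hFd : ∀ b ζ, R ζ < ‖b‖ → DifferentiableAt ℂ (fun ζ => F ζ b) ζ) :
    ∃ (Δ : Finset ℂ) (S : ℂ → Finset ℂ), (∀ ζ ∉ Δ, spec p ζ ≠ 0) ∧
      (∀ ζ, ∀ r ∈ S ζ, (spec p ζ).eval r = 0 ∧ ¬ ∀ᶠ x : ℂ × ℂ in 𝓝 (ζ, r),
        (spec p x.1).eval x.2 = 0 →
          Reg m (spec p x.1) (E x.1) (farSeed (spec p x.1) (R x.1) (F x.1)) x.2) ∧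
      (∀ ζ ∉ Δ, ∀ r, (spec p ζ).eval r = 0 →
        ¬ Reg m (spec p ζ) (E ζ) (farSeed (spec p ζ) (R ζ) (F ζ)) r → r ∈ S ζ) ∧
      ∀ k : ℕ, ∃ q : ℂ[X], q.natDegree ≤ k ∧ ∀ ζ ∉ Δ, ∑ r ∈ S ζ, r ^ k = q.eval ζ := by
  classical
  obtain ⟨Δ, hΔ⟩ := exists_roots p hp
  let Rg : ℂ → ℂ → Prop := fun ζ r =>
    Reg m (spec p ζ) (E ζ) (farSeed (spec p ζ) (R ζ) (F ζ)) r
  let Good : ℂ → ℂ → Prop := fun ζ r =>
    ∀ᶠ x : ℂ × ℂ in 𝓝 (ζ, r), (spec p x.1).eval x.2 = 0 → Rg x.1 x.2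
  let S : ℂ → Finset ℂ := fun ζ => (spec p ζ).roots.toFinset.filter fun r => ¬ Good ζ r
  have hne : ∀ ζ ∉ Δ, ∀ᶠ ζ' in 𝓝 ζ, spec p ζ' ≠ 0 := by
    intro ζ hζ
    obtain ⟨s, ρ, r, hρ, -, h⟩ := hΔ ζ hζ
    filter_upwards [ball_mem_nhds ζ hρ] with ζ' hζ' using (h ζ' hζ').1
  have hmemS : ∀ ζ, spec p ζ ≠ 0 → ∀ r, r ∈ S ζ ↔ (spec p ζ).eval r = 0 ∧ ¬ Good ζ r := by
    intro ζ hζ r
    simp only [S, Finset.mem_filter, Multiset.mem_toFinset, mem_roots hζ, IsRoot.def]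
  have hbound : ∀ ζ ∉ Δ, ∀ r ∈ S ζ, ‖r‖ ≤ R ζ := by
    intro ζ hζ r hr
    by_contra hlt
    push Not at hlt
    apply ((hmemS ζ (hne ζ hζ).self_of_nhds r).1 hr).2
    have e1 : ∀ᶠ x : ℂ × ℂ in 𝓝 (ζ, r), spec p x.1 ≠ 0 :=
      (continuousAt_fst (p := (ζ, r))).eventually (hne ζ hζ)
    have e2 : ∀ᶠ x : ℂ × ℂ in 𝓝 (ζ, r), R x.1 < ‖x.2‖ :=
      ContinuousAt.eventually_lt (f := fun x : ℂ × ℂ => R x.1) (g := fun x : ℂ × ℂ => ‖x.2‖)
        (by fun_prop) (by fun_prop) hlt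
    filter_upwards [e1, e2] with x h1 h2 _ using reg_of_far h1 (hF x.1) h2
  have hdiff : ∀ k : ℕ, DifferentiableOn ℂ (fun ζ => ∑ r ∈ S ζ, r ^ k) (Δ : Set ℂ)ᶜ := by
    intro k ζ₀ hζ₀
    obtain ⟨s, ρ, r, hρ, hrd, h⟩ := hΔ ζ₀ (by simpa using hζ₀)
    have hrc : ∀ j, ∀ ζ ∈ ball ζ₀ ρ, ContinuousAt (r j) ζ := fun j ζ hζ =>
      ((hrd j).differentiableAt (isOpen_ball.mem_nhds hζ)).continuousAt
    obtain ⟨ρ', hρ', hle, hdich⟩ := dichotomy hm hN hρ (fun j => hrc j ζ₀ (mem_ball_self hρ))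
      (fun ζ hζ => (h ζ hζ).2.1) (fun ζ hζ => (h ζ hζ).2.2) hR hR0 hF hFd
    have hsub : ball ζ₀ ρ' ⊆ ball ζ₀ ρ := ball_subset_ball hle
    let I : Finset s := Finset.univ.filter fun j => ¬ ∀ ζ ∈ ball ζ₀ ρ', Rg ζ (r j ζ)
    have hgood : ∀ ζ ∈ ball ζ₀ ρ', ∀ j, Good ζ (r j ζ) ↔ ∀ ζ ∈ ball ζ₀ ρ', Rg ζ (r j ζ) := by
      intro ζ hζ j
      constructor
      · intro hg
        refine (hdich j).resolve_right fun hc => ?_
        have h1 : Tendsto (fun ζ' => (ζ', r j ζ')) (𝓝 ζ) (𝓝 (ζ, r j ζ)) :=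
          (continuousAt_id.prodMk (hrc j ζ (hsub hζ))).tendsto
        have h2 : ∀ᶠ ζ' in 𝓝 ζ, ζ' ∈ {ζ ∈ ball ζ₀ ρ' | Rg ζ (r j ζ)} := by
          filter_upwards [h1.eventually hg, isOpen_ball.mem_nhds hζ] with ζ' h3 h4
          exact ⟨h4, h3 (((h ζ' (hsub h4)).2.2 _).2 ⟨j, rfl⟩)⟩
        obtain ⟨w, hw1, hw2⟩ := (hc.dense_compl ℝ).inter_nhds_nonempty h2
        exact hw1 hw2
      · intro hall
        have e1 : ∀ᶠ x : ℂ × ℂ in 𝓝 (ζ, r j ζ), x.1 ∈ ball ζ₀ ρ' :=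
          (continuousAt_fst (p := (ζ, r j ζ))).eventually (isOpen_ball.mem_nhds hζ)
        have e2 : ∀ᶠ x : ℂ × ℂ in 𝓝 (ζ, r j ζ), ∀ i, i ≠ j → x.2 ≠ r i x.1 := by
          simp only [eventually_all]
          intro i hij
          have hc : ContinuousAt (fun x : ℂ × ℂ => x.2 - r i x.1) (ζ, r j ζ) :=
            continuousAt_snd.sub (ContinuousAt.comp (f := Prod.fst) (hrc i ζ (hsub hζ))
              continuousAt_fst)
          have hne : r j ζ - r i ζ ≠ 0 :=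
            sub_ne_zero.2 fun h' => hij ((h ζ (hsub hζ)).2.1 h').symm
          filter_upwards [hc.eventually_ne hne] with x hx using sub_ne_zero.1 hx
        filter_upwards [e1, e2] with x h1 h2 h3
        obtain ⟨i, hi⟩ := ((h x.1 (hsub h1)).2.2 _).1 h3
        have hij : i = j := by
          by_contra hij
          exact h2 i hij hi
        rw [hi, hij]
        exact hall _ h1
    have hS : ∀ ζ ∈ ball ζ₀ ρ', S ζ = I.image fun j => r j ζ := by
      intro ζ hζ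
      ext z
      rw [hmemS ζ (h ζ (hsub hζ)).1, (h ζ (hsub hζ)).2.2]
      simp only [I, Finset.mem_image, Finset.mem_filter, Finset.mem_univ, true_and]
      constructor
      · rintro ⟨⟨j, rfl⟩, hj⟩
        exact ⟨j, fun h' => hj ((hgood ζ hζ j).2 h'), rfl⟩
      · rintro ⟨j, hj, rfl⟩
        exact ⟨⟨j, rfl⟩, fun h' => hj ((hgood ζ hζ j).1 h')⟩
    have hd : DifferentiableAt ℂ (fun ζ => ∑ j ∈ I, r j ζ ^ k) ζ₀ :=
      DifferentiableAt.fun_sum fun j _ =>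
        ((hrd j).differentiableAt (ball_mem_nhds ζ₀ hρ)).pow k
    refine (hd.congr_of_eventuallyEq ?_).differentiableWithinAt
    filter_upwards [ball_mem_nhds ζ₀ hρ'] with ζ hζ
    rw [hS ζ hζ, Finset.sum_image fun a _ b _ hab => (h ζ (hsub hζ)).2.1 hab]
  refine ⟨Δ, S, fun ζ hζ => (hne ζ hζ).self_of_nhds, fun ζ r hr => ?_, fun ζ hζ r h0 h1 => ?_,
    fun k => ?_⟩
  · simp only [S, Finset.mem_filter, Multiset.mem_toFinset, mem_roots', IsRoot.def] at hr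
    exact ⟨hr.1.2, hr.2⟩
  · exact (hmemS ζ (hne ζ hζ).self_of_nhds r).2 ⟨h0, fun hg => h1 (hg.self_of_nhds h0)⟩
  · obtain ⟨G, hG1, hG2, hG3⟩ := exists_entire_of_bound
      (B := fun ζ => p.natDegree * C ^ k * (1 + ‖ζ‖) ^ k) (by fun_prop) Δ _ (hdiff k) (by
        intro ζ hζ
        refine (norm_sum_le _ _).trans ?_
        have h1 : ∀ r ∈ S ζ, ‖r ^ k‖ ≤ (C * (1 + ‖ζ‖)) ^ k := by
          intro r hr
          rw [norm_pow]
          exact pow_le_pow_left₀ (norm_nonneg _) ((hbound ζ hζ r hr).trans (hRC ζ)) k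
        refine (Finset.sum_le_card_nsmul _ _ _ h1).trans ?_
        rw [nsmul_eq_mul, mul_assoc, ← mul_pow]
        refine mul_le_mul_of_nonneg_right ?_ (pow_nonneg ((hR0 ζ).trans (hRC ζ)) k)
        exact_mod_cast (Finset.card_filter_le _ _).trans ((Multiset.toFinset_card_le _).trans
          ((card_roots' _).trans natDegree_map_le)))
    obtain ⟨q, hq1, hq2⟩ := exists_poly_of_growth k G _ hG1 hG2
    exact ⟨q, hq1, fun ζ hζ => (hG3 ζ hζ).trans (hq2 ζ)⟩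

end Pool.Agent.P.MP_376fb4_gt
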