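import Pool.Agent.P.MP_376fb4_gt.Gap
import Pool.Agent.P.MP_376fb4_gt.PowerSums

/-!
The power sums of the two extreme levels are polynomial along lines of directions.
-/

open Set Filter Topology Polynomial Metric MeasureTheory Module
open scoped InnerProductSpace ENNReal

noncomputable section

namespace Pool.Agent.P.MP_376fb4_gt

variable {E : Type*} [NormedAddCommGroup E] [InnerProductSpace ℝ E] [FiniteDimensional ℝ E]
  [MeasurableSpace E] [BorelSpace E] {K : Set E} {m : ℕ}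

omit [FiniteDimensional ℝ E] [MeasurableSpace E] [BorelSpace E] in
theorem le_extr (hK : IsCompact K) {ε : ℝ} (hε : ε * ε = 1) (ξ : E) {x : E} (hx : x ∈ K) :
    ε * (⟪x, ξ⟫_ℝ - extr K ε ξ) ≤ 0 := by
  have := le_hs hK hx (ε • ξ)
  rw [inner_smul_right] at this
  rw [extr, mul_sub, ← mul_assoc, hε, one_mul]
  linarith

theorem Geo.extr_lt (h : Geo K) {ξ : E} (hξ : ξ ≠ 0) : extr K (-1) ξ < extr K 1 ξ := by
  obtain ⟨c, -, hc⟩ := h.lower (split_self h.compact) h.ne hξ (one_mul 1)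
  obtain ⟨s, ⟨⟨x, hx, hx'⟩, -⟩, hs⟩ := (hc.and self_mem_nhdsWithin).exists
  have h1 := le_extr h.compact (ε := -1) (by norm_num) ξ (interior_subset hx)
  have h2 : 0 < s := hs
  linarith

omit [FiniteDimensional ℝ E] [MeasurableSpace E] [BorelSpace E] in
theorem exists_bound_wL (hK : IsCompact K) (u v : E) :
    ∃ C, 0 ≤ C ∧ ∀ ζ, ∀ x ∈ K, ‖wL u v ζ x‖ ≤ C * (1 + ‖ζ‖) := by
  obtain ⟨C₁, h₁⟩ := hK.exists_bound_of_continuousOn (continuous_wK u).continuousOn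
  obtain ⟨C₂, h₂⟩ := hK.exists_bound_of_continuousOn (continuous_wK v).continuousOn
  refine ⟨max (max C₁ C₂) 0, le_max_right _ _, fun ζ x hx => ?_⟩
  have h3 : ‖wK u x‖ ≤ max (max C₁ C₂) 0 :=
    (h₁ x hx).trans ((le_max_left _ _).trans (le_max_left _ _))
  have h4 : ‖wK v x‖ ≤ max (max C₁ C₂) 0 :=
    (h₂ x hx).trans ((le_max_right _ _).trans (le_max_left _ _))
  refine (norm_add_le _ _).trans ?_
  rw [norm_mul, mul_add, mul_one, mul_comm _ ‖ζ‖]
  gcongr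

theorem Hyp.line (h : Hyp K m) {G : Set E} (hGo : IsOpen G)
    (hG : ∀ ξ ∈ G, ξ ≠ 0 ∧ ∀ t ∈ Ioo (extr K (-1) ξ) (extr K 1 ξ), t ∈ lev K ξ) {u : E}
    (hu : u ∈ G) (v : E) (k : ℕ) : ∃ q : ℂ[X], q.natDegree ≤ k ∧ ∀ ζ : ℝ,
      (extr K 1 (u + ζ • v) : ℂ) ^ k + (extr K (-1) (u + ζ • v) : ℂ) ^ k = q.eval (ζ : ℂ) := by
  classical
  have hK := h.geo.compact
  have := finite_restrict hK
  obtain ⟨N, hN⟩ := h.exists_bound
  obtain ⟨μ, hμ⟩ := h.exists_mu
  have hμ0 : μ ≠ 0 := by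
    have h6 : 0 < m * (finrank ℝ E - 1) :=
      Nat.mul_pos (Nat.pos_of_ne_zero h.hm) (by have := h.hn; omega)
    omega
  obtain ⟨p, hp0, hp, hs⟩ := exists_line_poly (m := m) hK u v (N := N)
    (infinite_univ.mono fun ζ _ => by simpa only [DivSol, one_mul, mem_ofPred_eq] using hN _)
  have hdeg : ∀ ζ, (spec p ζ).natDegree ≤ N := fun ζ => natDegree_map_le.trans hp
  obtain ⟨C, hC0, hC⟩ := exists_bound_wL hK u v
  choose M hM using exists_mom_poly hK u v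
  have hw : ∀ ζ, AEStronglyMeasurable (wL u v ζ) (volume.restrict K) := fun ζ =>
    (continuous_wL' u v ζ).aestronglyMeasurable
  have hR : ∀ ζ, ∀ᵐ x ∂(volume.restrict K), ‖wL u v ζ x‖ ≤ C * (1 + ‖ζ‖) := fun ζ =>
    ae_of_forall_mem hK (hC ζ)
  have hR0 : ∀ ζ : ℂ, 0 ≤ C * (1 + ‖ζ‖) := fun ζ => by positivity
  have hE : ∀ ζ z, Efun m N (spec p ζ).coeff (mom (volume.restrict K) (wL u v ζ)) z =
      -∑ i ∈ Finset.range (N + 1), (p.coeff i).eval ζ * ∑ b ∈ Finset.range (i - 1),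
        ((m * (b + 1) + i) * z ^ (i - 1 - 1 - b)) * (M b).eval ζ := by
    intro ζ z
    simp only [Efun, hM, coeff_map, coe_evalRingHom]
  obtain ⟨Δ, S, h1, h2, h3, h4⟩ := core_power_sums h.hm hp0
    (E := fun ζ => Efun m N (spec p ζ).coeff (mom (volume.restrict K) (wL u v ζ)))
    (nice_spec p (by simp only [hE]; fun_prop) (fun z => by simp only [hE]; fun_prop)
      (fun ζ => by unfold Efun; fun_prop))
    (R := fun ζ => C * (1 + ‖ζ‖)) (by fun_prop) hR0 (fun ζ => le_rfl)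
    (F := fun ζ => cauchy (volume.restrict K) (wL u v ζ))
    (fun ζ => (ode_of_Phi (hw ζ) (hR ζ) h.hm (hdeg ζ)).mono fun z hz =>
      ⟨⟨away_of_far (hR ζ) hz.1, (hs ζ).Phi_far (hw ζ) (hR0 ζ) (hR ζ) hz.1⟩, hz.2⟩)
    (by
      intro b ζ hb
      obtain ⟨δ, hδ, hδ'⟩ : ∃ δ > 0, C * (1 + ‖ζ‖) + δ < ‖b‖ :=
        ⟨(‖b‖ - C * (1 + ‖ζ‖)) / 2, by linarith, by linarith⟩
      have hU : IsOpen {ζ' : ℂ | C * (1 + ‖ζ'‖) + δ < ‖b‖} := isOpen_lt (by fun_prop) (by fun_prop)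
      have hlow : ∀ x ∈ K, ∀ ζ' ∈ {ζ' : ℂ | C * (1 + ‖ζ'‖) + δ < ‖b‖}, δ ≤ ‖b - wL u v ζ' x‖ := by
        intro x hx ζ' hζ'
        have h1 : C * (1 + ‖ζ'‖) + δ < ‖b‖ := hζ'
        linarith [hC ζ' x hx, norm_sub_norm_le b (wL u v ζ' x)]
      refine (differentiableOn_integral_of_bound (f := fun ζ x => (b - wL u v ζ x)⁻¹) hU
        (C := δ⁻¹) (fun ζ' _ => ?_) (ae_of_forall_mem hK fun x hx ζ' hζ' => ?_)
        (ae_of_forall_mem hK fun x hx ζ' hζ' => ?_)).differentiableAt (hU.mem_nhds hδ')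
      · exact ((continuous_const.sub (continuous_wL' u v ζ')).measurable.inv).aestronglyMeasurable
      · refine (DifferentiableAt.fun_inv (𝕜 := ℂ) (h := fun ζ => b - wL u v ζ x) ?_
          (norm_pos_iff.1 (hδ.trans_le (hlow x hx ζ' hζ')))).differentiableWithinAt
        unfold wL
        fun_prop
      · rw [norm_inv]
        exact inv_anti₀ hδ (hlow x hx ζ' hζ'))
  have hmem : ∀ ζ : ℝ, (ζ : ℂ) ∉ Δ → u + ζ • v ≠ 0 → ∀ ε : ℝ, ε * ε = 1 →
      (extr K ε (u + ζ • v) : ℂ) ∈ S ζ := by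
    intro ζ hζ hξ ε hε
    have hs' := hs ζ
    have hC' := hC ζ
    rw [wL_real] at hs' hC'
    obtain ⟨q₁, hq₁, hq₁'⟩ := h.factor hε hμ hξ (h1 _ hζ) hs'
    obtain ⟨c, hc0, hc⟩ := h.unique hξ (h1 _ hζ) hs'
    obtain ⟨c', -, hc'⟩ := h.geo.lower (split_self hK) h.geo.ne hξ hε
    refine h3 _ hζ _ (by rw [hq₁]; simp [hμ0]) ?_
    rw [wL_real]
    refine (h.realData hξ (hdeg ζ) hs').not_reg hc0 hc ?_ hε ?_ (hc'.mono fun s hs => hs.1) hμ
      hq₁ hq₁'
    · rintro x ⟨hx1, hx2, hx3⟩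
      refine ⟨?_, hx2, hx3⟩
      by_contra hcon
      push Not at hcon
      have h5 : |x.1.re| ≤ C * (1 + ‖(ζ : ℂ)‖) := by
        refine closure_minimal (s := lev K (u + ζ • v)) (t := {t : ℝ | |t| ≤ C * (1 + ‖(ζ : ℂ)‖)})
          ?_ (isClosed_le (by fun_prop) (by fun_prop)) hcon.2
        rintro _ ⟨y, hy, rfl⟩
        have := hC' y (interior_subset hy)
        rwa [wK, Complex.norm_real] at this
      rw [Complex.abs_re_eq_norm.2 hcon.1] at h5
      exact absurd hx1 (not_lt.2 h5)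
    · rintro _ ⟨y, hy, rfl⟩
      exact le_extr hK hε _ (interior_subset hy)
  have hsub : ∀ ζ : ℝ, (ζ : ℂ) ∉ Δ → u + ζ • v ∈ G → ∀ r ∈ S ζ,
      r = extr K 1 (u + ζ • v) ∨ r = extr K (-1) (u + ζ • v) := by
    intro ζ hζ hξ r hr
    obtain ⟨hr1, hr2⟩ := h2 _ r hr
    have hsep : ∀ θ : ℂ, θ ≠ 0 → ¬ ∀ x ∈ K, 0 < ((r - wK (u + ζ • v) x) * θ).re := by
      intro θ hθ hpos
      apply hr2
      rw [← wL_real] at hpos
      have e1 : ∀ᶠ y : ℂ × ℂ in 𝓝 ((ζ : ℂ), r), ∀ x ∈ K, 0 < ((y.2 - wL u v y.1 x) * θ).re := by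
        refine hK.eventually_forall_of_forall_eventually fun x hx => ?_
        have hc : Continuous fun z : (ℂ × ℂ) × E => ((z.1.2 - wL u v z.1.1 z.2) * θ).re := by
          unfold wL wK
          fun_prop
        exact hc.continuousAt.eventually (lt_mem_nhds (hpos x hx))
      have e2 : ∀ᶠ y : ℂ × ℂ in 𝓝 ((ζ : ℂ), r), y.1 ∉ Δ :=
        continuous_fst.continuousAt.eventually_mem
          (s := (Δ : Set ℂ)ᶜ) (Δ.finite_toSet.isClosed.isOpen_compl.mem_nhds hζ)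
      filter_upwards [e1, e2] with y hy1 hy2 _
      obtain ⟨δ, hδ, hδ'⟩ := hK.exists_forall_le'
        (f := fun x => ((y.2 - wL u v y.1 x) * θ).re) (by
          have := continuous_wL' u v y.1
          fun_prop) hy1
      exact (hs y.1).reg_of_sep (hw _) (hR0 _) (hR _) h.hm (h1 _ hy2) (hdeg _) hθ
        ⟨δ, hδ, ae_of_forall_mem hK hδ'⟩
    have him : r.im = 0 := by
      by_contra hne
      rcases lt_or_gt_of_ne hne with hlt | hlt
      · exact hsep Complex.I Complex.I_ne_zero fun x _ => by simpa [wK] using hlt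
      · exact hsep (-Complex.I) (neg_ne_zero.2 Complex.I_ne_zero) fun x _ => by
          simpa [wK] using hlt
    obtain ⟨t, rfl⟩ : ∃ t : ℝ, r = t := ⟨r.re, Complex.ext (by simp) (by simp [him])⟩
    have hle : t ≤ extr K 1 (u + ζ • v) := by
      by_contra hlt
      refine hsep 1 one_ne_zero fun x hx => ?_
      have := le_extr hK (one_mul 1) (u + ζ • v) hx
      simp only [wK, mul_one, Complex.sub_re, Complex.ofReal_re]
      linarith [not_le.1 hlt]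
    have hge : extr K (-1) (u + ζ • v) ≤ t := by
      by_contra hlt
      refine hsep (-1) (neg_ne_zero.2 one_ne_zero) fun x hx => ?_
      have := le_extr hK (ε := -1) (by norm_num) (u + ζ • v) hx
      simp only [wK, mul_neg, mul_one, Complex.neg_re, Complex.sub_re, Complex.ofReal_re]
      linarith [not_le.1 hlt]
    rcases hle.eq_or_lt with h5 | h5
    · exact Or.inl (by rw [h5])
    rcases hge.eq_or_lt with h6 | h6
    · exact Or.inr (by rw [h6])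
    exfalso
    have hs' := hs ζ
    rw [wL_real] at hs'
    obtain ⟨c, -, hc⟩ := h.unique (hG _ hξ).1 (h1 _ hζ) hs'
    have h7 := (hG _ hξ).2 t ⟨h6, h5⟩
    have h8 := hc t h7
    rw [hr1, mul_zero, pow_eq_zero_iff h.hm, Complex.ofReal_eq_zero] at h8
    exact (dens_pos hK (hG _ hξ).1 h7).ne' h8
  have hne : ∀ ξ : E, ξ ≠ 0 → (extr K 1 ξ : ℂ) ≠ extr K (-1) ξ := fun ξ hξ => by
    rw [Ne, Complex.ofReal_inj]
    exact (h.geo.extr_lt hξ).ne'
  have hfin : ((fun ζ : ℝ => (ζ : ℂ)) ⁻¹' (Δ : Set ℂ)).Finite :=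
    Δ.finite_toSet.preimage Complex.ofReal_injective.injOn
  have hc : Continuous fun ζ : ℝ => u + ζ • v := by fun_prop
  have hcard : ∀ ζ ∉ Δ, (S ζ).card = 2 := by
    obtain ⟨q, hq, hq'⟩ := h4 0
    obtain ⟨ζ₀, hζ₀, hζ₀'⟩ := (infinite_of_mem_nhds (0 : ℝ) (hc.continuousAt.preimage_mem_nhds
      (hGo.mem_nhds (by simpa using hu)))).exists_notMem_finite hfin
    have e : S ζ₀ = {(extr K 1 (u + ζ₀ • v) : ℂ), (extr K (-1) (u + ζ₀ • v) : ℂ)} := by
      ext r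
      rw [Finset.mem_insert, Finset.mem_singleton]
      refine ⟨hsub ζ₀ hζ₀' hζ₀ r, ?_⟩
      rintro (rfl | rfl)
      · exact hmem ζ₀ hζ₀' (hG _ hζ₀).1 1 (one_mul 1)
      · exact hmem ζ₀ hζ₀' (hG _ hζ₀).1 (-1) (by norm_num)
    intro ζ hζ
    have h5 := hq' ζ hζ
    have h6 := hq' ζ₀ hζ₀'
    rw [eq_C_of_natDegree_le_zero hq, eval_C] at h5 h6
    rw [← h6, e] at h5
    simp only [pow_zero, Finset.sum_const, nsmul_eq_mul, mul_one, Nat.cast_inj] at h5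
    rw [h5, Finset.card_pair (hne _ (hG _ hζ₀).1)]
  obtain ⟨q, hq, hq'⟩ := h4 k
  refine ⟨q, hq, fun ζ => ?_⟩
  have hfin2 : {ζ : ℝ | u + ζ • v = 0}.Finite := by
    refine Set.Subsingleton.finite fun a ha b hb => ?_
    have h5 : a • v = b • v := add_left_cancel (ha.trans hb.symm)
    refine smul_left_injective ℝ (fun h0 => (hG u hu).1 ?_) h5
    simpa [h0] using ha
  have hc1 := continuous_extr hK 1
  have hc2 := continuous_extr hK (-1)
  refine congrFun (Continuous.ext_on ((hfin.union hfin2).countable.dense_compl ℝ)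
    (f := fun ζ : ℝ => (extr K 1 (u + ζ • v) : ℂ) ^ k + (extr K (-1) (u + ζ • v) : ℂ) ^ k)
    (g := fun ζ : ℝ => q.eval (ζ : ℂ)) (by fun_prop) (by fun_prop) fun ζ hζ => ?_) ζ
  rw [mem_compl_iff, mem_union, not_or] at hζ
  have e : {(extr K 1 (u + ζ • v) : ℂ), (extr K (-1) (u + ζ • v) : ℂ)} = S ζ := by
    refine Finset.eq_of_subset_of_card_le ?_ (by rw [hcard _ hζ.1, Finset.card_pair (hne _ hζ.2)])
    intro r hr
    rw [Finset.mem_insert, Finset.mem_singleton] at hr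
    rcases hr with rfl | rfl
    · exact hmem ζ hζ.1 hζ.2 1 (one_mul 1)
    · exact hmem ζ hζ.1 hζ.2 (-1) (by norm_num)
  show _ = q.eval (ζ : ℂ)
  rw [← hq' _ hζ.1, ← e, Finset.sum_pair (hne _ hζ.2)]

end Pool.Agent.P.MP_376fb4_gt
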