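import Mathlib

/-!
Local structure of a body whose boundary is a twice differentiable hypersurface.
-/

open Set Filter Topology Metric Function
open scoped InnerProductSpace

noncomputable section

namespace Pool.Agent.P.MP_376fb4_gt

variable {E : Type*} [NormedAddCommGroup E] [InnerProductSpace ℝ E]

/-- The properties of a body with smooth boundary that are used in the proof. -/
structure Geo (K : Set E) : Prop where
  compact : IsCompact K
  ne : K.Nonempty
  clos : closure (interior K) = K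
  loc : ∀ p ∈ frontier K, ∃ U, IsOpen U ∧ p ∈ U ∧ IsPreconnected (U ∩ interior K) ∧
    IsPreconnected (U \ K)
  ball : ∀ p ∈ frontier K, ∃ c ρ, 0 < ρ ∧ closedBall c ρ ⊆ K ∧ dist p c = ρ

theorem side_aux {g : E → ℝ} {p v : E} {r η δ : ℝ} {U : Set E} (hδ : 0 < δ) (hη : 0 < η)
    (hU : ∀ y, y ∈ U ↔ ∃ x ∈ ball p η, ∃ s : ℝ, |s| < 2 * δ ∧ y = x + s • v)
    (hsub : U ⊆ ball p r)
    (hmono : ∀ x, ∀ s t : ℝ, s ≤ t → x + s • v ∈ ball p r → x + t • v ∈ ball p r →
      g (x + s • v) ≤ g (x + t • v))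
    (hpos : ∀ x ∈ ball p η, 0 < g (x + δ • v)) : IsPreconnected (U ∩ {y | 0 < g y}) := by
  have hδ2 : |δ| < 2 * δ := by rw [abs_of_pos hδ]; linarith
  apply isPreconnected_of_forall (p + δ • v)
  rintro y ⟨hy, hy'⟩
  obtain ⟨x, hx, s, hs, rfl⟩ := (hU y).1 hy
  refine ⟨(fun σ : ℝ => x + σ • v) '' uIcc s δ ∪ (fun z => z + δ • v) '' ball p η, ?_,
    Or.inr ⟨p, mem_ball_self hη, rfl⟩, Or.inl ⟨s, left_mem_uIcc, rfl⟩, ?_⟩
  · rintro _ (⟨σ, hσ, rfl⟩ | ⟨z, hz, rfl⟩)
    · have h1 : |σ| < 2 * δ := by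
        rw [abs_lt] at hs ⊢
        rcases mem_uIcc.1 hσ with h | h <;> constructor <;> linarith [h.1, h.2, hs.1, hs.2]
      have h2 : x + σ • v ∈ U := (hU _).2 ⟨x, hx, σ, h1, rfl⟩
      refine ⟨h2, ?_⟩
      rcases mem_uIcc.1 hσ with h | h
      · exact lt_of_lt_of_le hy' (hmono x s σ h.1 (hsub hy) (hsub h2))
      · exact lt_of_lt_of_le (hpos x hx)
          (hmono x δ σ h.1 (hsub ((hU _).2 ⟨x, hx, δ, hδ2, rfl⟩)) (hsub h2))
    · exact ⟨(hU _).2 ⟨z, hz, δ, hδ2, rfl⟩, hpos z hz⟩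
  · refine IsPreconnected.union (x + δ • v) ⟨δ, right_mem_uIcc, rfl⟩ ⟨x, hx, rfl⟩
      (isPreconnected_uIcc.image _ (by fun_prop))
      ((convex_ball p η).isPreconnected.image _ (by fun_prop))

theorem exists_sides_nhds {g : E → ℝ} {p : E} (hg : ContDiffAt ℝ 1 g p) (h0 : g p = 0)
    (hd : fderiv ℝ g p ≠ 0) {U₀ : Set E} (hU₀ : U₀ ∈ 𝓝 p) :
    ∃ U, IsOpen U ∧ p ∈ U ∧ U ⊆ U₀ ∧ IsPreconnected (U ∩ {y | 0 < g y}) ∧
      IsPreconnected (U ∩ {y | g y < 0}) := by
  obtain ⟨v, hv⟩ : ∃ v, 0 < fderiv ℝ g p v := by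
    by_contra hcon
    push Not at hcon
    apply hd
    ext v
    have h1 := hcon v
    have h2 := hcon (-v)
    rw [map_neg] at h2
    simp only [zero_apply]
    linarith
  have e1 : ∀ᶠ x in 𝓝 p, DifferentiableAt ℝ g x :=
    (hg.eventually (by simp)).mono fun x hx => hx.differentiableAt one_ne_zero
  have e2 : ∀ᶠ x in 𝓝 p, 0 < fderiv ℝ g x v :=
    continuousAt_const.eventually_lt
      ((hg.continuousAt_fderiv one_ne_zero).clm_apply continuousAt_const) hv
  obtain ⟨r, hr, hball⟩ := Metric.eventually_nhds_iff_ball.1 (e1.and (e2.and hU₀))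
  have hmono : ∀ x, StrictMonoOn (fun s : ℝ => g (x + s • v)) {s | x + s • v ∈ ball p r} := by
    intro x
    have hder : ∀ s : ℝ, x + s • v ∈ ball p r →
        HasDerivAt (fun s : ℝ => g (x + s • v)) (fderiv ℝ g (x + s • v) v) s := by
      intro s hs
      have h1 : HasDerivAt (fun s : ℝ => x + s • v) v s := by
        simpa using ((hasDerivAt_id s).smul_const v).const_add x
      exact (hball _ hs).1.hasFDerivAt.comp_hasDerivAt s h1
    refine strictMonoOn_of_deriv_pos ?_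
      (fun s hs => (hder s hs).continuousAt.continuousWithinAt) fun s hs => ?_
    · intro a ha b hb s t hs ht hst
      have := convex_ball p r ha hb hs ht hst
      have h2 : s • (x + a • v) + t • (x + b • v) = x + (s • a + t • b) • v := by
        rw [smul_add, smul_add, add_add_add_comm, ← add_smul, hst, one_smul, smul_smul,
          smul_smul, ← add_smul]
        rfl
      rwa [h2] at this
    · have hs' : s ∈ {s : ℝ | x + s • v ∈ ball p r} := interior_subset hs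
      rw [(hder s hs').deriv]
      exact (hball _ hs').2.1
  set δ : ℝ := r / (4 * (‖v‖ + 1)) with hδ
  have hδ0 : 0 < δ := by positivity
  have hδv : 2 * δ * ‖v‖ < r / 2 := by
    have : δ * (4 * (‖v‖ + 1)) = r := by rw [hδ]; field_simp
    nlinarith
  have hin : ∀ x ∈ ball p (r / 2), ∀ s : ℝ, |s| < 2 * δ → x + s • v ∈ ball p r := by
    intro x hx s hs
    rw [mem_ball, dist_eq_norm] at hx ⊢
    have h1 : ‖s • v‖ ≤ 2 * δ * ‖v‖ := by
      rw [norm_smul, Real.norm_eq_abs]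
      exact mul_le_mul_of_nonneg_right hs.le (norm_nonneg _)
    calc ‖x + s • v - p‖ = ‖(x - p) + s • v‖ := by congr 1; abel
      _ ≤ ‖x - p‖ + ‖s • v‖ := norm_add_le _ _
      _ < r := by linarith
  have hp2 : p ∈ ball p (r / 2) := mem_ball_self (by linarith)
  have hδ2 : |δ| < 2 * δ := by rw [abs_of_pos hδ0]; linarith
  have hδ3 : |-δ| < 2 * δ := by rwa [abs_neg]
  have h00 : p + (0 : ℝ) • v ∈ ball p r := by simpa using hr
  have a1 : 0 < g (p + δ • v) := by
    have := hmono p h00 (hin p hp2 δ hδ2) hδ0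
    simpa [h0] using this
  have a2 : g (p + (-δ) • v) < 0 := by
    have := hmono p (hin p hp2 _ hδ3) h00 (by linarith : -δ < 0)
    simpa [h0] using this
  have c1 : ContinuousAt (fun x => g (x + δ • v)) p :=
    ContinuousAt.comp (f := fun x => x + δ • v) (hball _ (hin p hp2 δ hδ2)).1.continuousAt
      (by fun_prop)
  have c2 : ContinuousAt (fun x => g (x + (-δ) • v)) p :=
    ContinuousAt.comp (f := fun x => x + (-δ) • v) (hball _ (hin p hp2 _ hδ3)).1.continuousAt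
      (by fun_prop)
  obtain ⟨η, hη, hηb⟩ := Metric.eventually_nhds_iff_ball.1
    ((continuousAt_const.eventually_lt c1 a1).and ((c2.eventually_lt continuousAt_const a2).and
      (ball_mem_nhds p (by linarith : 0 < r / 2))))
  let U : Set E := {y | ∃ x ∈ ball p η, ∃ s : ℝ, |s| < 2 * δ ∧ y = x + s • v}
  have hUsub : U ⊆ ball p r := by
    rintro _ ⟨x, hx, s, hs, rfl⟩
    exact hin x (hηb x hx).2.2 s hs
  refine ⟨U, ?_, ⟨p, mem_ball_self hη, 0, by simpa using hδ0, by simp⟩,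
    fun y hy => (hball y (hUsub hy)).2.2, ?_, ?_⟩
  · rw [isOpen_iff_mem_nhds]
    rintro _ ⟨x, hx, s, hs, rfl⟩
    have : ContinuousAt (fun y => y - s • v) (x + s • v) := by fun_prop
    filter_upwards [this.eventually_mem (s := ball p η) (by simpa using isOpen_ball.mem_nhds hx)]
      with y hy
    exact ⟨y - s • v, hy, s, hs, by simp⟩
  · exact side_aux hδ0 hη (fun _ => Iff.rfl) hUsub
      (fun x s t hst hs ht => (hmono x).monotoneOn hs ht hst) (fun x hx => (hηb x hx).1)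
  · have := side_aux (g := fun y => -g y) (v := -v) (U := U) (r := r) hδ0 hη (fun y => by
      constructor
      · rintro ⟨x, hx, s, hs, rfl⟩
        exact ⟨x, hx, -s, by rwa [abs_neg], by simp⟩
      · rintro ⟨x, hx, s, hs, rfl⟩
        exact ⟨x, hx, -s, by rwa [abs_neg], by simp⟩) hUsub (fun x s t hst hs ht => by
      rw [smul_neg, ← neg_smul] at hs ht
      rw [smul_neg, smul_neg, ← neg_smul, ← neg_smul]
      exact neg_le_neg ((hmono x).monotoneOn ht hs (neg_le_neg hst))) (fun x hx => by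
      have := (hηb x hx).2.1
      rw [smul_neg, ← neg_smul]
      linarith)
    simpa using this

theorem exists_inner_ball [CompleteSpace E] {f : E → ℝ} {p : E} (hf : ContDiffAt ℝ 2 f p)
    (h0 : f p = 0) (hd : fderiv ℝ f p ≠ 0) {U : Set E} (hU : U ∈ 𝓝 p) :
    ∃ c ρ, 0 < ρ ∧ closedBall c ρ ⊆ U ∩ {y | f y ≤ 0} ∧ dist p c = ρ := by
  obtain ⟨L, t, ht, hL⟩ := (hf.fderiv_right (m := 1) (by norm_num)).exists_lipschitzOnWith
  have e1 : ∀ᶠ x in 𝓝 p, DifferentiableAt ℝ f x :=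
    (hf.eventually (by simp)).mono fun x hx => hx.differentiableAt (by simp)
  obtain ⟨r, hr, hball⟩ := Metric.eventually_nhds_iff_ball.1 (e1.and (Eventually.and ht hU))
  set ν : E := (InnerProductSpace.toDual ℝ E).symm (fderiv ℝ f p) with hν
  have hν0 : ν ≠ 0 := by
    rw [hν]
    exact (map_ne_zero_iff _ (InnerProductSpace.toDual ℝ E).symm.injective).2 hd
  have hνn : 0 < ‖ν‖ := norm_pos_iff.2 hν0
  have htaylor : ∀ x ∈ ball p r, f x ≤ ⟪ν, x - p⟫_ℝ + L * ‖x - p‖ ^ 2 := by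
    intro x hx
    have hsub : closedBall p ‖x - p‖ ⊆ ball p r :=
      closedBall_subset_ball (by rwa [mem_ball, dist_eq_norm] at hx)
    have := (convex_closedBall p ‖x - p‖).norm_image_sub_le_of_norm_fderiv_le'
      (φ := fderiv ℝ f p) (C := L * ‖x - p‖) (x := p) (y := x)
      (fun y hy => (hball y (hsub hy)).1) (fun y hy => by
        have h1 := hL.dist_le_mul y (hball y (hsub hy)).2.1 p (hball p (mem_ball_self hr)).2.1
        rw [dist_eq_norm] at h1
        exact h1.trans (mul_le_mul_of_nonneg_left hy L.2))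
      (mem_closedBall_self (norm_nonneg _)) (by rw [mem_closedBall, dist_eq_norm])
    rw [h0, sub_zero, Real.norm_eq_abs] at this
    have h2 : ⟪ν, x - p⟫_ℝ = fderiv ℝ f p (x - p) := by
      rw [hν, InnerProductSpace.toDual_symm_apply]
    rw [h2]
    linarith [le_abs_self (f x - fderiv ℝ f p (x - p))]
  set ρ : ℝ := min (r / 3) (‖ν‖ / (2 * (L + 1))) with hρ
  have hL0 : (0 : ℝ) ≤ L := L.2
  have hρ0 : 0 < ρ := lt_min (by linarith) (by positivity)
  have hρ1 : ρ ≤ r / 3 := min_le_left _ _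
  have hρ2 : ρ * (2 * (L + 1)) ≤ ‖ν‖ := (le_div_iff₀ (by positivity)).1 (min_le_right _ _)
  have hn : ‖(ρ / ‖ν‖) • ν‖ = ρ := by
    rw [norm_smul, Real.norm_eq_abs, abs_of_pos (by positivity)]
    field_simp
  refine ⟨p - (ρ / ‖ν‖) • ν, ρ, hρ0, fun x hx => ?_, by
    rw [dist_eq_norm, sub_sub_cancel, hn]⟩
  rw [mem_closedBall, dist_eq_norm] at hx
  have e : x - (p - (ρ / ‖ν‖) • ν) = (x - p) + (ρ / ‖ν‖) • ν := by abel
  rw [e] at hx
  have hxb : x ∈ ball p r := by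
    rw [mem_ball, dist_eq_norm]
    have := norm_sub_le ((x - p) + (ρ / ‖ν‖) • ν) ((ρ / ‖ν‖) • ν)
    rw [add_sub_cancel_right, hn] at this
    linarith
  refine ⟨(hball x hxb).2.2, (htaylor x hxb).trans ?_⟩
  have h1 : ‖(x - p) + (ρ / ‖ν‖) • ν‖ ^ 2 ≤ ρ ^ 2 := pow_le_pow_left₀ (norm_nonneg _) hx 2
  rw [norm_add_sq_real, hn, inner_smul_right, real_inner_comm] at h1
  have h2 : ‖x - p‖ ^ 2 * ‖ν‖ + 2 * ρ * ⟪ν, x - p⟫_ℝ ≤ 0 := by
    have : ‖x - p‖ ^ 2 + 2 * (ρ / ‖ν‖ * ⟪ν, x - p⟫_ℝ) ≤ 0 := by linarith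
    have h3 := mul_le_mul_of_nonneg_right this hνn.le
    field_simp at h3
    linarith
  have h4 : 0 ≤ ‖x - p‖ ^ 2 := by positivity
  have h5 : 2 * ρ * (⟪ν, x - p⟫_ℝ + L * ‖x - p‖ ^ 2) ≤ 0 := by nlinarith
  by_contra hcon
  push Not at hcon
  have := mul_pos (by linarith : 0 < 2 * ρ) hcon
  linarith

theorem geo_aux [CompleteSpace E] {K : Set E} (hK : IsClosed K) {p : E} {U : Set E} (hU : IsOpen U)
    (hpU : p ∈ U) {g : E → ℝ} (hg : ContDiffAt ℝ 2 g p) (h0 : g p = 0) (hd : fderiv ℝ g p ≠ 0)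
    (hz : ∀ x ∈ U, x ∈ frontier K ↔ g x = 0) (h1 : IsPreconnected (U ∩ {y | 0 < g y}))
    (h2 : IsPreconnected (U ∩ {y | g y < 0})) (ha : U ∩ {y | g y < 0} ⊆ interior K)
    (hb : U ∩ {y | 0 < g y} ⊆ Kᶜ) :
    (∃ U, IsOpen U ∧ p ∈ U ∧ IsPreconnected (U ∩ interior K) ∧ IsPreconnected (U \ K)) ∧
      ∃ c ρ, 0 < ρ ∧ closedBall c ρ ⊆ K ∧ dist p c = ρ := by
  have hle : ∀ x ∈ U, g x ≤ 0 → x ∈ K := by
    intro x hx hx'
    rcases hx'.eq_or_lt with h | h
    · exact hK.frontier_subset ((hz x hx).2 h)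
    · exact interior_subset (ha ⟨hx, h⟩)
  constructor
  · refine ⟨U, hU, hpU, ?_, ?_⟩
    · convert h2 using 1
      refine Subset.antisymm (fun x hx => ⟨hx.1, ?_⟩) fun x hx => ⟨hx.1, ha hx⟩
      rcases lt_trichotomy (g x) 0 with h | h | h
      · exact h
      · exact absurd hx.2 ((hz x hx.1).2 h).2
      · exact absurd (interior_subset hx.2) (hb ⟨hx.1, h⟩)
    · convert h1 using 1
      refine Subset.antisymm (fun x hx => ⟨hx.1, ?_⟩) fun x hx => ⟨hx.1, hb hx⟩
      by_contra h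
      exact hx.2 (hle x hx.1 (not_lt.1 h))
  · obtain ⟨c, ρ, hρ, hsub, hdist⟩ := exists_inner_ball hg h0 hd (hU.mem_nhds hpU)
    exact ⟨c, ρ, hρ, fun x hx => hle x (hsub hx).1 (hsub hx).2, hdist⟩

theorem geo_of_smooth [CompleteSpace E] {K : Set E} (hK : IsCompact K) (hne : K.Nonempty)
    (hcl : closure (interior K) = K)
    (h : ∀ p ∈ frontier K, ∃ U, IsOpen U ∧ p ∈ U ∧ ∃ g : E → ℝ, ContDiffOn ℝ 2 g U ∧
      fderiv ℝ g p ≠ 0 ∧ frontier K ∩ U = {x ∈ U | g x = 0}) : Geo K := by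
  have key : ∀ p ∈ frontier K,
      (∃ U, IsOpen U ∧ p ∈ U ∧ IsPreconnected (U ∩ interior K) ∧ IsPreconnected (U \ K)) ∧
      ∃ c ρ, 0 < ρ ∧ closedBall c ρ ⊆ K ∧ dist p c = ρ := by
    intro p hp
    obtain ⟨U₀, hU₀, hpU₀, g, hg, hd, hz⟩ := h p hp
    have hg' : ContDiffAt ℝ 2 g p := hg.contDiffAt (hU₀.mem_nhds hpU₀)
    have hz' : ∀ x ∈ U₀, x ∈ frontier K ↔ g x = 0 := fun x hx =>
      ⟨fun h => (hz.le ⟨h, hx⟩).2, fun h => (hz.ge ⟨hx, h⟩).1⟩
    have h0 : g p = 0 := (hz' p hpU₀).1 hp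
    obtain ⟨U, hU, hpU, hsub, h1, h2⟩ := exists_sides_nhds (hg'.of_le (by norm_num)) h0 hd
      (hU₀.mem_nhds hpU₀)
    have hzU : ∀ x ∈ U, x ∈ frontier K ↔ g x = 0 := fun x hx => hz' x (hsub hx)
    have hside : ∀ S : Set E, IsPreconnected S → S ⊆ U → (∀ x ∈ S, g x ≠ 0) →
        S ⊆ interior K ∨ S ⊆ Kᶜ := by
      intro S hS hSU hSg
      refine hS.subset_or_subset isOpen_interior hK.isClosed.isOpen_compl
        (disjoint_compl_right.mono_left interior_subset) fun x hx => ?_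
      by_cases hxK : x ∈ K
      · left
        by_contra hx'
        exact hSg x hx ((hzU x (hSU hx)).1 ⟨subset_closure hxK, hx'⟩)
      · exact Or.inr hxK
    obtain ⟨x₁, hx₁U, hx₁⟩ : (U ∩ interior K).Nonempty := by
      have : p ∈ closure (interior K) := hcl.symm ▸ hK.isClosed.frontier_subset hp
      exact mem_closure_iff.1 this U hU hpU
    obtain ⟨x₂, hx₂U, hx₂⟩ : (U ∩ Kᶜ).Nonempty := by
      have : p ∈ closure Kᶜ := by
        rw [closure_compl]
        exact hp.2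
      exact mem_closure_iff.1 this U hU hpU
    have g1 : g x₁ ≠ 0 := fun h => ((hzU x₁ hx₁U).2 h).2 hx₁
    have g2 : g x₂ ≠ 0 := fun h => hx₂ (hK.isClosed.frontier_subset ((hzU x₂ hx₂U).2 h))
    rcases hside _ h1 inter_subset_left (fun x hx => ne_of_gt hx.2) with a | a <;>
    rcases hside _ h2 inter_subset_left (fun x hx => ne_of_lt hx.2) with b | b
    · exfalso
      rcases g2.lt_or_gt with h | h
      · exact hx₂ (interior_subset (b ⟨hx₂U, h⟩))
      · exact hx₂ (interior_subset (a ⟨hx₂U, h⟩))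
    · refine geo_aux hK.isClosed hU hpU (g := fun y => -g y) hg'.neg (by simp [h0]) ?_
        (fun x hx => by simpa using hzU x hx) (by simpa using h2) (by simpa using h1)
        (by simpa using a) (by simpa using b)
      rw [fderiv_fun_neg]
      exact neg_ne_zero.2 hd
    · exact geo_aux hK.isClosed hU hpU hg' h0 hd hzU h1 h2 b a
    · exfalso
      rcases g1.lt_or_gt with h | h
      · exact b ⟨hx₁U, h⟩ (interior_subset hx₁)
      · exact a ⟨hx₁U, h⟩ (interior_subset hx₁)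
  exact ⟨hK, hne, hcl, fun p hp => (key p hp).1, fun p hp => (key p hp).2⟩

end Pool.Agent.P.MP_376fb4_gt
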