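import Pool.Agent.P.MP_376fb4_gt.Dens
import Pool.Agent.P.MP_376fb4_gt.Roots

/-!
Solutions of the moment recurrence exist with bounded degree, depend polynomially on a parameter
along lines, and vanish to a fixed order at the extreme levels.
-/

open Set Filter Topology Polynomial Metric MeasureTheory Module
open scoped InnerProductSpace ENNReal

noncomputable section

namespace Pool.Agent.P.MP_376fb4_gt

variable {E : Type*} [NormedAddCommGroup E] [InnerProductSpace ℝ E] [FiniteDimensional ℝ E]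
  [MeasurableSpace E] [BorelSpace E] {K : Set E} {m : ℕ}

theorem Sol.C_mul {X : Type*} [MeasurableSpace X] {μ : Measure X} {w : X → ℂ} {q : ℂ[X]}
    (h : Sol m μ w q) (c : ℂ) : Sol m μ w (C c * q) := by
  intro j
  rw [← mul_zero c, ← h j, ← integral_const_mul]
  congr 1
  ext x
  simp only [derivative_C_mul, eval_mul, eval_C]
  ring

/-- The directions with a solution of bounded degree divisible by a given polynomial. -/
def DivSol (K : Set E) (m N : ℕ) (D : E → ℂ[X]) : Set E :=
  {ξ | ∃ q : ℂ[X], q ≠ 0 ∧ q.natDegree ≤ N ∧ Sol m (volume.restrict K) (wK ξ) (D ξ * q)}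

theorem isClosed_divSol (hK : IsCompact K) (N : ℕ) {D : E → ℂ[X]}
    (hD : Continuous fun x : E × ℂ => (D x.1).eval x.2)
    (hD' : Continuous fun x : E × ℂ => (D x.1).derivative.eval x.2) :
    IsClosed (DivSol K m N D) := by
  classical
  have e : DivSol K m N D = Prod.fst '' {x : E × sphere (0 : Fin (N + 1) → ℂ) 1 |
      Sol m (volume.restrict K) (wK x.1) (D x.1 * ofFn (N + 1) x.2.1)} := by
    ext ξ
    constructor
    · rintro ⟨q, hq0, hq, hs⟩
      have h1 := ofFn_comp_toFn_eq_id_of_natDegree_lt (Nat.lt_succ_of_le hq)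
      have h2 : toFn (N + 1) q ≠ 0 := fun h0 => hq0 (by rw [← h1, h0, map_zero])
      have h3 : ‖toFn (N + 1) q‖ ≠ 0 := norm_ne_zero_iff.2 h2
      refine ⟨(ξ, ⟨((‖toFn (N + 1) q‖⁻¹ : ℝ) : ℂ) • toFn (N + 1) q, ?_⟩), ?_, rfl⟩
      · rw [mem_sphere_zero_iff_norm, norm_smul, Complex.norm_real, norm_inv, norm_norm,
          inv_mul_cancel₀ h3]
      · show Sol m _ (wK ξ) (D ξ * ofFn (N + 1) (_ • _))
        rw [map_smul, h1, smul_eq_C_mul, mul_left_comm]
        exact hs.C_mul _
    · rintro ⟨⟨ξ, v, hv⟩, hs, rfl⟩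
      refine ⟨ofFn (N + 1) v, fun h0 => ?_, Nat.le_of_lt_succ (ofFn_natDegree_lt (by omega) v), hs⟩
      have : v = 0 := injective_ofFn (N + 1) (h0.trans (map_zero _).symm)
      simp [this] at hv
  rw [e]
  refine isClosedMap_fst_of_compactSpace _ ?_
  simp only [Sol, ofPred_forall]
  refine isClosed_iInter fun j => isClosed_eq ?_ continuous_const
  refine continuous_parametric_integral_of_continuous ?_ hK
  have hw : Continuous fun z : (E × sphere (0 : Fin (N + 1) → ℂ) 1) × E => wK z.1.1 z.2 := by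
    unfold wK
    fun_prop
  have h1 : Continuous fun z : (E × sphere (0 : Fin (N + 1) → ℂ) 1) × E =>
      (D z.1.1).eval (wK z.1.1 z.2) :=
    hD.comp (f := fun z : (E × sphere (0 : Fin (N + 1) → ℂ) 1) × E => (z.1.1, wK z.1.1 z.2))
      (by fun_prop)
  have h2 : Continuous fun z : (E × sphere (0 : Fin (N + 1) → ℂ) 1) × E =>
      (D z.1.1).derivative.eval (wK z.1.1 z.2) :=
    hD'.comp (f := fun z : (E × sphere (0 : Fin (N + 1) → ℂ) 1) × E => (z.1.1, wK z.1.1 z.2))
      (by fun_prop)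
  have hv : ∀ i, Continuous fun z : (E × sphere (0 : Fin (N + 1) → ℂ) 1) × E => z.1.2.1 i :=
    fun i => (continuous_apply i).comp
      (continuous_subtype_val.comp (continuous_snd.comp continuous_fst))
  have h3 : Continuous fun z : (E × sphere (0 : Fin (N + 1) → ℂ) 1) × E =>
      (ofFn (N + 1) z.1.2.1).eval (wK z.1.1 z.2) := by
    simp only [ofFn_eq_sum_monomial, eval_finsetSum, eval_monomial]
    exact continuous_finsetSum _ fun i _ => (hv i).mul (hw.pow _)
  have h4 : Continuous fun z : (E × sphere (0 : Fin (N + 1) → ℂ) 1) × E =>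
      (ofFn (N + 1) z.1.2.1).derivative.eval (wK z.1.1 z.2) := by
    simp only [ofFn_eq_sum_monomial, derivative_sum, derivative_monomial, eval_finsetSum,
      eval_monomial]
    exact continuous_finsetSum _ fun i _ => ((hv i).mul continuous_const).mul (hw.pow _)
  simp only [derivative_mul, eval_add, eval_mul]
  show Continuous fun z : (E × sphere (0 : Fin (N + 1) → ℂ) 1) × E => _
  simp only [Function.uncurry]
  fun_prop

theorem Hyp.exists_interior (h : Hyp K m) :
    ∃ N, (interior (DivSol K m N fun _ => 1)).Nonempty := by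
  have hK := h.geo.compact
  have : Nontrivial E := nontrivial_of_finrank_pos (R := ℝ) (by have := h.hn; omega)
  by_contra hc
  push Not at hc
  obtain ⟨t, W, hW1, hW2, hW3⟩ := h.geo.exists_cover
  have hcl : ∀ i, IsCompact (closure (W i)) := fun i =>
    hK.of_isClosed_subset isClosed_closure
      (closure_minimal ((hW2 i).trans interior_subset) hK.isClosed)
  have res : ∀ S : Set E, IsClosed S → interior S = ∅ → ∀ᶠ ξ in residual E, ξ ∉ S :=
    fun S h1 h2 => residual_of_dense_open h1.isOpen_compl (interior_eq_empty_iff_dense_compl.1 h2)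
  have r1 : ∀ᶠ ξ in residual E, ∀ N, ξ ∉ DivSol K m N fun _ => 1 :=
    eventually_countable_forall.2 fun N =>
      res _ (isClosed_divSol hK N (by simp only [eval_one]; fun_prop)
        (by simp only [derivative_one, eval_zero]; fun_prop)) (hc N)
  have r2 : ∀ᶠ ξ in residual E, ∀ i ∈ t, ∀ k : ℕ, ξ ∉ Bad (closure (W i)) (1 / (k + 1)) ∧
      -ξ ∉ Bad (closure (W i)) (1 / (k + 1)) := by
    refine (eventually_all_finset t).2 fun i _ => eventually_countable_forall.2 fun k => ?_
    have h1 := isClosed_bad (hcl i) (1 / (k + 1))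
    have h2 := interior_bad (hcl i) (δ := 1 / (k + 1)) (by positivity)
    refine (res _ h1 h2).and (res ((Homeomorph.neg E) ⁻¹' _) (h1.preimage continuous_neg) ?_)
    rw [← Homeomorph.preimage_interior, h2, preimage_empty]
  have r3 : ∀ᶠ ξ in residual E, ξ ∉ ({0} : Set E) := res _ isClosed_singleton (interior_singleton 0)
  obtain ⟨ξ, h1, h2, h3⟩ := (dense_of_mem_residual (r1.and (r2.and r3))).nonempty
  obtain ⟨q, hq0, hq⟩ := h.exists_sol h3 fun t₀ ht₀ =>
    sec_zero_of_not_bad h.hn hW1 hW2 hW3 h3 h2 ht₀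
  exact h1 q.natDegree ⟨q, hq0, le_rfl, by rwa [one_mul]⟩

/-- The linear functional of a complex direction. -/
def wL (u v : E) (ζ : ℂ) (x : E) : ℂ := wK u x + ζ * wK v x

omit [FiniteDimensional ℝ E] [MeasurableSpace E] [BorelSpace E] in
theorem wL_real (u v : E) (ζ : ℝ) : wL u v ζ = wK (u + ζ • v) := by
  ext x
  simp [wL, wK, inner_add_right, inner_smul_right]

omit [FiniteDimensional ℝ E] [MeasurableSpace E] [BorelSpace E] in
theorem continuous_wL (u v : E) : Continuous fun z : ℂ × E => wL u v z.1 z.2 := by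
  unfold wL wK
  fun_prop

omit [FiniteDimensional ℝ E] [MeasurableSpace E] [BorelSpace E] in
theorem continuous_wL' (u v : E) (ζ : ℂ) : Continuous (wL u v ζ) := by
  unfold wL wK
  fun_prop

theorem exists_mom_poly (hK : IsCompact K) (u v : E) (k : ℕ) :
    ∃ M : ℂ[X], ∀ ζ, mom (volume.restrict K) (wL u v ζ) k = M.eval ζ := by
  refine ⟨∑ l ∈ Finset.range (k + 1),
    C (∫ x in K, wK v x ^ l * wK u x ^ (k - l) * k.choose l) * X ^ l, fun ζ => ?_⟩
  have hu := continuous_wK u
  have hv := continuous_wK v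
  simp only [mom, wL, eval_finsetSum, eval_mul, eval_C, eval_pow, eval_X]
  simp only [add_comm (wK u _), add_pow]
  rw [integral_finsetSum]
  · refine Finset.sum_congr rfl fun l _ => ?_
    rw [← integral_mul_const]
    congr 1
    ext x
    ring
  · intro l _
    exact Continuous.continuousOn (by fun_prop) |>.integrableOn_compact hK

theorem exists_line_poly (hK : IsCompact K) (u v : E) {N : ℕ}
    (h : {ζ : ℝ | u + ζ • v ∈ DivSol K m N fun _ => 1}.Infinite) :
    ∃ p : ℂ[X][X], p ≠ 0 ∧ p.natDegree ≤ N ∧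
      ∀ ζ, Sol m (volume.restrict K) (wL u v ζ) (spec p ζ) := by
  classical
  have := finite_restrict hK
  choose M hM using exists_mom_poly hK u v
  have key : ∀ (ζ : ℂ) (q : ℂ[X]), q.natDegree ≤ N → (Sol m (volume.restrict K) (wL u v ζ) q ↔
      ∀ j : ℕ, ∑ i : Fin (N + 1), (C ((m + 1) * (i : ℕ) + m * j : ℂ) * M (i + j - 1)).eval ζ *
        q.coeff i = 0) := by
    intro ζ q hq
    obtain ⟨R, -, hR⟩ := exists_bound_cont hK (continuous_wL' u v ζ)
    refine forall_congr' fun j => ?_
    rw [sol_integral_eq (continuous_wL' u v ζ).aestronglyMeasurable hR m hq j, Finset.sum_range]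
    simp only [hM, eval_mul, eval_C, mul_comm (q.coeff _)]
  obtain ⟨y, hy0, hy⟩ := exists_poly_kernel
    (fun (j : ℕ) (i : Fin (N + 1)) => C ((m + 1) * (i : ℕ) + m * j : ℂ) * M (i + j - 1))
    (h.image Complex.ofReal_injective.injOn) (by
      rintro _ ⟨ζ, ⟨q, hq0, hq, hs⟩, rfl⟩
      rw [one_mul, ← wL_real, key _ q hq] at hs
      refine ⟨fun i => q.coeff i, fun h0 => hq0 ?_, hs⟩
      rw [← ofFn_comp_toFn_eq_id_of_natDegree_lt (Nat.lt_succ_of_le hq)]
      exact (congrArg (ofFn (N + 1)) h0).trans (map_zero _))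
  have hdeg : (ofFn (N + 1) y).natDegree ≤ N := Nat.le_of_lt_succ (ofFn_natDegree_lt (by omega) y)
  refine ⟨ofFn (N + 1) y, fun h0 => hy0 (injective_ofFn (N + 1) (h0.trans (map_zero _).symm)),
    hdeg, fun ζ => (key ζ _ (natDegree_map_le.trans hdeg)).2 fun j => ?_⟩
  have := congrArg (eval ζ) (hy j)
  rw [eval_finsetSum, eval_zero] at this
  rw [← this]
  refine Finset.sum_congr rfl fun i _ => ?_
  rw [coeff_map, ofFn_coeff_eq_val_of_lt y i.2, eval_mul (q := y i)]
  rfl

theorem finite_spec_zero {p : ℂ[X][X]} (hp : p ≠ 0) : {ζ : ℝ | spec p ζ = 0}.Finite := by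
  have h1 : {ζ : ℂ | p.leadingCoeff.IsRoot ζ}.Finite :=
    finite_setOf_isRoot (leadingCoeff_ne_zero.2 hp)
  refine (h1.preimage Complex.ofReal_injective.injOn).subset fun ζ hζ => ?_
  have := congrArg (coeff · p.natDegree) (show spec p ζ = 0 from hζ)
  simpa [coeff_map] using this

theorem Hyp.exists_bound (h : Hyp K m) :
    ∃ N, ∀ ξ, ∃ q : ℂ[X], q ≠ 0 ∧ q.natDegree ≤ N ∧ Sol m (volume.restrict K) (wK ξ) q := by
  have hK := h.geo.compact
  obtain ⟨N, u, hu⟩ := h.exists_interior
  refine ⟨N, fun ξ => ?_⟩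
  have hc : Continuous fun ζ : ℝ => u + ζ • (ξ - u) := by fun_prop
  obtain ⟨p, hp0, hp, hs⟩ := exists_line_poly (m := m) hK u (ξ - u) (N := N)
    (infinite_of_mem_nhds (0 : ℝ) (hc.continuousAt.preimage_mem_nhds
      (by simpa using mem_interior_iff_mem_nhds.1 hu)))
  have hcl : IsClosed (DivSol K m N fun _ => 1) :=
    isClosed_divSol hK N (by simp only [eval_one]; fun_prop)
      (by simp only [derivative_one, eval_zero]; fun_prop)
  have : ξ ∈ DivSol K m N fun _ => 1 := by
    by_contra hξ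
    have h1 : (fun ζ : ℝ => u + ζ • (ξ - u)) ⁻¹' (DivSol K m N fun _ => 1)ᶜ ∈ 𝓝 (1 : ℝ) :=
      hc.continuousAt.preimage_mem_nhds (hcl.isOpen_compl.mem_nhds (by simpa using hξ))
    refine infinite_of_mem_nhds _ h1 ((finite_spec_zero hp0).subset fun ζ hζ => ?_)
    by_contra h0
    exact hζ ⟨spec p ζ, h0, natDegree_map_le.trans hp, by rw [one_mul, ← wL_real]; exact hs ζ⟩
  simpa only [DivSol, one_mul, mem_ofPred_eq] using this

omit [FiniteDimensional ℝ E] [MeasurableSpace E] [BorelSpace E] in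
theorem sign_smul_smul {ε : ℝ} (hε : ε * ε = 1) (ξ : E) : ε • ε • ξ = ξ := by
  rw [smul_smul, hε, one_smul]

theorem sign_ne_zero {ε : ℝ} (hε : ε * ε = 1) : ε ≠ 0 := by
  rintro rfl
  simp at hε

end Pool.Agent.P.MP_376fb4_gt
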