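import Mathlib

/-!
First order linear equation `m p Y' = p' Y + E` in the complex plane: local solutions,
the leaf generated by a seed, and elementary topology.
-/

open Set Filter Topology Polynomial Metric

noncomputable section

namespace Pool.Agent.P.MP_376fb4_gt

theorem locconst_prop {X : Type*} [TopologicalSpace X] {Ω : Set X} (hΩ : IsPreconnected Ω)
    (A : X → Prop) (h : ∀ z₀ ∈ Ω, ∀ᶠ z in 𝓝 z₀, (A z ↔ A z₀)) {x y : X} (hx : x ∈ Ω)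
    (hy : y ∈ Ω) (hA : A x) : A y := by
  have hsub : Ω ⊆ interior {z | A z} ∪ interior {z | ¬ A z} := by
    intro z hz
    by_cases hz' : A z
    · left
      rw [mem_interior_iff_mem_nhds]
      filter_upwards [h z hz] with w hw using hw.2 hz'
    · right
      rw [mem_interior_iff_mem_nhds]
      filter_upwards [h z hz] with w hw using fun hw' => hz' (hw.1 hw')
  have hdisj : Disjoint (interior {z | A z}) (interior {z | ¬ A z}) := by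
    rw [Set.disjoint_left]
    intro z h1 h2
    exact (interior_subset h2) (interior_subset h1)
  rcases hΩ.subset_or_subset isOpen_interior isOpen_interior hdisj hsub with h1 | h1
  · exact interior_subset (h1 hy)
  · exact absurd hA (interior_subset (h1 hx))

theorem isPreconnected_norm_mem (c : ℂ) {I : Set ℝ} (hI : IsPreconnected I) (hI0 : I ⊆ Ici 0) :
    IsPreconnected {z : ℂ | ‖z - c‖ ∈ I} := by
  have : {z : ℂ | ‖z - c‖ ∈ I} =
      (fun q : ℝ × ℝ => c + (q.1 : ℂ) * Complex.exp (q.2 * Complex.I)) '' (I ×ˢ univ) := by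
    ext z
    constructor
    · intro hz
      refine ⟨(‖z - c‖, Complex.arg (z - c)), ⟨hz, trivial⟩, ?_⟩
      simp only
      rw [Complex.norm_mul_exp_arg_mul_I]
      ring
    · rintro ⟨⟨ρ, θ⟩, ⟨hρ, -⟩, rfl⟩
      have h0 : (0 : ℝ) ≤ ρ := hI0 hρ
      simp only [mem_ofPred_eq, add_sub_cancel_left, norm_mul, Complex.norm_real,
        Complex.norm_exp_ofReal_mul_I, mul_one, Real.norm_eq_abs, abs_of_nonneg h0]
      exact hρ
  rw [this]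
  refine (hI.prod isPreconnected_univ).image _ ?_
  fun_prop

theorem isPreconnected_punctured_ball (c : ℂ) (r : ℝ) : IsPreconnected (ball c r \ {c}) := by
  have := isPreconnected_norm_mem c (isPreconnected_Ioo (a := 0) (b := r))
    (fun x hx => le_of_lt hx.1)
  convert this using 1
  ext z
  simp only [Set.mem_sdiff, mem_ball, dist_eq_norm, mem_singleton_iff, mem_ofPred_eq, mem_Ioo,
    norm_pos_iff, sub_ne_zero]
  tauto

theorem isPreconnected_far {R : ℝ} (hR : 0 ≤ R) : IsPreconnected {z : ℂ | R < ‖z‖} := by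
  have := isPreconnected_norm_mem 0 (isPreconnected_Ioi (a := R))
    (fun x hx => hR.trans (le_of_lt hx))
  simpa using this

theorem isPreconnected_diff_finite {Ω Φ : Set ℂ} (hΩo : IsOpen Ω) (hΩ : IsPreconnected Ω)
    (hΦ : Φ.Finite) : IsPreconnected (Ω \ Φ) := by
  apply isPreconnected_of_forall_constant
  intro f hf
  have hopen : IsOpen (Ω \ Φ) := hΩo.sdiff hΦ.isClosed
  have key : ∀ (b : Bool), ∀ z₀ ∈ Ω, ∀ᶠ z in 𝓝 z₀,
      ((∀ᶠ w in 𝓝[≠] z, f w = b) ↔ (∀ᶠ w in 𝓝[≠] z₀, f w = b)) := by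
    intro b z₀ hz₀
    have h1 : IsOpen (Ω \ (Φ \ {z₀})) := hΩo.sdiff (hΦ.subset sdiff_subset).isClosed
    obtain ⟨r, hr, hball⟩ := Metric.isOpen_iff.1 h1 z₀ ⟨hz₀, fun h => h.2 rfl⟩
    have hsub : ball z₀ r \ {z₀} ⊆ Ω \ Φ := fun w hw =>
      ⟨(hball hw.1).1, fun h => (hball hw.1).2 ⟨h, hw.2⟩⟩
    have hconst : ∀ w ∈ ball z₀ r \ {z₀}, ∀ w' ∈ ball z₀ r \ {z₀}, f w = f w' :=
      fun w hw w' hw' => (isPreconnected_punctured_ball z₀ r).constant (hf.mono hsub) hw hw'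
    have hev : ∀ z ∈ ball z₀ r, ∀ᶠ w in 𝓝[≠] z, w ∈ ball z₀ r \ {z₀} := by
      intro z hz
      have a1 : ∀ᶠ w in 𝓝[≠] z, w ∈ ball z₀ r :=
        mem_nhdsWithin_of_mem_nhds (isOpen_ball.mem_nhds hz)
      have a2 : ∀ᶠ w in 𝓝[≠] z, w ≠ z₀ := by
        by_cases hzz : z = z₀
        · subst hzz
          exact self_mem_nhdsWithin
        · exact mem_nhdsWithin_of_mem_nhds (isOpen_ne.mem_nhds hzz)
      filter_upwards [a1, a2] with w h1 h2 using ⟨h1, h2⟩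
    have hiff : ∀ z ∈ ball z₀ r, ∀ z' ∈ ball z₀ r,
        (∀ᶠ w in 𝓝[≠] z, f w = b) → (∀ᶠ w in 𝓝[≠] z', f w = b) := by
      intro z hz z' hz' h
      obtain ⟨w, hw1, hw2⟩ := (h.and (hev z hz)).exists
      filter_upwards [hev z' hz'] with w' hw'
      rw [hconst w' hw' w hw2, hw1]
    filter_upwards [isOpen_ball.mem_nhds (mem_ball_self hr)] with z hz
    exact ⟨hiff z hz z₀ (mem_ball_self hr), hiff z₀ (mem_ball_self hr) z hz⟩
  have hloc : ∀ x ∈ Ω \ Φ, ∀ᶠ w in 𝓝[≠] x, f w = f x := by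
    intro x hx
    have : ContinuousAt f x := hf.continuousAt (hopen.mem_nhds hx)
    have h2 : ∀ᶠ b in 𝓝 (f x), b = f x := by
      rw [nhds_discrete]; simp
    exact mem_nhdsWithin_of_mem_nhds (this.eventually h2)
  intro x hx y hy
  have := locconst_prop hΩ (fun z => ∀ᶠ w in 𝓝[≠] z, f w = f x) (key (f x)) hx.1 hy.1 (hloc x hx)
  obtain ⟨w, hw1, hw2⟩ := (this.and (hloc y hy)).exists
  rw [← hw1, hw2]

/-- `Y` solves `m p Y' = p' Y + E` on `Ω`, a set free of roots of `p`. -/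
def IsSol (m : ℕ) (p : ℂ[X]) (E : ℂ → ℂ) (Ω : Set ℂ) (Y : ℂ → ℂ) : Prop :=
  ∀ z ∈ Ω, p.eval z ≠ 0 ∧
    HasDerivAt Y ((p.derivative.eval z * Y z + E z) / (m * p.eval z)) z

theorem IsSol.mono {m : ℕ} {p : ℂ[X]} {E : ℂ → ℂ} {Ω Ω' : Set ℂ} {Y : ℂ → ℂ}
    (h : IsSol m p E Ω Y) (hs : Ω' ⊆ Ω) : IsSol m p E Ω' Y := fun z hz => h z (hs hz)

theorem IsSol.continuousAt {m : ℕ} {p : ℂ[X]} {E : ℂ → ℂ} {Ω : Set ℂ} {Y : ℂ → ℂ}
    (h : IsSol m p E Ω Y) {z : ℂ} (hz : z ∈ Ω) : ContinuousAt Y z := (h z hz).2.continuousAt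

/-- A holomorphic branch of `(c p)^(1/m)` on `Ω`. -/
def IsBranch (m : ℕ) (p : ℂ[X]) (c : ℂ) (Ω : Set ℂ) (a : ℂ → ℂ) : Prop :=
  ∀ z ∈ Ω, a z ^ m = c * p.eval z ∧
    HasDerivAt a (p.derivative.eval z * a z / (m * p.eval z)) z

theorem exists_primitive {Ω : Set ℂ} (hc : Convex ℝ Ω) (ho : IsOpen Ω) {f : ℂ → ℂ}
    (hf : DifferentiableOn ℂ f Ω) : ∃ g : ℂ → ℂ, ∀ z ∈ Ω, HasDerivAt g (f z) z := by
  obtain ⟨g, hg⟩ := hc.exists_forall_hasDerivWithinAt hf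
  exact ⟨g, fun z hz => (hg z hz).hasDerivAt (ho.mem_nhds hz)⟩

theorem const_of_hasDerivAt_zero {Ω : Set ℂ} (ho : IsOpen Ω) (hc : IsPreconnected Ω) {f : ℂ → ℂ}
    (hf : ∀ z ∈ Ω, HasDerivAt f 0 z) {x y : ℂ} (hx : x ∈ Ω) (hy : y ∈ Ω) : f x = f y :=
  ho.is_const_of_deriv_eq_zero hc (fun z hz => (hf z hz).differentiableAt.differentiableWithinAt)
    (fun z hz => (hf z hz).deriv) hx hy

theorem exists_branch {m : ℕ} (hm : m ≠ 0) (p : ℂ[X]) {c : ℂ} (hc0 : c ≠ 0) {Ω : Set ℂ}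
    (hc : Convex ℝ Ω) (ho : IsOpen Ω) (hp : ∀ z ∈ Ω, p.eval z ≠ 0) :
    ∃ a, IsBranch m p c Ω a := by
  rcases Ω.eq_empty_or_nonempty with rfl | ⟨z₀, hz₀⟩
  · exact ⟨0, fun z hz => absurd hz (notMem_empty z)⟩
  have hm' : (m : ℂ) ≠ 0 := Nat.cast_ne_zero.2 hm
  obtain ⟨L, hL⟩ := exists_primitive hc ho
    (f := fun z => p.derivative.eval z / (m * p.eval z)) (by
      intro z hz
      refine DifferentiableAt.differentiableWithinAt ?_
      exact (p.derivative.differentiableAt).div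
        ((differentiableAt_const _).mul p.differentiableAt) (mul_ne_zero hm' (hp z hz)))
  obtain ⟨k, hk⟩ := IsAlgClosed.exists_pow_nat_eq
    (c * p.eval z₀ / Complex.exp (L z₀) ^ m) (Nat.pos_of_ne_zero hm)
  have hder : ∀ z ∈ Ω, HasDerivAt (fun z => k * Complex.exp (L z))
      (p.derivative.eval z * (k * Complex.exp (L z)) / (m * p.eval z)) z := by
    intro z hz
    refine (((hL z hz).cexp).const_mul k).congr_deriv ?_
    ring
  refine ⟨fun z => k * Complex.exp (L z), fun z hz => ⟨?_, hder z hz⟩⟩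
  have hzero : ∀ z ∈ Ω, HasDerivAt (fun z => (k * Complex.exp (L z)) ^ m / p.eval z) 0 z := by
    intro z hz
    have h1 := ((hder z hz).fun_pow m).fun_div (p.hasDerivAt z) (hp z hz)
    refine h1.congr_deriv ?_
    obtain ⟨j, rfl⟩ := Nat.exists_eq_succ_of_ne_zero hm
    have := hp z hz
    simp only [Nat.succ_eq_add_one, Nat.add_sub_cancel]
    field_simp
    ring
  have h2 := const_of_hasDerivAt_zero ho hc.isPreconnected hzero hz hz₀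
  have h3 := hp z hz
  have h4 := hp z₀ hz₀
  have h5 : Complex.exp (L z₀) ^ m ≠ 0 := pow_ne_zero _ (Complex.exp_ne_zero _)
  have h6 : (k * Complex.exp (L z₀)) ^ m / p.eval z₀ = c := by
    rw [mul_pow, hk]
    field_simp
  simp only at h2 ⊢
  rw [h6] at h2
  field_simp at h2
  rw [h2]
  ring

theorem IsBranch.ne_zero {m : ℕ} (hm : m ≠ 0) {p : ℂ[X]} {c : ℂ} (hc0 : c ≠ 0) {Ω : Set ℂ}
    {a : ℂ → ℂ} (ha : IsBranch m p c Ω a) {z : ℂ} (hz : z ∈ Ω) (hp : p.eval z ≠ 0) :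
    a z ≠ 0 := by
  intro h
  have := (ha z hz).1
  rw [h, zero_pow hm] at this
  exact mul_ne_zero hc0 hp this.symm

theorem IsSol.sub_eq_mul {m : ℕ} (hm : m ≠ 0) {p : ℂ[X]} {E : ℂ → ℂ} {c : ℂ} (hc0 : c ≠ 0)
    {Ω : Set ℂ} (ho : IsOpen Ω) (hc : IsPreconnected Ω) {Y₁ Y₂ a : ℂ → ℂ}
    (h₁ : IsSol m p E Ω Y₁) (h₂ : IsSol m p E Ω Y₂) (ha : IsBranch m p c Ω a) :
    ∃ k : ℂ, ∀ z ∈ Ω, Y₁ z - Y₂ z = k * a z := by
  rcases Ω.eq_empty_or_nonempty with rfl | ⟨z₀, hz₀⟩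
  · exact ⟨0, fun z hz => absurd hz (notMem_empty z)⟩
  have hm' : (m : ℂ) ≠ 0 := Nat.cast_ne_zero.2 hm
  have hane : ∀ z ∈ Ω, a z ≠ 0 := fun z hz => ha.ne_zero hm hc0 hz (h₁ z hz).1
  have hzero : ∀ z ∈ Ω, HasDerivAt (fun z => (Y₁ z - Y₂ z) / a z) 0 z := by
    intro z hz
    have h1 := (((h₁ z hz).2).fun_sub ((h₂ z hz).2)).fun_div (ha z hz).2 (hane z hz)
    refine h1.congr_deriv ?_
    have := (h₁ z hz).1
    have := hane z hz
    field_simp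
    ring
  refine ⟨(Y₁ z₀ - Y₂ z₀) / a z₀, fun z hz => ?_⟩
  have := const_of_hasDerivAt_zero ho hc hzero hz hz₀
  rw [← this]
  have := hane z hz
  field_simp

theorem IsSol.unique {m : ℕ} (hm : m ≠ 0) {p : ℂ[X]} {E : ℂ → ℂ}
    {Ω : Set ℂ} (ho : IsOpen Ω) (hc : Convex ℝ Ω) {Y₁ Y₂ : ℂ → ℂ}
    (h₁ : IsSol m p E Ω Y₁) (h₂ : IsSol m p E Ω Y₂) {z₀ : ℂ} (hz₀ : z₀ ∈ Ω)
    (heq : Y₁ z₀ = Y₂ z₀) {z : ℂ} (hz : z ∈ Ω) : Y₁ z = Y₂ z := by
  obtain ⟨a, ha⟩ := exists_branch hm p one_ne_zero hc ho (fun z hz => (h₁ z hz).1)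
  obtain ⟨k, hk⟩ := h₁.sub_eq_mul hm one_ne_zero ho hc.isPreconnected h₂ ha
  have h0 := hk z₀ hz₀
  rw [heq, sub_self] at h0
  have hk0 : k = 0 :=
    (mul_eq_zero.1 h0.symm).resolve_right (ha.ne_zero hm one_ne_zero hz₀ (h₁ z₀ hz₀).1)
  have := hk z hz
  rw [hk0, zero_mul] at this
  exact sub_eq_zero.1 this

theorem exists_sol {m : ℕ} (hm : m ≠ 0) (p : ℂ[X]) {E : ℂ → ℂ} (hE : Differentiable ℂ E)
    {Ω : Set ℂ} (hc : Convex ℝ Ω) (ho : IsOpen Ω) (hp : ∀ z ∈ Ω, p.eval z ≠ 0)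
    {z₀ : ℂ} (hz₀ : z₀ ∈ Ω) (y₀ : ℂ) : ∃ Y, IsSol m p E Ω Y ∧ Y z₀ = y₀ := by
  have hm' : (m : ℂ) ≠ 0 := Nat.cast_ne_zero.2 hm
  obtain ⟨a, ha⟩ := exists_branch hm p one_ne_zero hc ho hp
  have hane : ∀ z ∈ Ω, a z ≠ 0 := fun z hz => ha.ne_zero hm one_ne_zero hz (hp z hz)
  obtain ⟨G, hG⟩ := exists_primitive hc ho
    (f := fun z => E z / (m * p.eval z * a z)) (by
      intro z hz
      refine DifferentiableAt.differentiableWithinAt ?_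
      exact (hE z).div (((differentiableAt_const _).mul p.differentiableAt).mul
        (ha z hz).2.differentiableAt) (mul_ne_zero (mul_ne_zero hm' (hp z hz)) (hane z hz)))
  refine ⟨fun z => a z * (G z - G z₀ + y₀ / a z₀), fun z hz => ⟨hp z hz, ?_⟩, ?_⟩
  · have h1 := (ha z hz).2.fun_mul (((hG z hz).sub_const (G z₀)).add_const (y₀ / a z₀))
    refine h1.congr_deriv ?_
    have := hp z hz
    have := hane z hz
    field_simp
  · have := hane z₀ hz₀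
    field_simp
    ring

/-- A set of points `(z, y)` closed under continuation along solutions. -/
def StepClosed (m : ℕ) (p : ℂ[X]) (E : ℂ → ℂ) (Q : Set (ℂ × ℂ)) : Prop :=
  ∀ Ω Y, IsOpen Ω → IsPreconnected Ω → IsSol m p E Ω Y →
    ∀ z ∈ Ω, ∀ z' ∈ Ω, (z, Y z) ∈ Q → (z', Y z') ∈ Q

/-- The smallest set containing `seed` closed under continuation along solutions. -/
def Leaf (m : ℕ) (p : ℂ[X]) (E : ℂ → ℂ) (seed : Set (ℂ × ℂ)) : Set (ℂ × ℂ) :=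
  {x | ∀ Q, seed ⊆ Q → StepClosed m p E Q → x ∈ Q}

theorem seed_subset_leaf {m : ℕ} {p : ℂ[X]} {E : ℂ → ℂ} {seed : Set (ℂ × ℂ)} :
    seed ⊆ Leaf m p E seed := fun _ hx _ hQ _ => hQ hx

theorem leaf_stepClosed {m : ℕ} {p : ℂ[X]} {E : ℂ → ℂ} {seed : Set (ℂ × ℂ)} :
    StepClosed m p E (Leaf m p E seed) :=
  fun Ω Y ho hc hs z hz z' hz' h Q hQ hcl => hcl Ω Y ho hc hs z hz z' hz' (h Q hQ hcl)

theorem leaf_subset {m : ℕ} {p : ℂ[X]} {E : ℂ → ℂ} {seed Q : Set (ℂ × ℂ)}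
    (hQ : seed ⊆ Q) (hcl : StepClosed m p E Q) : Leaf m p E seed ⊆ Q :=
  fun _ hx => hx Q hQ hcl

theorem stepClosed_of_local {m : ℕ} {p : ℂ[X]} {E : ℂ → ℂ} {Q : Set (ℂ × ℂ)}
    (h : ∀ z₀ ρ Y, 0 < ρ → IsSol m p E (ball z₀ ρ) Y →
      ∀ᶠ z in 𝓝 z₀, ((z, Y z) ∈ Q ↔ (z₀, Y z₀) ∈ Q)) : StepClosed m p E Q := by
  intro Ω Y ho hc hs z hz z' hz' hQ
  refine locconst_prop hc (fun z => (z, Y z) ∈ Q) ?_ hz hz' hQ
  intro z₀ hz₀
  obtain ⟨ρ, hρ, hball⟩ := Metric.isOpen_iff.1 ho z₀ hz₀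
  exact h z₀ ρ Y hρ (hs.mono hball)

/-- Some solution that is single valued around `r` has its graph in the leaf. -/
def Reg (m : ℕ) (p : ℂ[X]) (E : ℂ → ℂ) (seed : Set (ℂ × ℂ)) (r : ℂ) : Prop :=
  ∃ ρ > 0, ∃ Y, IsSol m p E (ball r ρ \ {r}) Y ∧
    ∀ z ∈ ball r ρ \ {r}, (z, Y z) ∈ Leaf m p E seed

end Pool.Agent.P.MP_376fb4_gt
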